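import Pool.Agent.P.MP_0b3dfe_lc.St0

/-! Clubs of countable sets against stationary sets of countable ordinals. -/

set_option synthInstance.maxSize 100000

namespace Pool.Agent.P.MP_0b3dfe_lc

open ZFSet Pool.Agent.P.MP_3ab3de_lc

namespace AA

variable {N : Set ZF} [hN : TModel N] {κ : ZF}

theorem ctb_iff {s : ZF} : Ctb N s ↔ s ∈ N ∧ Le N s om :=
  ⟨fun h => ⟨h.1, CardLE.le h.2 h.1 hN.infinity⟩,
    fun h => ⟨h.1, h.2.cardLE h.1 hN.infinity isOrdinal_omega⟩⟩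

theorem sub_left (a b : ZF) : a ⊆ a ∪ b := fun _ h => mem_union.2 (Or.inl h)

theorem sub_right (a b : ZF) : b ⊆ a ∪ b := fun _ h => mem_union.2 (Or.inr h)

theorem stat_top (h : Hart N om κ) : Stat N κ (fun _ => True) := by
  intro R hR H
  have := In.mk' hR
  obtain ⟨f, hf, h0, h1⟩ := dc (M := N) (fun _ x y => x ∈ y ∧ ∀ β ∈ x, ∃ ζ ∈ y, pair β ζ ∈ R)
    inferInstance h.mem (h.zero inf_omega) fun _ x hx => by
      obtain ⟨η, hη, h2⟩ := h.bdd_wit inf_omega (fun β ζ => pair β ζ ∈ R) inferInstance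
        (tr h.mem hx) (h.le x hx) fun β hβ => H β (h.ord.mem_trans hβ hx)
      refine ⟨η ∪ insert x x, h.union hη (h.succ inf_omega hx),
        sub_right _ _ (mem_insert _ _), fun β hβ => ?_⟩
      obtain ⟨ζ, h3, h4⟩ := h2 β hβ
      exact ⟨ζ, sub_left _ _ h3, h4⟩
  have := In.mk' hf
  have h2 : ∀ x ∈ om, app f x ∈ κ := fun x hx => by
    obtain ⟨n, rfl⟩ := mem_omega.1 hx
    exact (h1 n).1
  refine ⟨bun (app f) om, h.mem_of_le (isOrdinal_sUnion fun x hx => ?_)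
    (inf_omega.bun (app f) inferInstance hN.infinity (Le.refl hN.infinity)
      fun x hx => h.le _ (h2 x hx)), trivial, fun e => ?_, fun β hβ => ?_⟩
  · obtain ⟨y, hy, rfl⟩ := mem_img.1 hx
    exact h.ord.mem (h2 y hy)
  · exact notMem_empty _ (e ▸ mem_bun.2 ⟨_, num_mem_omega 1, (h1 0).2.1⟩ :)
  · obtain ⟨x, hx, hβ⟩ := mem_bun.1 hβ
    obtain ⟨n, rfl⟩ := mem_omega.1 hx
    obtain ⟨ζ, h3, h4⟩ := (h1 n).2.2 β hβ
    exact ⟨ζ, mem_bun.2 ⟨_, num_mem_omega (n + 1), h3⟩, h4⟩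

theorem bdd_inter (h : Hart N om κ) {t : ZF} (ht : t ∈ N) (h1 : Le N t om) :
    ∃ η ∈ κ, t ∩ κ ⊆ η := by
  have := In.mk' ht
  have := In.mk' h.mem
  exact h.bdd inf_omega (In.mem _) (fun x hx => (mem_inter.1 hx).2)
    (h1.mono fun x hx => (mem_inter.1 hx).1)

theorem club_of (h : Hart N om κ) {X : ZF} (hX : X ∈ N) (hκ : κ ⊆ X) {R : ZF} (hR : R ∈ N)
    (H : ∀ β ∈ κ, ∃ ζ ∈ κ, pair β ζ ∈ R) : ∃ K ∈ N, Club N (X : Set ZF) K ∧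
      ∀ s ∈ K, s ∩ κ ∈ κ ∧ s ∩ κ ≠ ∅ ∧ ∀ β ∈ s ∩ κ, ∃ ζ ∈ s ∩ κ, pair β ζ ∈ R := by
  have := In.mk' hR
  have := In.mk' hX
  have := In.mk' h.mem
  refine ⟨ZFSet.sep (fun s => s ∩ κ ∈ κ ∧ s ∩ κ ≠ ∅ ∧ ∀ β ∈ s ∩ κ, ∃ ζ ∈ s ∩ κ, pair β ζ ∈ R)
    (cs N X), In.mem _, ⟨fun s hs => ?_, fun t ht h1 => ?_, fun Y hY h1 h2 _ => ?_⟩,
    fun s hs => (mem_sep.1 hs).2⟩
  · obtain ⟨⟨h1, h2⟩, h3⟩ := mem_cs.1 (mem_sep.1 hs).1
    exact ⟨ctb_iff.2 ⟨h2, h3⟩, fun x hx => h1 hx⟩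
  · obtain ⟨h2, h3⟩ := ctb_iff.1 ht
    obtain ⟨η, hη, h4⟩ := bdd_inter h h2 h3
    have := In.mk' (tr h.mem hη)
    obtain ⟨δ, hδ, -, h5, h6⟩ := (stat_top h).close h.mem
      (fun β z => η ⊆ z ∧ ∃ ζ ∈ z, pair β ζ ∈ R) inferInstance fun β hβ => by
        obtain ⟨ζ, h5, h6⟩ := H β hβ
        exact ⟨η ∪ insert ζ ζ, h.union hη (h.succ inf_omega h5), sub_left _ _, ζ,
          sub_right _ _ (mem_insert _ _), h6⟩
    have ho := h.ord.mem hδ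
    have h7 : η ⊆ δ := by
      obtain ⟨β, hβ⟩ := (eq_empty_or_nonempty δ).resolve_left h5
      obtain ⟨z, hz, h7, -⟩ := h6 β hβ
      exact fun x hx => ho.mem_trans (h7 hx) hz
    have e : (t ∪ δ) ∩ κ = δ := by
      ext x
      rw [mem_inter, mem_union]
      exact ⟨fun hx => hx.1.elim (fun h8 => h7 (h4 (mem_inter.2 ⟨h8, hx.2⟩))) id,
        fun hx => ⟨Or.inr hx, h.ord.mem_trans hx hδ⟩⟩
    have := In.mk' h2
    have := In.mk' (tr h.mem hδ)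
    refine ⟨t ∪ δ, mem_sep.2 ⟨mem_cs.2 ⟨⟨fun x hx => (mem_union.1 hx).elim (h1 x)
      fun hx => hκ (h.ord.mem_trans hx hδ), In.mem _⟩,
      inf_omega.union h2 (tr h.mem hδ) h3 (h.le δ hδ)⟩, ?_⟩, sub_left _ _⟩
    rw [e]
    refine ⟨hδ, h5, fun β hβ => ?_⟩
    obtain ⟨z, hz, -, ζ, h8, h9⟩ := h6 β hβ
    exact ⟨ζ, ho.mem_trans h8 hz, h9⟩
  · obtain ⟨h3, h4⟩ := ctb_iff.1 hY
    have := In.mk' h3
    have h5 : Le N (ZFSet.sUnion Y) om :=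
      inf_omega.sUnion h3 h4 fun s hs => (mem_cs.1 (mem_sep.1 (h1 hs)).1).2
    have h6 : ∀ s ∈ Y, s ∩ κ ⊆ ZFSet.sUnion Y ∩ κ := fun s hs x hx =>
      mem_inter.2 ⟨mem_sUnion.2 ⟨s, hs, (mem_inter.1 hx).1⟩, (mem_inter.1 hx).2⟩
    have h7 : ∀ x ∈ ZFSet.sUnion Y ∩ κ, ∃ s ∈ Y, x ∈ s ∩ κ := fun x hx => by
      obtain ⟨s, hs, h7⟩ := mem_sUnion.1 (mem_inter.1 hx).1
      exact ⟨s, hs, mem_inter.2 ⟨h7, (mem_inter.1 hx).2⟩⟩
    refine mem_sep.2 ⟨mem_cs.2 ⟨⟨fun x hx => ?_, In.mem _⟩, h5⟩, h.mem_of_le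
      (ord_of_trans_subset h.ord (fun x hx => (mem_inter.1 hx).2) fun x hx y hy => ?_)
      (h5.mono fun x hx => (mem_inter.1 hx).1), fun e => ?_, fun β hβ => ?_⟩
    · obtain ⟨s, hs, hx⟩ := mem_sUnion.1 hx
      exact (mem_cs.1 (mem_sep.1 (h1 hs)).1).1.1 hx
    · obtain ⟨s, hs, hx⟩ := h7 x hx
      exact h6 s hs ((h.ord.mem (mem_sep.1 (h1 hs)).2.1).mem_trans hy hx)
    · obtain ⟨s, hs⟩ := h2
      obtain ⟨x, hx⟩ := (eq_empty_or_nonempty _).resolve_left (mem_sep.1 (h1 hs)).2.2.1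
      exact notMem_empty _ (e ▸ h6 s hs hx :)
    · obtain ⟨s, hs, hβ⟩ := h7 β hβ
      obtain ⟨ζ, h8, h9⟩ := (mem_sep.1 (h1 hs)).2.2.2 β hβ
      exact ⟨ζ, h6 s hs h8, h9⟩

theorem meet (h : Hart N om κ) {X : ZF} (hX : X ∈ N) (hκ : κ ⊆ X) {K : ZF} (hK : K ∈ N)
    (hC : Club N (X : Set ZF) K) {T : ZF → Prop} (hT : Stat N κ T) : ∃ s ∈ K, T (s ∩ κ) := by
  have := In.mk' hK
  have := In.mk' hX
  have := In.mk' h.mem
  obtain ⟨g, hg, h1⟩ := skolem (M := N) (fun t s => s ∈ K ∧ t ⊆ s) inferInstance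
    (In.mem (cs N X)) fun t ht => by
      obtain ⟨⟨h1, h2⟩, h3⟩ := mem_cs.1 ht
      obtain ⟨s, hs, h4⟩ := hC.2.1 t (ctb_iff.2 ⟨h2, h3⟩) fun x hx => h1 hx
      exact ⟨s, tr hK hs, hs, h4⟩
  have := In.mk' hg
  let F := rc fun b p => app g (b ∪ bun snd p)
  have hF : Tm N (fun v => F (v 0)) := tm_rc inferInstance
  have := fun s [Tm N s] => hF.one s
  have e : ∀ b, F b = app g (b ∪ bun F b) := fun b => by
    rw [show F b = _ from rc_eq _ b]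
    congr 2
    ext y
    simp only [mem_bun, mem_graph]
    constructor
    · rintro ⟨_, ⟨x, hx, rfl⟩, h2⟩; exact ⟨x, hx, by simpa using h2⟩
    · rintro ⟨x, hx, h2⟩; exact ⟨_, ⟨x, hx, rfl⟩, by simpa using h2⟩
  have key : ∀ b, b ∈ κ → F b ∈ K ∧ b ∪ bun F b ⊆ F b := by
    intro b
    induction b using ZFSet.inductionOn with
    | h b ih =>
      intro hb
      have := In.mk' (tr h.mem hb)
      have h2 : ∀ c ∈ b, F c ∈ K := fun c hc => (ih c hc (h.ord.mem_trans hc hb)).1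
      have h3 := h1 (b ∪ bun F b) (mem_cs.2 ⟨⟨fun x hx => ?_, In.mem _⟩,
        inf_omega.union (tr h.mem hb) (In.mem _) (h.le b hb) (inf_omega.bun F hF (tr h.mem hb)
          (h.le b hb) fun c hc => (ctb_iff.1 (hC.1 _ (h2 c hc)).1).2)⟩)
      · rwa [← e] at h3
      · rcases mem_union.1 hx with hx | hx
        · exact hκ (h.ord.mem_trans hx hb)
        · obtain ⟨c, hc, hx⟩ := mem_bun.1 hx
          exact (hC.1 _ (h2 c hc)).2 x hx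
  obtain ⟨δ, hδ, h2, h3, h4⟩ := hT.close h.mem (fun b z => b ∈ z ∧ F b ∩ κ ⊆ z) inferInstance
    fun b hb => by
      obtain ⟨h2, h3⟩ := ctb_iff.1 (hC.1 _ (key b hb).1).1
      obtain ⟨η, hη, h4⟩ := bdd_inter h h2 h3
      exact ⟨η ∪ insert b b, h.union hη (h.succ inf_omega hb), sub_right _ _ (mem_insert _ _),
        fun x hx => sub_left _ _ (h4 hx)⟩
  have ho := h.ord.mem hδ
  have := In.mk' (tr h.mem hδ)
  have h5 : ∀ b ∈ δ, ∀ c ∈ b, F c ⊆ F b := fun b hb c hc x hx =>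
    (key b (h.ord.mem_trans hb hδ)).2 (sub_right _ _ (mem_bun.2 ⟨c, hc, hx⟩))
  refine ⟨ZFSet.sUnion (img F δ), hC.2.2 _ (ctb_iff.2 ⟨In.mem _,
    inf_omega.img F hF (tr h.mem hδ) (h.le δ hδ)⟩) (fun s hs => ?_) ?_ fun s hs t ht => ?_, ?_⟩
  · obtain ⟨b, hb, rfl⟩ := mem_img.1 hs
    exact (key b (h.ord.mem_trans hb hδ)).1
  · obtain ⟨b, hb⟩ := (eq_empty_or_nonempty δ).resolve_left h3
    exact ⟨_, img_mem hb⟩
  · obtain ⟨b, hb, rfl⟩ := mem_img.1 hs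
    obtain ⟨c, hc, rfl⟩ := mem_img.1 ht
    rcases (ho.mem hb).mem_trichotomous (ho.mem hc) with h6 | rfl | h6
    exacts [Or.inl (h5 c hc b h6), Or.inl fun _ hx => hx, Or.inr (h5 b hb c h6)]
  · have e2 : ZFSet.sUnion (img F δ) ∩ κ = δ := by
      ext x
      rw [mem_inter]
      constructor
      · rintro ⟨h6, h7⟩
        obtain ⟨b, hb, h6⟩ := mem_bun.1 h6
        obtain ⟨z, hz, -, h8⟩ := h4 b hb
        exact ho.mem_trans (h8 (mem_inter.2 ⟨h6, h7⟩)) hz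
      · intro hx
        obtain ⟨z, hz, h6, -⟩ := h4 x hx
        exact ⟨mem_bun.2 ⟨z, hz, (key z (h.ord.mem_trans hz hδ)).2 (sub_left _ _ h6)⟩,
          h.ord.mem_trans hx hδ⟩
    rwa [e2]

end AA

theorem aa : S_AA := by
  intro N _ κ h X hX hκ T
  constructor
  · rintro ⟨K, hK, hC, h1⟩ hT
    obtain ⟨s, hs, h2⟩ := AA.meet h hX hκ hK hC hT
    exact h1 s hs h2
  · intro hT
    by_contra h1
    refine hT fun R hR H => ?_
    obtain ⟨K, hK, hC, h2⟩ := AA.club_of h hX hκ hR H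
    by_contra h3
    exact h1 ⟨K, hK, hC, fun s hs h4 => h3 ⟨_, (h2 s hs).1, h4, (h2 s hs).2⟩⟩

end Pool.Agent.P.MP_0b3dfe_lc
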