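import Pool.Agent.P.MP_0b3dfe_lc.St1

/-! The levels are uniformly definable, and `C(aa)` lies in every homogeneous ground model. -/

set_option synthInstance.maxSize 100000

namespace Pool.Agent.P.MP_0b3dfe_lc

open ZFSet Pool.Agent.P.MP_3ab3de_lc

namespace CaaSubP

theorem ud_sat (h1 : S_SatA) {A : Set ZF} {X : ZF} (hX : X ∈ A) (φ : AFml) {v : Env}
    (hv : ∀ n, v n ∈ A) :
    UD A (fun N w => SatA N (X : Set ZF) φ (cons (w 0) v) (fun _ => ∅)) := by
  refine (((h1 φ).up (Set.empty_subset A)).subst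
    (fun k _ w => if k = 0 then X else if k % 2 = 1 then cons (w 0) v (k / 2) else ∅)
    fun k => ?_).congr fun N _ w _ => ?_
  · by_cases a : k = 0
    · simp only [if_pos a]; exact UI.mk' hX
    · by_cases b : k % 2 = 1
      · simp only [if_neg a, if_pos b]
        cases k / 2 with
        | zero => exact UT.var 0
        | succ j => exact UI.mk' (hv j)
      · simp only [if_neg a, if_neg b]; exact ui_empty
  · have e1 : ∀ k : ℕ, (2 * k + 1) % 2 = 1 := fun k => by omega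
    have e2 : ∀ k : ℕ, (2 * k + 1) / 2 = k := fun k => by omega
    have e3 : ∀ k : ℕ, ¬ (2 * k + 2) % 2 = 1 := fun k => by omega
    simp only [if_true, Nat.add_one_ne_zero, if_false, e1, e2, e3]

/-- separation in `W` for predicates that are evaluated in `N` -/
def HS (N W : Set ZF) : Prop := ∀ P : Set ZF → Env → Prop, UD W P → ∀ a ∈ W,
  ZFSet.sep (fun x => P N (fun _ => x)) a ∈ W

theorem hs_self (N : Set ZF) [ZModel N] : HS N N := fun _ h _ ha =>
  zsep _ ((h.ren fun _ => 0).df (Ov.self N)) ha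

theorem hs_hom {N W : Set ZF} [ZModel N] [ZModel W] (hs : W ⊆ N) (h : Hom N W) : HS N W := by
  rintro P ⟨φ, ρ, e⟩ a ha
  have := h (φ.ren (fun n => Sum.elim (fun _ => 0) (fun _ => n + 1) (ρ n)))
    (fun n => Sum.elim (fun _ => a) Subtype.val (ρ n)) (ein_elim (fun _ => ha) ρ) a ha
  convert this using 1
  ext x
  rw [mem_sep, mem_sep]
  refine and_congr_right fun hx => Iff.trans ?_ (sat_ren _ _ _).symm
  refine (e N ⟨inferInstance, hs⟩ (fun _ => x) fun _ => hs (ztr ha hx)).trans ?_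
  have : (fun n => cons x (fun n => Sum.elim (fun _ => a) Subtype.val (ρ n))
      (Sum.elim (fun _ => 0) (fun _ => n + 1) (ρ n))) =
      fun n => Sum.elim (fun _ => x) Subtype.val (ρ n) := by
    funext n
    rcases e : ρ n with k | c
    · rfl
    · simp [e]
  rw [this]

theorem def_mem (h1 : S_SatA) {N W : Set ZF} [ZModel W] (h : HS N W) {X y : ZF} (hX : X ∈ W)
    (hy : y ∈ DefA N (X : Set ZF)) : y ∈ W := by
  rcases hy with rfl | ⟨φ, v, hv, e⟩
  · exact (Ov.self W).empty_mem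
  · convert h _ (ud_sat h1 hX φ fun n => ztr hX (hv n)) X hX using 1
    ext x
    rw [e, mem_sep]
    rfl

/-- the definable power set as a set -/
noncomputable def DefZ (N : Set ZF) (X : ZF) : ZF :=
  ZFSet.sep (· ∈ DefA N (X : Set ZF)) (pw N X)

theorem mem_DefZ (h1 : S_SatA) {N : Set ZF} [ZModel N] {X y : ZF} (hX : X ∈ N) :
    y ∈ DefZ N X ↔ y ∈ DefA N (X : Set ZF) := by
  rw [DefZ, mem_sep, mem_pw]
  exact ⟨And.right, fun h => ⟨⟨fun _ hx => DefA.sub h hx, def_mem h1 (hs_self N) hX h⟩, h⟩⟩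

/-- the step of the recursion -/
noncomputable def PhiA (N : Set ZF) (_ g : ZF) : ZF := bun (fun p => DefZ N (snd p)) g

theorem ut_PhiA (h2 : S_DefA) : UT ∅ (fun N v => PhiA N (v 0) (v 1)) := by
  have := fun s t [UT ∅ s] [UT ∅ t] =>
    UD.two (R := fun N y X => y ∈ DefA N (X : Set ZF)) h2 s t
  unfold PhiA DefZ
  infer_instance

theorem mem_LZ_iff {N : Set ZF} {o x : ZF} (ho : IsOrdinal o) :
    x ∈ LZ N o ↔ ∃ y ∈ o, x ∈ DefA N (LZ N y : Set ZF) := by
  rw [mem_LZ, mem_LA]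
  constructor
  · rintro ⟨a, h1, h2⟩
    refine ⟨a.toZFSet, ?_, by rwa [coe_LZ, Ordinal.rank_toZFSet]⟩
    rw [← ho.toZFSet_rank_eq]
    exact Ordinal.toZFSet_mem_toZFSet_iff.2 h1
  · rintro ⟨y, h1, h2⟩
    exact ⟨rank y, rank_lt_of_mem h1, by rwa [coe_LZ] at h2⟩

theorem rc_PhiA (h1 : S_SatA) (h2 : S_DefA) {N : Set ZF} [ZModel N] (o : ZF) :
    o ∈ N → IsOrdinal o → rc (PhiA N) o = LZ N o := by
  induction o using ZFSet.inductionOn with
  | h o ih =>
    intro hm ho
    have key : ∀ y ∈ o, ∀ x, x ∈ DefZ N (rc (PhiA N) y) ↔ x ∈ DefA N (LZ N y : Set ZF) :=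
      fun y hy x => by
        rw [mem_DefZ h1 ((ut_rc (Φ := fun N _ => PhiA N) (ut_PhiA h2) (fun _ v => v 0)).mem N
          (Ov.empty N) (fun _ => y) fun _ => ztr hm hy), ih y hy (ztr hm hy) (ho.mem hy)]
    rw [rc_eq]
    ext x
    rw [mem_LZ_iff ho, PhiA, mem_bun]
    constructor
    · rintro ⟨p, hp, h⟩
      obtain ⟨y, hy, rfl⟩ := mem_graph.1 hp
      rw [snd_pair] at h
      exact ⟨y, hy, (key y hy x).1 h⟩
    · rintro ⟨y, hy, h⟩
      exact ⟨_, mem_graph.2 ⟨y, hy, rfl⟩, by rw [snd_pair]; exact (key y hy x).2 h⟩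

end CaaSubP

open CaaSubP

theorem lz (h1 : S_SatA) (h2 : S_DefA) : S_LZ :=
  (ut_rc (Φ := fun N _ => PhiA N) (ut_PhiA h2) (fun _ v => rk (v 0))).congr fun N o v hv => by
    have := o.z
    rw [rc_PhiA h1 h2 _ (zrk_mem _ (hv 0)) (rk_ord _), LZ, LZ, rank_rk]

theorem caaSub (h1 : S_SatA) (h2 : S_LZ) : S_CaaSub := by
  intro N W _ _ hs hord hH
  have H := hs_hom hs hH
  have key : ∀ o : ZF, o ∈ N → IsOrdinal o → LZ N o ∈ W := by
    intro o
    induction o using ZFSet.inductionOn with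
    | h o ih =>
      intro hm ho
      have hW := hord o hm ho
      have := UI.mk' hW
      have hL : UT W (fun N _ => LZ N o) :=
        UT.one (G := fun N a => LZ N a) (UT.up h2 (Set.empty_subset W)) fun _ _ => o
      convert H (fun N w => w 0 ∈ LZ N o) inferInstance (VM W o)
        ((Ov.self W).mem fun N => VM N o) using 1
      ext x
      rw [mem_sep, mem_VM]
      refine ⟨fun h => ⟨⟨rank_LA _ x (mem_LZ.1 h), ?_⟩, h⟩, And.right⟩
      obtain ⟨y, hy, h⟩ := (mem_LZ_iff ho).1 h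
      exact def_mem h1 H (ih y hy (ztr hm hy) (ho.mem hy)) h
  intro x hx
  obtain ⟨a, a1, a2, a3⟩ := mem_Caa.1 hx
  exact ztr (key a a1 a2) a3

end Pool.Agent.P.MP_0b3dfe_lc
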