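import Pool.Agent.P.MP_0b3dfe_lc.Pos2

/-! Semantic forcing is definable and obeys the truth lemma; statements of the forcing packages. -/

set_option linter.unusedSectionVars false
set_option synthInstance.maxSize 100000

namespace Pool.Agent.P.MP_0b3dfe_lc

open ZFSet Pool.Agent.P.MP_3ab3de_lc ForceP

variable {M : Set ZF} [hM : TModel M] {P L G p q a b : ZF} {Q : Set ZF → ZF → ZF → ZF → Prop}

theorem df_subst0 (φ : Fml) : ∀ t : ℕ → Env → ZF, (∀ k, Tm M (t k)) →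
    Df M (fun v => Sat M φ (fun k => t k v)) := by
  induction φ with
  | mem i j => exact fun t h => @Df.mem _ _ _ (h i) (h j)
  | eq i j => exact fun t h => @Df.eq _ _ _ (h i) (h j)
  | bot => exact fun _ _ => Df.bot
  | imp φ ψ h1 h2 => exact fun t h => @Df.imp _ _ _ (h1 t h) (h2 t h)
  | all φ ih =>
    intro t h
    refine Df.allM (P := fun v x => Sat M φ (cons x fun k => t k v)) ?_
    refine (ih (cns (fun v => v 0) fun k v => t k (fun n => v (n + 1))) fun k => ?_).congr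
      fun v _ => ?_
    · cases k with
      | zero => exact Tm.var 0
      | succ k => exact @Tm.ren _ _ (h k) _
    · have : (cons (v 0) fun k => t k (fun n => v (n + 1))) = fun k =>
          cns (fun v => v 0) (fun k v => t k (fun n => v (n + 1))) k v := by
        funext k; cases k <;> rfl
      rw [this]

theorem df_subst {R : Env → Prop} (h : Df M R) (t : ℕ → Env → ZF) (ht : ∀ k, Tm M (t k)) :
    Df M (fun v => R (fun k => t k v)) := by
  obtain ⟨φ, ρ, h⟩ := h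
  refine (df_subst0 φ (fun k => Sum.elim t (fun c _ => c.1) (ρ k)) fun k => ?_).congr
    fun v hv => (h _ fun k => (ht k).mem v hv).trans ?_
  · cases ρ k with
    | inl j => exact ht j
    | inr c => exact In.mk' c.2
  · have : (fun n => Sum.elim (fun k => t k v) Subtype.val (ρ n)) =
        fun k => Sum.elim t (fun (c : M) _ => c.1) (ρ k) v := by
      funext k; cases ρ k <;> rfl
    rw [this]

theorem frc_aux (hc : M.Countable) (hP : P ∈ M) (hL : L ∈ M) (po : PO P L)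
    (hQ : UD M (fun N v => Q N (v 0) (v 1) (v 2))) :
    ∃ F : ZF → ZF → ZF → Prop, Df M (fun w => F (w 0) (w 1) (w 2)) ∧
      (∀ G, Gen M P L G → ∀ a ∈ M, ∀ b ∈ M, Q (val G '' M) G a b ↔ ∃ p ∈ G, F p a b) ∧
      ∀ a ∈ M, ∀ b ∈ M, ∀ p ∈ P, Frc M P L Q p a b ↔ F p a b := by
  obtain ⟨φ, ρ, h⟩ := hQ
  have := In.mk' hP
  have := In.mk' hL
  let nm : ZF → ZF → Env := fun a b k => Sum.elim (cons (img (fun p => pair (chk P p) p) P)
    (cons (chk P a) fun _ => chk P b)) (fun c : M => chk P c.1) (ρ k)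
  have h1 : ∀ k, Tm M (fun w => nm (w 1) (w 2) k) := fun k => by
    simp only [nm]
    rcases ρ k with (_ | _ | j) | c
    · exact (inferInstance : In M (img (fun p => pair (chk P p) p) P))
    · exact (inferInstance : Tm M (fun w => chk P (w 1)))
    · exact (inferInstance : Tm M (fun w => chk P (w 2)))
    · have := In.mk' c.2
      exact (inferInstance : In M (chk P c.1))
  have h2 : ∀ a ∈ M, ∀ b ∈ M, EIn M (nm a b) := fun a ha b hb k =>
    (h1 k).mem (cons a (cons a fun _ => b)) (EIn.cons (EIn.cons (fun _ => hb) ha) ha)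
  have h3 : ∀ G, Gen M P L G → ∀ a ∈ M, ∀ b ∈ M,
      Q (val G '' M) G a b ↔ ∃ p ∈ G, Fo M L φ p (nm a b) := fun G hG a ha b hb => by
    have C : Cx M P L G := ⟨hP, hL, po, hG⟩
    have := C.model
    refine (h _ ⟨inferInstance, C.sub_ext⟩ (cons G (cons a fun _ => b))
      (EIn.cons (EIn.cons (fun _ => C.sub_ext hb) (C.sub_ext ha)) C.gen_mem)).trans ?_
    rw [← C.truth φ (h2 a ha b hb)]
    have : (fun n => Sum.elim (cons G (cons a fun _ => b)) Subtype.val (ρ n)) =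
        fun n => val G (nm a b n) := by
      funext k
      simp only [nm]
      rcases ρ k with (_ | _ | j) | c
      · refine ZFSet.ext fun y => Iff.symm ?_
        change y ∈ val G (img (fun p => pair (chk P p) p) P) ↔ y ∈ G
        rw [mem_val]
        constructor
        · rintro ⟨s, p, hp, h, rfl⟩
          obtain ⟨q, -, e⟩ := mem_img.1 h
          obtain ⟨rfl, rfl⟩ := pair_inj.1 e
          rwa [C.val_chk]
        · exact fun hy => ⟨_, y, hy, img_mem (F := fun p => pair (chk P p) p) (C.gen.sub hy),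
            C.val_chk y⟩
      all_goals exact (C.val_chk _).symm
    rw [this]
  refine ⟨fun p a b => Fo M L φ p (nm a b), df_subst (df_fo (L := L) φ)
    (cns (fun w => w 0) fun k w => nm (w 1) (w 2) k) (fun k => by
      cases k
      exacts [Tm.var 0, h1 _]), h3, fun a ha b hb p hp => ⟨fun h4 => by_contra fun h5 => ?_,
    fun h4 => ⟨hp, fun G hG h5 => (h3 G hG a ha b hb).2 ⟨p, h5, h4⟩⟩⟩⟩
  obtain ⟨G, hG, -⟩ := genEx M hc P L po p hp
  obtain ⟨q, h6, h7⟩ := Cx.fo_not ⟨hP, hL, po, hG⟩ φ (h2 a ha b hb) hp h5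
  obtain ⟨G, hG, h8⟩ := genEx M hc P L po q (po.mem _ _ h6).1
  obtain ⟨r, h9, h10⟩ := (h3 G hG a ha b hb).1 (h4.2 G hG (hG.up q h8 p h6))
  obtain ⟨s, -, h11, h12⟩ := hG.dir q h8 r h9
  exact h7 s h11 (Cx.fo_mono ⟨hP, hL, po, hG⟩ φ (h2 a ha b hb) h10 h12)

/-- definability of semantic forcing -/
theorem frc_df (hc : M.Countable) (hP : P ∈ M) (hL : L ∈ M) (po : PO P L)
    (hQ : UD M (fun N v => Q N (v 0) (v 1) (v 2))) :
    Df M (fun w => Frc M P L Q (w 0) (w 1) (w 2)) := by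
  obtain ⟨F, h1, -, h2⟩ := frc_aux hc hP hL po hQ
  have := In.mk' hP
  exact (inferInstance : Df M (fun w => w 0 ∈ P ∧ F (w 0) (w 1) (w 2))).congr fun w hw =>
    ⟨fun h => ⟨h.1, (h2 _ (hw 1) _ (hw 2) _ h.1).1 h⟩, fun h => (h2 _ (hw 1) _ (hw 2) _ h.1).2 h.2⟩

/-- truth lemma for semantic forcing -/
theorem frc_truth (hc : M.Countable) (C : Cx M P L G)
    (hQ : UD M (fun N v => Q N (v 0) (v 1) (v 2))) (ha : a ∈ M) (hb : b ∈ M)
    (h : Q (val G '' M) G a b) : ∃ p ∈ G, Frc M P L Q p a b := by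
  obtain ⟨F, -, h1, h2⟩ := frc_aux hc C.hP C.hL C.po hQ
  obtain ⟨p, h3, h4⟩ := (h1 G C.gen a ha b hb).1 h
  exact ⟨p, h3, (h2 a ha b hb p (C.gen.sub h3)).2 h4⟩

omit hM in
theorem Frc.mono (po : PO P L) (h : Frc M P L Q p a b) (hq : pair q p ∈ L) : Frc M P L Q q a b :=
  ⟨(po.mem _ _ hq).1, fun G hG h1 => h.2 G hG (hG.up q h1 p hq)⟩

/-- a model that contains the ground model and the filter contains the extension -/
theorem ext_sub {N : Set ZF} [ZModel N] (h : M ⊆ N) (hG : G ∈ N) : val G '' M ⊆ N := by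
  rintro _ ⟨t, ht, rfl⟩
  have := UI.mk' hG
  have := UI.mk' (h ht)
  exact UI.mem _

def S_Cnt : Prop := ∀ (M : Set ZF) [TModel M] (κ S n : ZF), Sys M κ S → n ∈ om → ∀ γ ∈ κ,
  Le M (ZFSet.sep (fun p => p ⊆ At γ) (PP M κ S n)) om

def S_Pres : Prop := ∀ (M : Set ZF) [TModel M] (κ S n G : ZF), GX M κ S n G →
  (∀ a ∈ M, Stat M κ (fun ξ => pair a ξ ∈ S) → ∀ p ∈ G,
    (∀ ξ, pair a ξ ∈ S → ∀ m, n ⊆ m → Ok S p m ξ) →
      Stat (val G '' M) κ (fun ξ => pair a ξ ∈ S)) ∧ Hart (val G '' M) om κ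

def S_Pat : Prop := ∀ (M : Set ZF) [TModel M] (κ S n G : ZF), GX M κ S n G →
  ∀ m ∈ om, n ⊆ m → ∀ i ∈ κ, ∀ α ∈ κ,
    (¬ Stat (val G '' M) κ (fun ξ => pair (pair (pair (insert m m) i) α) ξ ∈ S) ↔
      InD G (pair (insert m m) i) α)

def S_HomP : Prop := ∀ (M : Set ZF) [TModel M] (κ S n G : ZF), GX M κ S n G →
  Hom (val G '' M) (val (lev (insert n n) G) '' M)

def S_NoAC : Prop := ∀ (M : Set ZF) [TModel M] (κ S G : ZF), GX M κ S ∅ G →
  ∀ a ∈ M, ∀ A, A ⊆ a → (∀ n ∈ om, A ∈ val (lev n G) '' M) →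
    ¬ ∀ x ∈ M, IsFunc om κ x → ∃ k ∈ om, ∀ m ∈ om, k ⊆ m →
      (pair x m ∈ A ↔ InD G (pair m ∅) (app x m))

end Pool.Agent.P.MP_0b3dfe_lc
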