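import Pool.Agent.P.MP_0b3dfe_lc.Dec
import Pool.Agent.P.MP_0b3dfe_lc.St2
import Pool.Agent.P.MP_9a7e1f_lc.LMod

/-! The model `C(aa)` of a model of ZFC is a model of ZF. -/

set_option linter.unusedSectionVars false
set_option synthInstance.maxSize 100000

namespace Pool.Agent.P.MP_0b3dfe_lc

open ZFSet Pool.Agent.P.MP_3ab3de_lc Pool.Agent.P.MP_9a7e1f_lc

namespace CZ

variable {N : Set ZF} [hN : TModel N]

omit hN in
theorem lz_mono {a b : ZF} (h : a ⊆ b) : LZ N a ⊆ LZ N b := fun _ hx =>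
  mem_LZ.2 (LA_mono (rank_mono h) (mem_LZ.1 hx))

omit hN in
theorem lz_trn (a : ZF) : Trn (LZ N a : Set ZF) := fun _ hx _ hy =>
  mem_LZ.2 (LA_trans (mem_LZ.1 hx) hy)

omit hN in
theorem def_mem {a y : ZF} (Q : ZF → Prop) (h : Df (LZ N a : Set ZF) (fun u => Q (u 0)))
    (e : ∀ x, x ∈ y ↔ x ∈ LZ N a ∧ Q x) : y ∈ LZ N (insert a a) := by
  rw [mem_LZ, rank_insert, max_eq_left (Order.le_succ _), Order.succ_eq_add_one, LA_succ, ← coe_LZ]
  rcases eq_empty_or_nonempty y with h0 | ⟨z, hz⟩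
  · exact Or.inl h0
  have hz := ((e z).1 hz).1
  obtain ⟨φ, ρ, h⟩ := h
  refine Or.inr ⟨DecP.emb (φ.ren (fun n => Sum.elim (fun _ => 0) (fun _ => n + 1) (ρ n))),
    fun n => Sum.elim (fun _ => z) Subtype.val (ρ n), ein_elim (fun _ => hz) ρ, fun x => ?_⟩
  rw [e, DecP.sat_emb]
  refine and_congr_right fun hx => Iff.trans ?_ (sat_ren _ _ _).symm
  refine (h (fun _ => x) fun _ => hx).trans ?_
  have : (fun n => cons x (fun n => Sum.elim (fun _ => z) Subtype.val (ρ n))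
      (Sum.elim (fun _ => 0) (fun _ => n + 1) (ρ n))) =
      fun n => Sum.elim (fun _ => x) Subtype.val (ρ n) := by
    funext n
    rcases e : ρ n with k | c
    · rfl
    · simp [e]
  rw [this]

theorem lz_sub {a : ZF} (ha : a ∈ N) (ho : IsOrdinal a) {x : ZF} (hx : x ∈ LZ N a) : x ∈ Caa N :=
  mem_Caa.2 ⟨a, ha, ho, hx⟩

theorem succ_mem {a : ZF} (ha : a ∈ N) : insert a a ∈ N := by
  have := In.mk' ha
  exact In.mem _

theorem two {a b : ZF} (ha : a ∈ N) (hb : b ∈ N) (h1 : IsOrdinal a) (h2 : IsOrdinal b) :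
    ∃ c ∈ N, IsOrdinal c ∧ a ⊆ c ∧ b ⊆ c := by
  rcases h1.subset_total h2 with h | h
  exacts [⟨b, hb, h2, h, fun _ h => h⟩, ⟨a, ha, h1, fun _ h => h, h⟩]

omit hN in
theorem lz_self (a : ZF) : LZ N a ∈ LZ N (insert a a) :=
  def_mem (fun _ => True) (Df.const True) fun _ => by simp

omit hN in
theorem trnC : Trn (Caa N) := fun _ hx _ hy => by
  obtain ⟨a, h1, h2, h3⟩ := mem_Caa.1 hx
  exact mem_Caa.2 ⟨a, h1, h2, lz_trn a _ h3 _ hy⟩

theorem code {X : ZF} (hX : X ∈ N) {v : Env} (hv : ∀ k, v k ∈ X) (n : ℕ) :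
    ∃ f ∈ pw N (prod om X), ∀ k, app f (num k) ∈ X ∧ (k < n → app f (num k) = v k) := by
  classical
  have := In.mk' (tr hX (hv 0))
  induction n with
  | zero => exact ⟨graph (fun _ => v 0) om, mem_pw.2 ⟨(graph_isFunc fun _ _ => hv 0).1, In.mem _⟩,
      fun k => ⟨by rw [app_graph (num_mem_omega k)]; exact hv 0, fun h => absurd h (by omega)⟩⟩
  | succ n ih =>
    obtain ⟨f, hf, h⟩ := ih
    have := In.mk' (mem_pw.1 hf).2
    have := In.mk' (tr hX (hv n))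
    have key : ∀ k, (if num k = num n then v n else app f (num k)) ∈ X := fun k => by
      split_ifs
      exacts [hv n, (h k).1]
    refine ⟨graph (fun m => if m = num n then v n else app f m) om, mem_pw.2
      ⟨(graph_isFunc fun m hm => ?_).1, In.mem _⟩, fun k => ?_⟩
    · obtain ⟨k, rfl⟩ := mem_omega.1 hm
      exact key k
    · rw [app_graph (num_mem_omega k)]
      refine ⟨key k, fun hk => ?_⟩
      split_ifs with e
      exacts [by rw [num_inj.1 e], (h k).2 (by have := num_inj.not.1 e; omega)]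

variable (hL : S_LZ)
include hL

theorem tm_lz (a : Env → ZF) [Tm N a] : Tm N (fun v => LZ N (a v)) :=
  Tm.one (UT.tm hL (Ov.empty N)) a

theorem lz_mem {a : ZF} (ha : a ∈ N) : LZ N a ∈ N := (UT.tm hL (Ov.empty N)).mem (fun _ => a) fun _ => ha

theorem subN {x : ZF} (hx : x ∈ Caa N) : x ∈ N := by
  obtain ⟨a, h1, -, h3⟩ := mem_Caa.1 hx
  exact tr (lz_mem hL h1) h3

theorem dfC (a : Env → ZF) [Tm N a] : Df N (fun v => a v ∈ Caa N) := by
  have := fun a [Tm N a] => tm_lz (N := N) hL a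
  exact (inferInstance : Df N (fun v => ∃ b ∈ N, IsOrdinal b ∧ a v ∈ LZ N b)).congr
    fun _ _ => mem_Caa

theorem wit {T : ZF} (hT : T ∈ N) (R : ZF → ZF → Prop) (hR : Df N (fun v => R (v 0) (v 1))) :
    ∃ b ∈ N, IsOrdinal b ∧ ∀ t ∈ T, (∃ x ∈ Caa N, R t x) → ∃ x ∈ LZ N b, R t x := by
  have := fun a [Tm N a] => tm_lz (N := N) hL a
  have := fun s t [Tm N s] [Tm N t] => hR.two s t
  obtain ⟨c, hc, h⟩ := collect (M := N) (fun t b => IsOrdinal b ∧ ∃ x ∈ LZ N b, R t x)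
    inferInstance (sep_mem' (fun t => ∃ b ∈ N, IsOrdinal b ∧ ∃ x ∈ LZ N b, R t x) inferInstance hT)
    fun t ht => (mem_sep.1 ht).2
  have := In.mk' hc
  refine ⟨ZFSet.sUnion (ZFSet.sep IsOrdinal c), In.mem _,
    isOrdinal_sUnion fun x hx => (mem_sep.1 hx).2, fun t ht ⟨x, hx, h1⟩ => ?_⟩
  obtain ⟨a, h2, h3, h4⟩ := mem_Caa.1 hx
  obtain ⟨b, h5, h6, y, h7, h8⟩ := h t (mem_sep.2 ⟨ht, a, h2, h3, x, h4, h1⟩)
  exact ⟨y, lz_mono (fun z hz => mem_sUnion.2 ⟨b, mem_sep.2 ⟨h5, h6⟩, hz⟩) h7, h8⟩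

theorem bdd {T : ZF} (hT : T ∈ N) (h : ∀ x ∈ T, x ∈ Caa N) :
    ∃ b ∈ N, IsOrdinal b ∧ T ⊆ LZ N b := by
  obtain ⟨b, h1, h2, h3⟩ := wit hL hT (fun t x => x = t) inferInstance
  refine ⟨b, h1, h2, fun t ht => ?_⟩
  obtain ⟨x, h4, rfl⟩ := h3 t ht ⟨t, h t ht, rfl⟩
  exact h4

theorem dfSat (φ : Fml) : Df N (fun v => Sat (Caa N) φ v) := by
  induction φ with
  | mem i j => exact Df.mem0 i j
  | eq i j => exact Df.eq0 i j
  | bot => exact Df.bot
  | imp φ ψ h1 h2 => exact @Df.imp N _ _ h1 h2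
  | all φ ih =>
    refine (Df.allM (P := fun v x => x ∈ Caa N → Sat (Caa N) φ (cons x v))
      ((@Df.imp N (fun v => v 0 ∈ Caa N) _ (dfC hL _) ih).congr fun v _ => ?_)).congr
      fun v _ => ⟨fun h x _ hx => h x hx, fun h x hx => h x (subN hL hx) hx⟩
    have : (cons (v 0) fun n => v (n + 1)) = v := by
      funext i; cases i <;> rfl
    rw [this]

theorem refl (φ : Fml) : ∀ a ∈ N, IsOrdinal a → ∃ (P : Env → Prop), ∃ b ∈ N, IsOrdinal b ∧
    (∀ Z : Set ZF, Trn Z → (∀ x ∈ LZ N b, x ∈ Z) → Df Z P) ∧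
    ∀ v, (∀ k, v k ∈ LZ N a) → (Sat (Caa N) φ v ↔ P v) := by
  induction φ with
  | mem i j => exact fun a h1 h2 => ⟨_, a, h1, h2, fun _ _ _ => Df.mem0 i j, fun _ _ => Iff.rfl⟩
  | eq i j => exact fun a h1 h2 => ⟨_, a, h1, h2, fun _ _ _ => Df.eq0 i j, fun _ _ => Iff.rfl⟩
  | bot => exact fun a h1 h2 => ⟨_, a, h1, h2, fun _ _ _ => Df.bot, fun _ _ => Iff.rfl⟩
  | imp φ ψ i1 i2 =>
    intro a h1 h2
    obtain ⟨P, b, h3, h4, h5, h6⟩ := i1 a h1 h2
    obtain ⟨Q, c, h7, h8, h9, h10⟩ := i2 a h1 h2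
    obtain ⟨d, h11, h12, h13, h14⟩ := two h3 h7 h4 h8
    exact ⟨fun v => P v → Q v, d, h11, h12, fun Z hZ h => @Df.imp Z _ _
      (h5 Z hZ fun x hx => h x (lz_mono h13 hx)) (h9 Z hZ fun x hx => h x (lz_mono h14 hx)),
      fun v hv => imp_congr (h6 v hv) (h10 v hv)⟩
  | all φ ih =>
    intro a h1 h2
    have hX := lz_mem hL h1
    have := In.mk' hX
    obtain ⟨b, h3, h4, h5⟩ := wit hL (In.mem (M := N) (pw N (prod om (LZ N a))))
      (fun f x => ¬ Sat (Caa N) φ (cons x fun k => app f (num k)))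
      (@Df.not _ _ ((df_subst (dfSat hL φ) (cns (fun v => v 1) fun k v => app (v 0) (num k))
        fun k => by cases k; exacts [Tm.var 1, tm_app]).congr fun v _ => by
          have : (cons (v 1) fun k => app (v 0) (num k)) = fun k =>
              cns (fun v : Env => v 1) (fun k v => app (v 0) (num k)) k v := by
            funext k; cases k <;> rfl
          rw [this]))
    obtain ⟨c, h6, h7, h8, h9⟩ := two h1 h3 h2 h4
    obtain ⟨P, d, h10, h11, h12, h13⟩ := ih c h6 h7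
    obtain ⟨e, h14, h15, h16, h17⟩ := two h10 (succ_mem h6) h11 (isOrdinal_succ h7)
    refine ⟨fun v => ∀ x ∈ LZ N c, P (cons x v), e, h14, h15, fun Z hZ h => ?_, fun v hv => ?_⟩
    · have h18 := h _ (lz_mono h17 (lz_self c))
      have := In.mk' h18
      have := h12 Z hZ fun x hx => h x (lz_mono h16 hx)
      refine (Df.allM (P := fun v x => x ∈ LZ N c → P (cons x v))
        ((inferInstance : Df Z (fun v => v 0 ∈ LZ N c → P v)).congr fun v _ => ?_)).congr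
        fun v _ => ⟨fun h x _ hx => h x hx, fun h x hx => h x (hZ _ h18 _ hx) hx⟩
      have : (cons (v 0) fun n => v (n + 1)) = v := by
        funext i; cases i <;> rfl
      rw [this]
    · have key : ∀ x ∈ LZ N c, (Sat (Caa N) φ (cons x v) ↔ P (cons x v)) := fun x hx =>
        h13 _ fun k => by
          cases k
          exacts [hx, lz_mono h8 (hv _)]
      refine ⟨fun h x hx => (key x hx).1 (h x (lz_sub h6 h7 hx)), fun h x hx => by_contra fun h' => ?_⟩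
      obtain ⟨f, hf, h18⟩ := code hX hv (LModP.bnd φ)
      have e : ∀ y, Sat (Caa N) φ (cons y fun k => app f (num k)) ↔ Sat (Caa N) φ (cons y v) :=
        fun y => LModP.sat_bnd _ _ _ _ fun k hk => by
          cases k
          exacts [rfl, (h18 _).2 (by omega)]
      obtain ⟨y, h19, h20⟩ := h5 f hf ⟨x, hx, (e x).not.2 h'⟩
      exact h20 ((e y).2 ((key y (lz_mono h9 h19)).2 (h y (lz_mono h9 h19))))

theorem sepF (φ : Fml) {v : Env} (hv : EIn (Caa N) v) {a : ZF} (ha : a ∈ Caa N) :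
    ZFSet.sep (fun x => Sat (Caa N) φ (cons x v)) a ∈ Caa N := by
  classical
  obtain ⟨T, hT, e⟩ := fin_set (M := N) (X := insert a (v '' Set.Iio (LModP.bnd φ)))
    (((Set.finite_Iio _).image v).insert a) (by
      rintro x (rfl | ⟨k, -, rfl⟩)
      exacts [subN hL ha, subN hL (hv k)])
  have e' : ∀ x, x ∈ T ↔ x ∈ insert a (v '' Set.Iio (LModP.bnd φ)) := fun x => by
    rw [← e]; rfl
  obtain ⟨b, h1, h2, h3⟩ := bdd hL hT (by
    intro x hx
    rcases (e' x).1 hx with rfl | ⟨k, -, rfl⟩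
    exacts [ha, hv k])
  have h4 : a ∈ LZ N b := h3 ((e' a).2 (Or.inl rfl))
  let w : Env := fun k => if k < LModP.bnd φ then v k else a
  have h5 : ∀ k, w k ∈ LZ N b := fun k => by
    simp only [w]
    split_ifs with h
    exacts [h3 ((e' _).2 (Or.inr ⟨k, h, rfl⟩)), h4]
  obtain ⟨P, c, h6, h7, h8, h9⟩ := refl hL φ b h1 h2
  obtain ⟨d, h10, h11, h12, h13⟩ := two h1 h6 h2 h7
  have := In.mk' (M := (LZ N d : Set ZF)) (lz_mono h12 h4)
  have h14 : Df (LZ N d : Set ZF) (fun u => P (cons (u 0) w)) :=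
    ((h8 _ (lz_trn d) fun x hx => lz_mono h13 hx).sub (cns (Sum.inl 0)
      fun k => Sum.inr ⟨w k, lz_mono h12 (h5 k)⟩)).congr fun u _ => by
        have : cons (u 0) w = fun n => Sum.elim u Subtype.val (cns (Sum.inl 0)
            (fun k => (Sum.inr ⟨w k, lz_mono h12 (h5 k)⟩ : ℕ ⊕ (LZ N d : Set ZF))) n) := by
          funext n; cases n <;> rfl
        rw [this]
  refine lz_sub (succ_mem h10) (isOrdinal_succ h11) (def_mem (fun x => x ∈ a ∧ P (cons x w))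
    inferInstance fun x => ?_)
  rw [mem_sep]
  have key : x ∈ a → (Sat (Caa N) φ (cons x v) ↔ P (cons x w)) := fun hx =>
    (LModP.sat_bnd _ _ _ _ fun k hk => by
      cases k
      exacts [rfl, (if_pos (by omega)).symm]).trans (h9 _ fun k => by
        cases k
        exacts [lz_trn b _ h4 _ hx, h5 _])
  exact ⟨fun h => ⟨lz_mono h12 (lz_trn b _ h4 _ h.1), h.1, (key h.1).1 h.2⟩,
    fun h => ⟨h.2.1, (key h.2.1).2 h.2.2⟩⟩

/-- a set of `N` that is a definable subclass of `C(aa)` -/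
theorem defC {y : ZF} (hy : y ∈ N) (h : ∀ x ∈ y, x ∈ Caa N) (φ : Fml) {v : Env}
    (hv : EIn (Caa N) v) (e : ∀ x ∈ Caa N, x ∈ y ↔ Sat (Caa N) φ (cons x v)) : y ∈ Caa N := by
  obtain ⟨b, h1, h2, h3⟩ := bdd hL hy h
  have := sepF hL φ hv (lz_sub (succ_mem h1) (isOrdinal_succ h2) (lz_self b))
  convert this using 1
  ext x
  rw [mem_sep]
  exact ⟨fun hx => ⟨h3 hx, (e x (h x hx)).1 hx⟩, fun hx => (e x (lz_sub h1 h2 hx.1)).2 hx.2⟩

theorem d0C {y a b : ZF} (hy : y ∈ N) (h : ∀ x ∈ y, x ∈ Caa N) (Q : ZF → ZF → ZF → Prop)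
    (hQ : D0 (fun v => Q (v 0) (v 1) (v 2))) (ha : a ∈ Caa N) (hb : b ∈ Caa N)
    (e : ∀ x ∈ Caa N, x ∈ y ↔ Q x a b) : y ∈ Caa N := by
  obtain ⟨φ, hφ⟩ := hQ
  have hv : EIn (Caa N) (cons a fun _ => b) := EIn.cons (fun _ => hb) ha
  exact defC hL hy h φ hv fun x hx => (e x hx).trans (hφ _ trnC _ (hv.cons hx))

theorem ordC (o : ZF) : o ∈ N → IsOrdinal o → o ∈ Caa N := by
  induction o using ZFSet.inductionOn with
  | h o ih =>
    intro h1 h2
    obtain ⟨b, h3, h4, h5⟩ := bdd hL h1 fun x hx => ih x hx (tr h1 hx) (h2.mem hx)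
    have h6 := lz_sub (succ_mem h3) (isOrdinal_succ h4) (lz_self b)
    have := In.mk' (lz_mem hL h3)
    have h7 : ZFSet.sep IsOrdinal (LZ N b) ∈ Caa N :=
      d0C hL (In.mem _) (fun x hx => lz_sub h3 h4 (mem_sep.1 hx).1)
        (fun x a _ => x ∈ a ∧ IsOrdinal x) inferInstance h6 h6 fun _ _ => mem_sep
    have h8 : IsOrdinal (ZFSet.sep IsOrdinal (LZ N b)) :=
      isOrdinal_iff_forall_mem_isOrdinal.2 ⟨fun x hx y hy => mem_sep.2
        ⟨lz_trn b _ (mem_sep.1 hx).1 _ hy, (mem_sep.1 hx).2.mem hy⟩, fun x hx => (mem_sep.1 hx).2⟩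
    rcases (h2.subset_iff_eq_or_mem h8).1 (fun x hx => mem_sep.2 ⟨h5 hx, h2.mem hx⟩) with h | h
    exacts [h ▸ h7, trnC _ h7 _ h]

end CZ

open CZ in
theorem caaZ' (hL : S_LZ) : S_CaaZ := by
  intro N hN
  refine ⟨⟨trnC, fun a ha b hb => ?_, fun a ha => ?_, ordC hL _ hN.infinity isOrdinal_omega,
    fun a ha => ?_, fun φ v hv a ha => ⟨_, sepF hL φ hv ha, fun _ => mem_sep⟩,
    fun φ v hv a ha H => ?_⟩, fun _ => subN hL, ordC hL⟩
  · exact d0C hL (hN.pairing a (subN hL ha) b (subN hL hb)) (fun x hx => by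
      rcases mem_pair.1 hx with rfl | rfl
      exacts [ha, hb]) (fun x a b => x = a ∨ x = b) inferInstance ha hb fun _ _ => mem_pair
  · exact d0C hL (hN.union a (subN hL ha)) (fun x hx => by
      obtain ⟨z, hz, hx⟩ := mem_sUnion.1 hx
      exact trnC _ (trnC _ ha _ hz) _ hx) (fun x a _ => ∃ z ∈ a, x ∈ z) inferInstance ha ha
      fun _ _ => mem_sUnion
  · have e : ∀ x ∈ Caa N, x ∈ ZFSet.sep (· ∈ Caa N) (pw N a) ↔ x ⊆ a := fun x hx => by
      simp [hx, subN hL hx]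
    exact ⟨_, d0C hL (sep_mem' (· ∈ Caa N) (dfC hL _) (pw_mem (subN hL ha)))
      (fun x hx => (mem_sep.1 hx).2) (fun x a _ => x ⊆ a) inferInstance ha ha e, e⟩
  · have := LModP.dfCons2 (dfSat (N := N) hL φ) (fun n => subN hL (hv n)) 0 1
    have := dfC (N := N) hL (fun v => v 0)
    obtain ⟨b, hb, e⟩ := repl' (M := N) (fun x y => y ∈ Caa N ∧ Sat (Caa N) φ (cons y (cons x v)))
      inferInstance (subN hL ha) fun x hx => by
        obtain ⟨y, h1, h2⟩ := H x hx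
        exact ⟨y, ⟨subN hL h1.1, h1⟩, fun z hz => h2 z hz.2⟩
    have e2 : ∀ y, y ∈ b ↔ y ∈ Caa N ∧ ∃ x ∈ a, Sat (Caa N) φ (cons y (cons x v)) := fun y => by
      rw [e]
      exact ⟨fun ⟨_, x, h1, h2, h3⟩ => ⟨h2, x, h1, h3⟩,
        fun ⟨h1, x, h2, h3⟩ => ⟨subN hL h1, x, h2, h1, h3⟩⟩
    refine ⟨b, defC hL hb (fun y hy => ((e2 y).1 hy).1) (Fml.imp (Fml.all (Fml.imp (Fml.mem 0 2)
      (Fml.imp (φ.ren (cns 1 (cns 0 fun k => k + 3))) Fml.bot))) Fml.bot)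
      (EIn.cons hv ha) fun y hy => ?_, e2⟩
    have key : ∀ x, Sat (Caa N) (φ.ren (cns 1 (cns 0 fun k => k + 3))) (cons x (cons y (cons a v))) ↔
        Sat (Caa N) φ (cons y (cons x v)) := fun x => by
      rw [sat_ren]
      have : (fun n => cons x (cons y (cons a v)) (cns 1 (cns 0 fun k => k + 3) n)) =
          cons y (cons x v) := by
        funext n
        rcases n with _ | _ | n <;> rfl
      rw [this]
    simp only [e2, sat_imp, sat_all, sat_bot, sat_mem, key, hy, true_and]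
    constructor
    · exact fun ⟨x, h1, h2⟩ h => h x (trnC _ ha _ h1) h1 h2
    · exact fun h => by_contra fun h' => h fun x _ h1 h2 => h' ⟨x, h1, h2⟩

end Pool.Agent.P.MP_0b3dfe_lc
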