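import Pool.Agent.P.MP_0b3dfe_lc.St2

/-! There are only countably many conditions below a countable ordinal. -/

set_option synthInstance.maxSize 100000

namespace Pool.Agent.P.MP_0b3dfe_lc

open ZFSet Pool.Agent.P.MP_3ab3de_lc ForceP

namespace CntP

variable {M : Set ZF} [hM : TModel M]

/-- finite subsets -/
noncomputable def fs (M : Set ZF) (X : ZF) : ZF := ZFSet.sep Fn (pw M X)

omit hM in
theorem mem_fs {X s : ZF} : s ∈ fs M X ↔ (s ⊆ X ∧ s ∈ M) ∧ Fn s := by simp [fs]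

instance tm_fs {a : Env → ZF} [Tm M a] : Tm M (fun v => fs M (a v)) := by
  unfold fs; infer_instance

theorem fn_num (n : ℕ) : Fn (num n) :=
  ((Set.finite_Iio n).image num).subset fun _ hy => mem_num.1 hy

theorem fin_subsets {a : ZF} (h : Fn a) : {s : ZF | s ⊆ a}.Finite :=
  Set.Finite.of_finite_image (f := fun s : ZF => (s : Set ZF))
    (h.finite_subsets.subset (by rintro _ ⟨s, hs, rfl⟩; exact hs))
    (SetLike.coe_injective.injOn)

theorem bdd_om {X : Set ZF} (hX : X.Finite) (h : ∀ x ∈ X, x ∈ om) :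
    ∃ n : ℕ, ∀ x ∈ X, x ∈ num n := by
  induction X, hX using Set.Finite.induction_on with
  | empty => exact ⟨0, fun _ h => absurd h (Set.notMem_empty _)⟩
  | @insert a X _ _ ih =>
    obtain ⟨n, hn⟩ := ih fun x hx => h x (Set.mem_insert_of_mem _ hx)
    obtain ⟨m, rfl⟩ := mem_omega.1 (h a (Set.mem_insert _ _))
    refine ⟨n + m + 1, ?_⟩
    rintro x (rfl | hx)
    · exact num_mem_num.2 (by omega)
    · obtain ⟨k, hk, rfl⟩ := mem_num.1 (hn x hx)
      exact num_mem_num.2 (by omega)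

theorem fs_om : Le M (fs M om) om := by
  refine layers (In.mem _) hM.infinity isOrdinal_omega (fun n => pw M n)
    inferInstance (fun y hy => ?_) fun ξ hξ g _ h1 h2 => ?_
  · obtain ⟨⟨h1, h2⟩, h3⟩ := mem_fs.1 hy
    obtain ⟨n, hn⟩ := bdd_om h3 fun x hx => h1 hx
    exact ⟨num n, num_mem_omega n, mem_pw.2 ⟨fun x hx => hn x hx, h2⟩⟩
  · obtain ⟨n, rfl⟩ := mem_omega.1 hξ
    refine Set.infinite_of_injective_forall_mem (f := fun k : ℕ => app g (num k))
      (s := {s : ZF | s ⊆ num n})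
      (fun k l e => num_inj.1 (h2 _ (num_mem_omega k) _ (num_mem_omega l) e)) (fun k => ?_)
      (fin_subsets (fn_num n))
    obtain ⟨x, hx, h3⟩ := mem_bun.1 (h1 _ (num_mem_omega k))
    obtain ⟨m, hm, rfl⟩ := (mem_num (n := n + 1)).1 hx
    intro y hy
    obtain ⟨j, hj, rfl⟩ := mem_num.1 ((mem_pw.1 h3).1 hy)
    exact num_mem_num.2 (by omega)

theorem fs_le {X : ZF} (h : Le M X om) : Le M (fs M X) om := by
  obtain ⟨f, hf, h⟩ := h
  have := In.mk' hf
  refine (Le.of_fun (b := fs M om) (fun s => img (app f) s) inferInstance (In.mem _)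
    fun y hy => ?_).trans fs_om hM.infinity
  obtain ⟨⟨h1, -⟩, h3⟩ := mem_fs.1 hy
  obtain ⟨t, ht, ht', e⟩ := Set.Finite.exists_subset_finite_image_eq (f := app f)
    (s := (om : Set ZF)) h3 fun x hx => h x (h1 hx)
  obtain ⟨s, hs, rfl⟩ := fin_set (M := M) ht' fun x hx => tr hM.infinity (ht hx)
  refine ⟨s, mem_fs.2 ⟨⟨ht, hs⟩, ht'⟩, ?_⟩
  ext z
  rw [mem_img, ← SetLike.mem_coe (p := y), ← e]
  exact Iff.rfl

end CntP

open CntP in
theorem cnt : S_Cnt := by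
  intro M hM κ S n h _ γ hγ
  have hγM : γ ∈ M := tr h.hart.mem hγ
  have ho := h.hart.ord.mem hγ
  have := In.mk' hγM
  have h1 : Le M γ om := h.hart.le γ hγ
  have h2 : Le M (prod om γ) om := inf_omega.prod (Le.refl hM.infinity) h1
  have h3 : Le M (At γ) om :=
    inf_omega.prod h2 (inf_omega.union hγM (In.mem _) h1 (inf_omega.prod h1 h1))
  have hA : At γ ∈ M := In.mem _
  have hP : prod om γ ∈ M := In.mem _
  refine (Le.of_fun (b := prod (fs M (prod om γ)) (prod (fs M (At γ)) (fs M (At γ))))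
    (fun w => (ZFSet.sep (fun z => InCol (fst w : Set ZF) z) (At γ) \ fst (snd w)) ∪ snd (snd w))
    inferInstance (In.mem _) fun p hp => ?_).trans
    (inf_omega.prod (fs_le h2) (inf_omega.prod (fs_le h3) (fs_le h3))) hM.infinity
  obtain ⟨hp, hpγ⟩ := mem_sep.1 hp
  obtain ⟨hpM, hc, -⟩ := mem_PP.1 hp
  obtain ⟨F, hF, hFκ, hE⟩ := hc.nc
  have h4 : ∀ x ∈ {x | x ∈ F ∧ snd x ∈ γ}, x ∈ prod om γ := fun x hx => by
    obtain ⟨a, ha, b, -, rfl⟩ := mem_prod.1 (hFκ x hx.1)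
    exact pair_mem_prod.2 ⟨ha, by simpa using hx.2⟩
  have h5 : {x | x ∈ F ∧ snd x ∈ γ}.Finite := hF.subset fun _ h => h.1
  obtain ⟨a, haM, ea⟩ := fin_set (M := M) h5 fun x hx => tr hP (h4 x hx)
  have h6 : {z | ¬ (z ∈ p ↔ InCol F z) ∧ z ∈ At γ}.Finite := hE.subset fun _ h => h.1
  obtain ⟨e, heM, ee⟩ := fin_set (M := M) h6 fun x hx => tr hA hx.2
  have he : ∀ z, z ∈ e ↔ ¬ (z ∈ p ↔ InCol F z) ∧ z ∈ At γ := fun z => by
    rw [← SetLike.mem_coe, ee]; exact Iff.rfl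
  have hef : Fn e := by rw [Fn, ee]; exact h6
  have := In.mk' heM
  have := In.mk' hpM
  refine ⟨pair a (pair e (e ∩ p)), pair_mem_prod.2 ⟨mem_fs.2 ⟨⟨fun x hx => h4 x (ea ▸ hx), haM⟩,
    by rw [Fn, ea]; exact h5⟩, pair_mem_prod.2 ⟨mem_fs.2 ⟨⟨fun x hx => ((he x).1 hx).2, heM⟩, hef⟩,
    mem_fs.2 ⟨⟨fun x hx => hpγ (mem_inter.1 hx).2, In.mem _⟩,
      hef.subset fun x hx => (mem_inter.1 hx).1⟩⟩⟩, ?_⟩
  ext z
  have h7 := @hpγ z
  simp only [fst_pair, snd_pair, mem_union, mem_sdiff, mem_sep, mem_inter, ea, he,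
    inCol_cut h.hart.ord ho hFκ]
  tauto

end Pool.Agent.P.MP_0b3dfe_lc
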