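import Pool.Agent.P.MP_0b3dfe_lc.St1

/-! The model `C(aa)` decides stationarity. -/

set_option synthInstance.maxSize 100000

namespace Pool.Agent.P.MP_0b3dfe_lc

open ZFSet Pool.Agent.P.MP_3ab3de_lc Pool.Agent.P.MP_9a7e1f_lc

namespace DecP

/-- first order formulas as formulas of stationary logic -/
noncomputable def emb (φ : Fml) : AFml :=
  Fml.rec (motive := fun _ => AFml) AFml.mem AFml.eq AFml.bot (fun _ _ p q => AFml.imp p q)
    (fun _ p => AFml.all p) φ

theorem sat_emb (N X : Set ZF) (φ : Fml) (w : Env) : ∀ v, SatA N X (emb φ) v w ↔ Sat X φ v := by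
  induction φ with
  | mem i j => exact fun _ => Iff.rfl
  | eq i j => exact fun _ => Iff.rfl
  | bot => exact fun _ => Iff.rfl
  | imp p q hp hq => exact fun v => imp_congr (hp v) (hq v)
  | all p hp => exact fun v => forall₂_congr fun x _ => hp (cons x v)

def nt (p : AFml) : AFml := .imp p .bot

def an (p q : AFml) : AFml := nt (.imp p (nt q))

def ff (p q : AFml) : AFml := an (.imp p q) (.imp q p)

variable {N X : Set ZF} {p q : AFml} {v w : Env}

theorem sat_nt : SatA N X (nt p) v w ↔ ¬ SatA N X p v w := Iff.rfl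

theorem sat_an : SatA N X (an p q) v w ↔ SatA N X p v w ∧ SatA N X q v w := by
  change ¬ (SatA N X p v w → ¬ SatA N X q v w) ↔ _
  tauto

theorem sat_ff : SatA N X (ff p q) v w ↔ (SatA N X p v w ↔ SatA N X q v w) :=
  sat_an.trans iff_def.symm

/-- the trace of the countable set on the last parameter is not in the section -/
noncomputable def mat (ψ : Fml) : AFml :=
  .all (.imp (emb ψ) (nt (.all (ff (.mem 0 1) (an (.smem 0 0) (.mem 0 5))))))

theorem sat_mat {ψ : Fml} (hX : Trn X)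
    (hψ : ∀ v, EIn X v → (pair (v 1) (v 0) ∈ v 3 ↔ Sat X ψ v)) (hv : EIn X v) :
    SatA N X (mat ψ) v w ↔ ¬ pair (v 0) (w 0 ∩ v 3) ∈ v 2 := by
  have key : SatA N X (mat ψ) v w ↔ ∀ d ∈ X, pair (v 0) d ∈ v 2 →
      ¬ ∀ x ∈ X, (x ∈ d ↔ x ∈ w 0 ∧ x ∈ v 3) := by
    refine forall₂_congr fun d hd => imp_congr
      ((sat_emb N X ψ w _).trans (hψ _ (hv.cons hd)).symm) (not_congr ?_)
    exact forall₂_congr fun x _ =>
      (sat_ff (N := N) (X := X) (p := .mem 0 1) (q := an (.smem 0 0) (.mem 0 5))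
        (v := cons x (cons d v)) (w := w)).trans (iff_congr Iff.rfl sat_an)
  rw [key]
  constructor
  · intro h h1
    exact h _ (hX.snd (hX _ (hv 2) _ h1)) h1 fun x _ => mem_inter
  · intro h d hd h1 h2
    refine h ?_
    have : w 0 ∩ v 3 = d := by
      ext x
      rw [mem_inter]
      exact ⟨fun h3 => (h2 x (hX _ (hv 3) _ h3.2)).2 h3, fun h3 => (h2 x (hX _ hd _ h3)).1 h3⟩
    rwa [this]

theorem max_mem {a b : Ordinal.{0}} (ha : a.toZFSet ∈ N) (hb : b.toZFSet ∈ N) :
    (max a b).toZFSet ∈ N := by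
  rcases max_choice a b with h | h <;> rwa [h]

end DecP

open DecP in
theorem dec' (h1 : S_LZ) (h2 : S_AA) (h3 : S_CaaZ) : S_Dec := by
  intro N _ κ hκ I hI S hS
  obtain ⟨a, ha, hIa⟩ := hI
  obtain ⟨b, hb, hSb⟩ := hS
  obtain ⟨c, hc, hκc⟩ := (h3 N).2.2 κ hκ.mem hκ.ord
  have ho := max_mem ha (max_mem hb hc)
  have hI := LA_mono (le_max_left a (max b c)) hIa
  have hS := LA_mono ((le_max_left b c).trans (le_max_right a _)) hSb
  have hk := LA_mono ((le_max_right b c).trans (le_max_right a _)) hκc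
  generalize max a (max b c) = o at ho hI hS hk
  have hX : Trn (LA N o) := fun _ hx _ hy => LA_trans hx hy
  have hZ : LZ N o.toZFSet ∈ N := h1.mem N (Ov.empty N) (fun _ => o.toZFSet) fun _ => ho
  have hco : (LZ N o.toZFSet : Set ZF) = LA N o := by rw [coe_LZ, Ordinal.rank_toZFSet]
  obtain ⟨ψ, hψ⟩ := (inferInstance : D0 (fun v => pair (v 1) (v 0) ∈ v 3)).out
  refine ⟨o + 1, ?_, ?_⟩
  · rw [Ordinal.toZFSet_add_one]
    have := In.mk' ho
    exact In.mem _
  rw [LA_succ]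
  have hv : EIn (LA N o) (cons I (cons S fun _ => κ)) :=
    EIn.cons (EIn.cons (fun _ => hk) hS) hI
  refine Or.inr ⟨an (.mem 0 1) (.aa (mat ψ)), _, hv, fun x => ?_⟩
  rw [mem_sep, sat_an]
  have key : x ∈ LA N o → (SatA N (LA N o) (.aa (mat ψ)) (cons x (cons I (cons S fun _ => κ)))
      (fun _ => ∅) ↔ ¬ Stat N κ (fun ξ => pair x ξ ∈ S)) := by
    intro hx
    rw [← h2 N κ hκ _ hZ (fun y hy => by
      rw [mem_LZ, Ordinal.rank_toZFSet]
      exact hX _ hk _ hy), hco]
    exact exists_congr fun K => and_congr_right' (and_congr_right' (forall₂_congr fun s _ =>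
      sat_mat hX (hψ _ hX) (hv.cons hx)))
  constructor
  · rintro ⟨h4, h5⟩
    have hx := hX _ hI _ h4
    exact ⟨hx, h4, (key hx).2 h5⟩
  · rintro ⟨hx, h4, h5⟩
    exact ⟨h4, (key hx).1 h5⟩

end Pool.Agent.P.MP_0b3dfe_lc
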