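import Pool.Agent.P.MP_0b3dfe_lc.St1

/-! Internal satisfaction for stationary logic. -/

set_option linter.unusedSectionVars false
set_option synthInstance.maxSize 100000

namespace Pool.Agent.P.MP_0b3dfe_lc

open ZFSet Pool.Agent.P.MP_3ab3de_lc

namespace DefP

/-- assignments in `N` with values in `X` -/
noncomputable def FF (N : Set ZF) (X : ZF) : ZF :=
  ZFSet.sep (fun f => IsFunc om X f) (pw N (prod om X))

/-- pairs of assignments -/
noncomputable def EE (N : Set ZF) (X : ZF) : ZF := prod (FF N X) (FF N (pw N X))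

open Classical in
/-- a new first value -/
noncomputable def cn (x f : ZF) : ZF :=
  graph (fun n => if n = ∅ then x else app f (ZFSet.sUnion n)) om

/-- the external assignment -/
noncomputable def ev (f : ZF) : Env := fun k => app f (num k)

/-- truth sets -/
noncomputable def TT (N : Set ZF) (X : ZF) (φ : AFml) : ZF :=
  ZFSet.sep (fun e => SatA N (X : Set ZF) φ (ev (fst e)) (ev (snd e))) (EE N X)

noncomputable def oMem (N : Set ZF) (X p : ZF) : ZF :=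
  ZFSet.sep (fun e => app (fst e) (fst p) ∈ app (fst e) (snd p)) (EE N X)

noncomputable def oEq (N : Set ZF) (X p : ZF) : ZF :=
  ZFSet.sep (fun e => app (fst e) (fst p) = app (fst e) (snd p)) (EE N X)

noncomputable def oSm (N : Set ZF) (X p : ZF) : ZF :=
  ZFSet.sep (fun e => app (fst e) (fst p) ∈ app (snd e) (snd p)) (EE N X)

noncomputable def oImp (N : Set ZF) (X p : ZF) : ZF :=
  ZFSet.sep (fun e => e ∈ fst p → e ∈ snd p) (EE N X)

noncomputable def oAll (N : Set ZF) (X s : ZF) : ZF :=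
  ZFSet.sep (fun e => ∀ x ∈ X, pair (cn x (fst e)) (snd e) ∈ s) (EE N X)

noncomputable def oAa (N : Set ZF) (X s : ZF) : ZF :=
  ZFSet.sep (fun e => ∃ K ∈ N, Club N (X : Set ZF) K ∧ ∀ u ∈ K, pair (fst e) (cn u (snd e)) ∈ s)
    (EE N X)

/-- one step of the closure -/
noncomputable def Step (N : Set ZF) (X a : ZF) : ZF :=
  insert ∅ (img (oMem N X) (prod om om) ∪ img (oEq N X) (prod om om) ∪
    img (oSm N X) (prod om om) ∪ img (oImp N X) (prod a a) ∪ img (oAll N X) a ∪ img (oAa N X) a)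

/-- the stages -/
noncomputable def Stg (N : Set ZF) (X : ZF) : ZF → ZF := rc fun _ g => Step N X (bun snd g)

/-- all truth sets -/
noncomputable def Fam (N : Set ZF) (X : ZF) : ZF := bun (Stg N X) om

section inst

variable {A : Set ZF} {a b : Set ZF → Env → ZF} [ha : UT A a] [hb : UT A b]

instance ut_FF : UT A (fun N v => FF N (a N v)) := by unfold FF; infer_instance

instance ut_EE : UT A (fun N v => EE N (a N v)) := by unfold EE; infer_instance

instance ut_cn : UT A (fun N v => cn (a N v) (b N v)) :=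
  UT.two (G := fun _ => cn) (by unfold cn; infer_instance) a b

instance ut_oMem : UT A (fun N v => oMem N (a N v) (b N v)) :=
  UT.two (G := oMem) (by unfold oMem; infer_instance) a b

instance ut_oEq : UT A (fun N v => oEq N (a N v) (b N v)) :=
  UT.two (G := oEq) (by unfold oEq; infer_instance) a b

instance ut_oSm : UT A (fun N v => oSm N (a N v) (b N v)) :=
  UT.two (G := oSm) (by unfold oSm; infer_instance) a b

instance ut_oImp : UT A (fun N v => oImp N (a N v) (b N v)) :=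
  UT.two (G := oImp) (by unfold oImp; infer_instance) a b

instance ut_oAll : UT A (fun N v => oAll N (a N v) (b N v)) :=
  UT.two (G := oAll) (by unfold oAll; infer_instance) a b

instance ut_oAa : UT A (fun N v => oAa N (a N v) (b N v)) :=
  UT.two (G := oAa) (by unfold oAa; infer_instance) a b

instance ut_Step : UT A (fun N v => Step N (a N v) (b N v)) :=
  UT.two (G := Step) (by unfold Step; infer_instance) a b

instance ut_Stg : UT A (fun N v => Stg N (a N v) (b N v)) :=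
  UT.two (G := Stg) (ut_rc (Φ := fun N v _ g => Step N (v 0) (bun snd g)) inferInstance _) a b

instance ut_Fam : UT A (fun N v => Fam N (a N v)) :=
  UT.one (G := Fam) (by unfold Fam; infer_instance) a

end inst

variable {N : Set ZF} {X : ZF}

theorem mem_FF {f : ZF} : f ∈ FF N X ↔ f ∈ N ∧ IsFunc om X f := by
  rw [FF, mem_sep, mem_pw]
  exact ⟨fun h => ⟨h.1.2, h.2⟩, fun h => ⟨⟨h.2.1, h.1⟩, h.2⟩⟩

theorem mem_EE {e : ZF} : e ∈ EE N X ↔ ∃ f ∈ FF N X, ∃ g ∈ FF N (pw N X), e = pair f g := mem_prod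

theorem sUnion_succ (k : ℕ) : ZFSet.sUnion (num (k + 1)) = num k := by
  ext x
  simp only [mem_sUnion, mem_num]
  constructor
  · rintro ⟨_, ⟨m, hm, rfl⟩, h⟩
    obtain ⟨j, hj, rfl⟩ := mem_num.1 h
    exact ⟨j, by omega, rfl⟩
  · rintro ⟨m, hm, rfl⟩
    exact ⟨_, ⟨k, by omega, rfl⟩, num_mem_num.2 hm⟩

theorem ev_cn (x f : ZF) : ev (cn x f) = cons x (ev f) := by
  funext k
  rw [ev, cn, app_graph (num_mem_omega k)]
  cases k with
  | zero => exact if_pos rfl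
  | succ k =>
    rw [if_neg (fun e : num (k + 1) = ∅ => absurd (num_inj (n := 0).1 e) (by omega)), sUnion_succ]
    rfl

theorem ev_mem {f : ZF} (h : f ∈ FF N X) (k : ℕ) : ev f k ∈ X :=
  (mem_FF.1 h).2.app_mem' (num_mem_omega k)

theorem ev_const (c : ZF) : ev (graph (fun _ => c) om) = fun _ => c :=
  funext fun k => app_graph (num_mem_omega k)

theorem bnd (φ : AFml) : ∃ n, ∀ v v' w : Env, (∀ k < n, v k = v' k) →
    (SatA N (X : Set ZF) φ v w ↔ SatA N (X : Set ZF) φ v' w) := by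
  induction φ with
  | mem i j => exact ⟨i + j + 1, fun v v' w h => by
      show v i ∈ v j ↔ v' i ∈ v' j
      rw [h i (by omega), h j (by omega)]⟩
  | eq i j => exact ⟨i + j + 1, fun v v' w h => by
      show v i = v j ↔ v' i = v' j
      rw [h i (by omega), h j (by omega)]⟩
  | smem i j => exact ⟨i + 1, fun v v' w h => by
      show v i ∈ w j ↔ v' i ∈ w j
      rw [h i (by omega)]⟩
  | bot => exact ⟨0, fun _ _ _ _ => Iff.rfl⟩
  | imp φ ψ h1 h2 =>
    obtain ⟨m, h1⟩ := h1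
    obtain ⟨n, h2⟩ := h2
    exact ⟨m + n, fun v v' w h => imp_congr (h1 v v' w fun k hk => h k (by omega))
      (h2 v v' w fun k hk => h k (by omega))⟩
  | all φ ih =>
    obtain ⟨n, ih⟩ := ih
    refine ⟨n, fun v v' w h => forall₂_congr fun x _ => ih _ _ w fun k hk => ?_⟩
    cases k with
    | zero => rfl
    | succ k => exact h k (by omega)
  | aa φ ih =>
    obtain ⟨n, ih⟩ := ih
    exact ⟨n, fun v v' w h => exists_congr fun K => and_congr_right fun _ => and_congr_right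
      fun _ => forall₂_congr fun s _ => ih v v' _ h⟩

theorem mem_Step {a t : ZF} : t ∈ Step N X a ↔ t = ∅ ∨
    (∃ i j, t = oMem N X (pair (num i) (num j)) ∨ t = oEq N X (pair (num i) (num j)) ∨
      t = oSm N X (pair (num i) (num j))) ∨
    ∃ s ∈ a, (∃ s' ∈ a, t = oImp N X (pair s s')) ∨ t = oAll N X s ∨ t = oAa N X s := by
  have k : ∀ p, p ∈ prod om om ↔ ∃ i j, p = pair (num i) (num j) := fun p => by
    rw [mem_prod]
    constructor
    · rintro ⟨x, hx, y, hy, rfl⟩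
      obtain ⟨i, rfl⟩ := mem_omega.1 hx
      obtain ⟨j, rfl⟩ := mem_omega.1 hy
      exact ⟨i, j, rfl⟩
    · rintro ⟨i, j, rfl⟩
      exact ⟨_, num_mem_omega i, _, num_mem_omega j, rfl⟩
  simp only [Step, mem_insert_iff, mem_union, mem_img, k]
  refine or_congr_right ⟨?_, ?_⟩
  · rintro (((((⟨_, ⟨i, j, rfl⟩, rfl⟩ | ⟨_, ⟨i, j, rfl⟩, rfl⟩) | ⟨_, ⟨i, j, rfl⟩, rfl⟩) |
      ⟨p, hp, rfl⟩) | ⟨s, hs, rfl⟩) | ⟨s, hs, rfl⟩)
    · exact Or.inl ⟨i, j, Or.inl rfl⟩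
    · exact Or.inl ⟨i, j, Or.inr (Or.inl rfl)⟩
    · exact Or.inl ⟨i, j, Or.inr (Or.inr rfl)⟩
    · obtain ⟨s, hs, s', hs', rfl⟩ := mem_prod.1 hp
      exact Or.inr ⟨s, hs, Or.inl ⟨s', hs', rfl⟩⟩
    · exact Or.inr ⟨s, hs, Or.inr (Or.inl rfl)⟩
    · exact Or.inr ⟨s, hs, Or.inr (Or.inr rfl)⟩
  · rintro (⟨i, j, rfl | rfl | rfl⟩ | ⟨s, hs, ⟨s', hs', rfl⟩ | rfl | rfl⟩)
    · exact Or.inl (Or.inl (Or.inl (Or.inl (Or.inl ⟨_, ⟨i, j, rfl⟩, rfl⟩))))
    · exact Or.inl (Or.inl (Or.inl (Or.inl (Or.inr ⟨_, ⟨i, j, rfl⟩, rfl⟩))))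
    · exact Or.inl (Or.inl (Or.inl (Or.inr ⟨_, ⟨i, j, rfl⟩, rfl⟩)))
    · exact Or.inl (Or.inl (Or.inr ⟨_, pair_mem_prod.2 ⟨hs, hs'⟩, rfl⟩))
    · exact Or.inl (Or.inr ⟨_, hs, rfl⟩)
    · exact Or.inr ⟨_, hs, rfl⟩

theorem Stg_eq (n : ℕ) : ∃ a, Stg N X (num n) = Step N X a ∧
    ∀ s, s ∈ a ↔ ∃ m < n, s ∈ Stg N X (num m) := by
  refine ⟨_, rc_eq _ _, fun s => ?_⟩
  simp only [mem_bun, mem_graph]
  constructor
  · rintro ⟨_, ⟨_, hm, rfl⟩, h⟩
    obtain ⟨m, hm', rfl⟩ := mem_num.1 hm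
    rw [snd_pair] at h
    exact ⟨m, hm', h⟩
  · rintro ⟨m, hm, h⟩
    exact ⟨_, ⟨_, num_mem_num.2 hm, rfl⟩, by rw [snd_pair]; exact h⟩

theorem sep_congr {P Q : ZF → Prop} {a : ZF} (h : ∀ x ∈ a, P x ↔ Q x) :
    ZFSet.sep P a = ZFSet.sep Q a :=
  ZFSet.ext fun x => by rw [mem_sep, mem_sep]; exact and_congr_right (h x)

theorem TT_bot : TT N X .bot = ∅ :=
  ZFSet.ext fun x => iff_of_false (fun h => (mem_sep.1 h).2) (notMem_empty x)

theorem TT_mem (i j : ℕ) : TT N X (.mem i j) = oMem N X (pair (num i) (num j)) :=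
  sep_congr fun e _ => by rw [fst_pair, snd_pair]; rfl

theorem TT_eq (i j : ℕ) : TT N X (.eq i j) = oEq N X (pair (num i) (num j)) :=
  sep_congr fun e _ => by rw [fst_pair, snd_pair]; rfl

theorem TT_smem (i j : ℕ) : TT N X (.smem i j) = oSm N X (pair (num i) (num j)) :=
  sep_congr fun e _ => by rw [fst_pair, snd_pair]; rfl

theorem TT_imp (φ ψ : AFml) : TT N X (.imp φ ψ) = oImp N X (pair (TT N X φ) (TT N X ψ)) :=
  sep_congr fun e he => by
    rw [fst_pair, snd_pair, TT, TT, mem_sep, mem_sep, and_iff_right he, and_iff_right he]; rfl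

theorem pair_mem_TT {φ : AFml} {f g : ZF} (hf : f ∈ FF N X) (hg : g ∈ FF N (pw N X)) :
    pair f g ∈ TT N X φ ↔ SatA N (X : Set ZF) φ (ev f) (ev g) := by
  rw [TT, mem_sep, fst_pair, snd_pair]
  exact and_iff_right (pair_mem_prod.2 ⟨hf, hg⟩)

variable [hN : ZModel N]

theorem cn_mem (hX : X ∈ N) {x f : ZF} (hx : x ∈ X) (hf : f ∈ FF N X) : cn x f ∈ FF N X := by
  have := UI.mk' (ztr hX hx)
  have := UI.mk' (mem_FF.1 hf).1
  refine mem_FF.2 ⟨UI.mem _, graph_isFunc fun n hn => ?_⟩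
  obtain ⟨k, rfl⟩ := mem_omega.1 hn
  split_ifs with e
  · exact hx
  · cases k with
    | zero => exact absurd rfl e
    | succ k => rw [sUnion_succ]; exact ev_mem hf k

theorem const_mem (hX : X ∈ N) {x : ZF} (hx : x ∈ X) : graph (fun _ => x) om ∈ FF N X := by
  have := UI.mk' (ztr hX hx)
  exact mem_FF.2 ⟨UI.mem _, graph_isFunc fun _ _ => hx⟩

theorem TT_all (hX : X ∈ N) (φ : AFml) : TT N X (.all φ) = oAll N X (TT N X φ) :=
  sep_congr fun e he => by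
    obtain ⟨f, hf, g, hg, rfl⟩ := mem_EE.1 he
    rw [fst_pair, snd_pair]
    exact forall₂_congr fun x hx => by rw [pair_mem_TT (cn_mem hX hx hf) hg, ev_cn]; rfl

theorem TT_aa (hX : X ∈ N) (φ : AFml) : TT N X (.aa φ) = oAa N X (TT N X φ) :=
  sep_congr fun e he => by
    obtain ⟨f, hf, g, hg, rfl⟩ := mem_EE.1 he
    rw [fst_pair, snd_pair]
    refine exists_congr fun K => and_congr_right fun _ => and_congr_right fun hK =>
      forall₂_congr fun u hu => ?_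
    rw [pair_mem_TT hf (cn_mem (zpw hX) (mem_pw.2 ⟨(hK.1 u hu).2, (hK.1 u hu).1.1⟩) hg), ev_cn]
    rfl

theorem mem_Fam (hX : X ∈ N) {t : ZF} : t ∈ Fam N X ↔ ∃ φ, t = TT N X φ := by
  constructor
  · intro h0
    obtain ⟨_, hn, h⟩ := mem_bun.1 h0
    obtain ⟨n, rfl⟩ := mem_omega.1 hn
    clear hn h0
    induction n using Nat.strong_induction_on generalizing t with
    | _ n ih =>
      obtain ⟨a, e, ha⟩ := Stg_eq (N := N) (X := X) n
      have k : ∀ s ∈ a, ∃ φ, s = TT N X φ := fun s hs => by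
        obtain ⟨m, hm, hs⟩ := (ha s).1 hs
        exact ih m hm hs
      rcases mem_Step.1 (e ▸ h) with rfl | ⟨i, j, rfl | rfl | rfl⟩ | ⟨s, hs, h⟩
      · exact ⟨_, TT_bot.symm⟩
      · exact ⟨_, (TT_mem i j).symm⟩
      · exact ⟨_, (TT_eq i j).symm⟩
      · exact ⟨_, (TT_smem i j).symm⟩
      · obtain ⟨φ, rfl⟩ := k s hs
        rcases h with ⟨s', hs', rfl⟩ | rfl | rfl
        · obtain ⟨ψ, rfl⟩ := k s' hs'
          exact ⟨_, (TT_imp φ ψ).symm⟩
        · exact ⟨_, (TT_all hX φ).symm⟩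
        · exact ⟨_, (TT_aa hX φ).symm⟩
  · rintro ⟨φ, rfl⟩
    suffices ∃ n, TT N X φ ∈ Stg N X (num n) from
      this.elim fun n h => mem_bun.2 ⟨_, num_mem_omega n, h⟩
    have k : ∀ m n : ℕ, ∃ a, (∀ t ∈ Step N X a, ∃ k, t ∈ Stg N X (num k)) ∧
        (∀ s ∈ Stg N X (num m), s ∈ a) ∧ ∀ s ∈ Stg N X (num n), s ∈ a := fun m n => by
      obtain ⟨a, e, ha⟩ := Stg_eq (N := N) (X := X) (m + n + 1)
      exact ⟨a, fun t ht => ⟨_, e ▸ ht⟩, fun s hs => (ha s).2 ⟨m, by omega, hs⟩,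
        fun s hs => (ha s).2 ⟨n, by omega, hs⟩⟩
    obtain ⟨a0, k0, -⟩ := k 0 0
    induction φ with
    | mem i j => exact k0 _ (mem_Step.2 (Or.inr (Or.inl ⟨i, j, Or.inl (TT_mem i j)⟩)))
    | eq i j => exact k0 _ (mem_Step.2 (Or.inr (Or.inl ⟨i, j, Or.inr (Or.inl (TT_eq i j))⟩)))
    | smem i j => exact k0 _ (mem_Step.2 (Or.inr (Or.inl ⟨i, j, Or.inr (Or.inr (TT_smem i j))⟩)))
    | bot => exact k0 _ (mem_Step.2 (Or.inl TT_bot))
    | imp φ ψ h1 h2 =>
      obtain ⟨m, h1⟩ := h1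
      obtain ⟨n, h2⟩ := h2
      obtain ⟨a, k1, k2, k3⟩ := k m n
      exact k1 _ (mem_Step.2 (Or.inr (Or.inr ⟨_, k2 _ h1, Or.inl ⟨_, k3 _ h2, TT_imp φ ψ⟩⟩)))
    | all φ ih =>
      obtain ⟨m, h1⟩ := ih
      obtain ⟨a, k1, k2, -⟩ := k m m
      exact k1 _ (mem_Step.2 (Or.inr (Or.inr ⟨_, k2 _ h1, Or.inr (Or.inl (TT_all hX φ))⟩)))
    | aa φ ih =>
      obtain ⟨m, h1⟩ := ih
      obtain ⟨a, k1, k2, -⟩ := k m m
      exact k1 _ (mem_Step.2 (Or.inr (Or.inr ⟨_, k2 _ h1, Or.inr (Or.inr (TT_aa hX φ))⟩)))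

theorem exists_ev (hX : X ∈ N) (n : ℕ) :
    ∀ v : Env, (∀ k, v k ∈ X) → ∃ f ∈ FF N X, ∀ k < n, v k = ev f k := by
  induction n with
  | zero => exact fun v hv => ⟨_, const_mem hX (hv 0), fun _ h => absurd h (by omega)⟩
  | succ n ih =>
    intro v hv
    obtain ⟨f, hf, e⟩ := ih (fun k => v (k + 1)) fun k => hv _
    refine ⟨_, cn_mem hX (hv 0) hf, fun k hk => ?_⟩
    rw [ev_cn]
    cases k with
    | zero => rfl
    | succ k => exact e k (by omega)

theorem mem_DefA (hX : X ∈ N) {y : ZF} : y ∈ DefA N (X : Set ZF) ↔ y = ∅ ∨ ∃ t ∈ Fam N X,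
    ∃ f ∈ FF N X, ∀ x, x ∈ y ↔ x ∈ X ∧ pair (cn x f) (graph (fun _ => ∅) om) ∈ t := by
  have h0 : graph (fun _ => ∅) om ∈ FF N (pw N X) :=
    const_mem (zpw hX) (mem_pw.2 ⟨empty_subset _, (Ov.self N).empty_mem⟩)
  have k : ∀ φ, ∀ f ∈ FF N X, ∀ x ∈ X, (pair (cn x f) (graph (fun _ => ∅) om) ∈ TT N X φ ↔
      SatA N (X : Set ZF) φ (cons x (ev f)) fun _ => ∅) := fun φ f hf x hx => by
    rw [pair_mem_TT (cn_mem hX hx hf) h0, ev_cn, ev_const]
  refine or_congr_right ⟨?_, ?_⟩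
  · rintro ⟨φ, v, hv, h⟩
    obtain ⟨n, hn⟩ := bnd (N := N) (X := X) φ
    obtain ⟨f, hf, e⟩ := exists_ev hX n v hv
    refine ⟨_, (mem_Fam hX).2 ⟨φ, rfl⟩, f, hf, fun x => (h x).trans (and_congr_right fun hx =>
      (hn _ _ _ fun j hj => ?_).trans (k φ f hf x hx).symm)⟩
    cases j with
    | zero => rfl
    | succ j => exact e j (by omega)
  · rintro ⟨t, ht, f, hf, h⟩
    obtain ⟨φ, rfl⟩ := (mem_Fam hX).1 ht
    exact ⟨φ, ev f, ev_mem hf, fun x => (h x).trans (and_congr_right fun hx => k φ f hf x hx)⟩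

end DefP

open DefP in
theorem defA (_h : S_SatA) : S_DefA :=
  (inferInstance : UD ∅ (fun N v => v 0 = ∅ ∨ ∃ t ∈ Fam N (v 1), ∃ f ∈ FF N (v 1),
    ∀ x, x ∈ v 0 ↔ x ∈ v 1 ∧ pair (cn x f) (graph (fun _ => ∅) om) ∈ t)).congr
    fun _ o _ hv => @mem_DefA _ _ o.z (hv 1) _

end Pool.Agent.P.MP_0b3dfe_lc
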