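import Pool.Agent.P.MP_3ab3de_lc.Defs

/-! Stationary logic, the model `C(aa)` computed in a transitive model `N`, and its iterates. -/

namespace Pool.Agent.P.MP_0b3dfe_lc

open ZFSet Pool.Agent.P.MP_3ab3de_lc

/-- `N` is a transitive model of ZF (the axioms of `TModel` without choice). -/
class ZModel (N : Set ZFSet.{0}) : Prop where
  trans : ∀ x ∈ N, ∀ y ∈ x, y ∈ N
  pairing : ∀ a ∈ N, ∀ b ∈ N, ({a, b} : ZFSet.{0}) ∈ N
  union : ∀ a ∈ N, ZFSet.sUnion a ∈ N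
  infinity : ZFSet.omega ∈ N
  power : ∀ a ∈ N, ∃ c ∈ N, ∀ x ∈ N, x ∈ c ↔ x ⊆ a
  separation : ∀ (φ : Fml) (v : ℕ → ZFSet.{0}), (∀ n, v n ∈ N) → ∀ a ∈ N,
    ∃ b ∈ N, ∀ x, x ∈ b ↔ x ∈ a ∧ Sat N φ (cons x v)
  replacement : ∀ (φ : Fml) (v : ℕ → ZFSet.{0}), (∀ n, v n ∈ N) → ∀ a ∈ N,
    (∀ x ∈ a, ∃! y, y ∈ N ∧ Sat N φ (cons y (cons x v))) →
    ∃ b ∈ N, ∀ y, y ∈ b ↔ y ∈ N ∧ ∃ x ∈ a, Sat N φ (cons y (cons x v))

/-- The axiom of choice holds in `N`: every set of `N` has a choice function in `N`. -/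
def Choice (N : Set ZFSet.{0}) : Prop :=
  ∀ a ∈ N, ∃ f ∈ N, ∀ x ∈ a, (∃ y, y ∈ x) → ∃ y ∈ x, pair x y ∈ f ∧ ∀ z, pair x z ∈ f → z = y

/-- Formulas of stationary logic, with de Bruijn variables for elements and for countable
subsets of the domain; `smem i k` says that the element `i` lies in the countable set `k`. -/
inductive AFml : Type
  | mem : ℕ → ℕ → AFml
  | eq : ℕ → ℕ → AFml
  | smem : ℕ → ℕ → AFml
  | bot : AFml
  | imp : AFml → AFml → AFml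
  | all : AFml → AFml
  | aa : AFml → AFml

variable (N : Set ZFSet.{0})

/-- `s` is a countable set of `N`. -/
def Ctb (s : ZFSet.{0}) : Prop := s ∈ N ∧ CardLE N s ZFSet.omega

/-- In `N`, `K` is a club of countable subsets of `X`: cofinal, and closed under unions of
countable chains. -/
def Club (X : Set ZFSet.{0}) (K : ZFSet.{0}) : Prop :=
  (∀ s ∈ K, Ctb N s ∧ ∀ x ∈ s, x ∈ X) ∧ (∀ t, Ctb N t → (∀ x ∈ t, x ∈ X) → ∃ s ∈ K, t ⊆ s) ∧
    ∀ Y, Ctb N Y → Y ⊆ K → (∃ s, s ∈ Y) → (∀ s ∈ Y, ∀ t ∈ Y, s ⊆ t ∨ t ⊆ s) → ZFSet.sUnion Y ∈ K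

/-- Satisfaction of stationary logic in `(X, ∈)`, with countable sets and clubs taken from `N`;
`v` assigns the element variables and `w` the set variables. -/
def SatA (X : Set ZFSet.{0}) (φ : AFml) : (ℕ → ZFSet.{0}) → (ℕ → ZFSet.{0}) → Prop :=
  AFml.rec (motive := fun _ => (ℕ → ZFSet.{0}) → (ℕ → ZFSet.{0}) → Prop)
    (fun i j v _ => v i ∈ v j) (fun i j v _ => v i = v j) (fun i k v w => v i ∈ w k)
    (fun _ _ => False) (fun _ _ p q v w => p v w → q v w)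
    (fun _ p v w => ∀ x ∈ X, p (cons x v) w)
    (fun _ p v w => ∃ K ∈ N, Club N X K ∧ ∀ s ∈ K, p v (cons s w)) φ

/-- The subsets of `X` definable over `(X, ∈)` in stationary logic with parameters from `X`
(free set variables are read as the empty set; the empty set is listed for the case `X = ∅`). -/
def DefA (X : Set ZFSet.{0}) : Set ZFSet.{0} :=
  {y | y = ∅ ∨ ∃ (φ : AFml) (v : ℕ → ZFSet.{0}), (∀ n, v n ∈ X) ∧
    ∀ x, x ∈ y ↔ x ∈ X ∧ SatA N X φ (cons x v) (fun _ => ∅)}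

/-- The hierarchy `L'_α` computed in `N`. -/
noncomputable def LA (o : Ordinal.{0}) : Set ZFSet.{0} :=
  Ordinal.limitRecOn o ∅ (fun _ X => DefA N X) (fun _ _ f => {x | ∃ a h, x ∈ f a h})

/-- `C(aa)` computed in `N`. -/
def Caa : Set ZFSet.{0} := {x | ∃ o : Ordinal.{0}, o.toZFSet ∈ N ∧ x ∈ LA N o}

/-- The finite stages of the iterated `C(aa)` sequence of `N`. -/
def It (n : ℕ) : Set ZFSet.{0} := Nat.rec N (fun _ X => Caa X) n

end Pool.Agent.P.MP_0b3dfe_lc
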