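import Pool.Agent.P.MP_0b3dfe_lc.St2

/-! Swap automorphisms and homogeneity of the first level of the forcing notion. -/

set_option linter.unusedSectionVars false
set_option synthInstance.maxSize 100000

namespace Pool.Agent.P.MP_0b3dfe_lc

open ZFSet Pool.Agent.P.MP_3ab3de_lc ForceP

namespace HomPAux

open Classical in
/-- the transposition of `a` and `b` -/
noncomputable def sw (a b r : ZF) : ZF := if r = a then b else if r = b then a else r

/-- the rows `a` and `b` are exchanged -/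
noncomputable def ex (a b p : ZF) : ZF := img (fun z => pair (sw a b (fst z)) (snd z)) p

instance tm_ex {M : Set ZF} [TModel M] {a b c : Env → ZF} [Tm M a] [Tm M b] [Tm M c] :
    Tm M (fun v => ex (a v) (b v) (c v)) := by unfold ex sw; infer_instance

variable {a b r p q γ x z ξ κ S n m i j G : ZF}

theorem sw_sw (a b r : ZF) : sw a b (sw a b r) = r := by
  unfold sw
  by_cases h : r = a <;> by_cases h' : r = b <;> by_cases h'' : b = a <;> simp_all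

theorem sw_of_ne (h : r ≠ a) (h' : r ≠ b) : sw a b r = r := by rw [sw, if_neg h, if_neg h']

theorem sw_left (a b : ZF) : sw a b a = b := by rw [sw, if_pos rfl]

theorem sw_ind {Q : ZF → Prop} (h : Q r) (ha : Q a) (hb : Q b) : Q (sw a b r) := by
  unfold sw
  split_ifs <;> assumption

theorem sw_row (n i j m k : ZF) : ∃ l, sw (pair n i) (pair n j) (pair m k) = pair m l := by
  unfold sw
  split_ifs with h h'
  exacts [⟨j, by rw [(pair_inj.1 h).1]⟩, ⟨i, by rw [(pair_inj.1 h').1]⟩, ⟨k, rfl⟩]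

theorem sw_lev (h : insert n n ⊆ fst r) : sw (pair n i) (pair n j) r = r := by
  refine sw_of_ne ?_ ?_ <;> rintro rfl <;> rw [fst_pair] at h <;>
    exact mem_irrefl n (h (mem_insert n n))

theorem at_pair (h : z ∈ At γ) : ∃ r x, z = pair r x := by
  obtain ⟨r, -, x, -, e⟩ := mem_prod.1 h
  exact ⟨r, x, e⟩

theorem ex_pair (h : z ∈ ex a b p) : ∃ r x, z = pair r x := by
  obtain ⟨y, -, e⟩ := mem_img.1 h
  exact ⟨_, _, e.symm⟩

theorem mem_ex (hp : p ⊆ At γ) : pair r x ∈ ex a b p ↔ pair (sw a b r) x ∈ p := by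
  refine ⟨fun h => ?_, fun h => mem_img.2 ⟨_, h, by simp [sw_sw]⟩⟩
  obtain ⟨y, hy, e⟩ := mem_img.1 h
  obtain ⟨r', x', rfl⟩ := at_pair (hp hy)
  simp only [fst_pair, snd_pair, pair_inj] at e
  rwa [← e.1, ← e.2, sw_sw]

theorem pt_ex (hp : p ⊆ At γ) : Pt (ex a b p) r ξ ↔ Pt p (sw a b r) ξ :=
  and_congr_left fun _ => mem_ex hp

theorem cv_ex (hp : p ⊆ At γ) : Cv (ex a b p) r ξ ↔ Cv p (sw a b r) ξ := by
  simp only [Cv, mem_ex hp]

theorem ex_mono (h : p ⊆ q) : ex a b p ⊆ ex a b q := fun _ hz => by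
  obtain ⟨y, hy, e⟩ := mem_img.1 hz
  exact mem_img.2 ⟨y, h hy, e⟩

theorem ex_At (hp : p ⊆ At κ) (ha : a ∈ prod om κ) (hb : b ∈ prod om κ) : ex a b p ⊆ At κ :=
  fun z hz => by
    obtain ⟨r, x, rfl⟩ := ex_pair hz
    have := pair_mem_prod.1 (hp ((mem_ex hp).1 hz))
    exact pair_mem_prod.2 ⟨sw_sw a b r ▸ sw_ind (Q := (· ∈ prod om κ)) this.1 ha hb, this.2⟩

theorem ex_ex (hp : p ⊆ At κ) (ha : a ∈ prod om κ) (hb : b ∈ prod om κ) :
    ex a b (ex a b p) = p := by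
  have : ∀ r x, pair r x ∈ ex a b (ex a b p) ↔ pair r x ∈ p := fun r x => by
    rw [mem_ex (ex_At hp ha hb), mem_ex hp, sw_sw]
  ext z
  constructor <;> intro hz
  · obtain ⟨r, x, rfl⟩ := ex_pair hz
    exact (this r x).1 hz
  · obtain ⟨r, x, rfl⟩ := at_pair (hp hz)
    exact (this r x).2 hz

theorem ex_lev (hp : p ⊆ At κ) (h : ∀ z ∈ p, insert n n ⊆ fst (fst z)) :
    ex (pair n i) (pair n j) p = p := by
  ext z
  refine mem_img.trans ⟨?_, fun hz => ⟨z, hz, ?_⟩⟩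
  · rintro ⟨y, hy, rfl⟩
    obtain ⟨r, x, rfl⟩ := at_pair (hp hy)
    rwa [sw_lev (h _ hy), fst_pair, snd_pair]
  · obtain ⟨r, x, rfl⟩ := at_pair (hp hz)
    rw [sw_lev (h _ hz), fst_pair, snd_pair]

variable {M : Set ZF} [hM : TModel M]

theorem ex_PP (hκ : κ ∈ M) (hn : n ∈ om) (hi : i ∈ κ) (hj : j ∈ κ) (hp : p ∈ PP M κ S n) :
    ex (pair n i) (pair n j) p ∈ PP M κ S n := by
  obtain ⟨h0, hc, hl⟩ := mem_PP.1 hp
  have := In.mk' h0
  have := In.mk' (tr hκ hi)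
  have := In.mk' (tr hκ hj)
  have := In.mk' (tr hM.infinity hn)
  have hs := ex_At hc.sub (pair_mem_prod.2 ⟨hn, hi⟩) (pair_mem_prod.2 ⟨hn, hj⟩)
  refine mem_PP.2 ⟨In.mem _, ⟨hs, hc.nc.fin ?_, fun r ξ h1 h2 => hc.con _ ξ ((pt_ex hc.sub).1 h1)
    ((cv_ex hc.sub).1 h2), fun m k ξ h1 l α h2 => ?_⟩, fun z hz => ?_⟩
  · have hF := (hc.nc.row (pair n i)).union (hc.nc.row (pair n j))
    refine ((hF.image (pair (pair n i))).union (hF.image (pair (pair n j)))).subset fun z hz => ?_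
    obtain ⟨r, x, rfl⟩ : ∃ r x, z = pair r x := by
      by_cases h : z ∈ p
      exacts [at_pair (hc.sub h), ex_pair (by_contra fun h' => hz (iff_of_false h h'))]
    simp only [Set.mem_ofPred_eq, mem_ex hc.sub] at hz
    by_cases h1 : r = pair n i
    · subst h1
      rw [sw_left] at hz
      exact Or.inl ⟨x, by_contra fun h => hz (iff_of_false (fun h' => h (Or.inl h'))
        fun h' => h (Or.inr h')), rfl⟩
    by_cases h2 : r = pair n j
    · subst h2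
      rw [sw, if_neg h1, if_pos rfl] at hz
      exact Or.inr ⟨x, by_contra fun h => hz (iff_of_false (fun h' => h (Or.inr h'))
        fun h' => h (Or.inl h')), rfl⟩
    · exact absurd (by rw [sw_of_ne h1 h2]) hz
  · have h3 := (pt_ex hc.sub).1 h1
    obtain ⟨k', e⟩ := sw_row n i j m k
    rw [e] at h3
    have h4 : n ⊆ m := by simpa using hl _ h3.1
    rw [cv_ex hc.sub, sw_of_ne]
    · exact hc.ok m k' ξ h3 l α h2
    all_goals exact fun e => mem_irrefl m (h4 ((pair_inj.1 e).1 ▸ mem_insert m m))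
  · obtain ⟨r, x, rfl⟩ := ex_pair hz
    obtain ⟨m, -, k, -, rfl⟩ := row_At (hs hz)
    obtain ⟨k', e⟩ := sw_row n i j m k
    have := hl _ ((mem_ex hc.sub).1 hz)
    simpa [e] using this

theorem aut (X : GX M κ S n G) (hi : i ∈ κ) (hj : j ∈ κ) :
    GX M κ S n (img (ex (pair n i) (pair n j)) G) ∧
      val (img (ex (pair n i) (pair n j)) G) '' M ⊆ val G '' M := by
  have hκ := X.sys.hart.mem
  have h1 := fun p => ex_PP (p := p) (S := S) hκ X.hn hi hj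
  have h2 : ∀ p ∈ PP M κ S n, ex (pair n i) (pair n j) (ex (pair n i) (pair n j) p) = p :=
    fun p hp => ex_ex (mem_PP.1 hp).2.1.sub (pair_mem_prod.2 ⟨X.hn, hi⟩)
      (pair_mem_prod.2 ⟨X.hn, hj⟩)
  have h3 : ∀ p ∈ G, ex (pair n i) (pair n j) p ∈ PP M κ S n := fun p hp => h1 p (X.gen.sub hp)
  refine ⟨⟨X.sys, X.cnt, X.hn, fun p hp => ?_, fun p hp q hq => ?_, fun p hp q hq => ?_,
    fun D hD H => ?_⟩, ?_⟩
  · obtain ⟨p, hp', rfl⟩ := mem_img.1 hp
    exact h3 p hp'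
  · obtain ⟨p, hp', rfl⟩ := mem_img.1 hp
    obtain ⟨-, h4, h5⟩ := mem_ord.1 hq
    exact mem_img.2 ⟨_, X.up hp' (h1 q h4) (h2 p (X.gen.sub hp') ▸ ex_mono h5), h2 q h4⟩
  · obtain ⟨p, hp', rfl⟩ := mem_img.1 hp
    obtain ⟨q, hq', rfl⟩ := mem_img.1 hq
    obtain ⟨r, h4, h5, h6⟩ := X.dir hp' hq'
    exact ⟨_, img_mem h4, mem_ord.2 ⟨h3 r h4, h3 p hp', ex_mono h5⟩,
      mem_ord.2 ⟨h3 r h4, h3 q hq', ex_mono h6⟩⟩
  · have := In.mk' hD
    have := In.mk' (tr hκ hi)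
    have := In.mk' (tr hκ hj)
    have := In.mk' (tr hM.infinity X.hn)
    obtain ⟨r, h4, h5⟩ := X.meet (fun r => ex (pair n i) (pair n j) r ∈ D) inferInstance
      fun q hq => by
        obtain ⟨d, h4, h5⟩ := H _ (h1 q hq)
        obtain ⟨h6, -, h7⟩ := mem_ord.1 h5
        exact ⟨_, h1 d h6, h2 q hq ▸ ex_mono h7, by rwa [h2 d h6]⟩
    exact ⟨_, img_mem h4, h5⟩
  · have := X.cx.model
    have := In.mk' X.cx.gen_mem
    have := In.mk' (X.cx.sub_ext (tr hκ hi))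
    have := In.mk' (X.cx.sub_ext (tr hκ hj))
    have := In.mk' (X.cx.sub_ext (tr hM.infinity X.hn))
    exact ext_sub X.cx.sub_ext (In.mem _)

theorem aut' (X : GX M κ S n G) (hi : i ∈ κ) (hj : j ∈ κ) :
    val (img (ex (pair n i) (pair n j)) G) '' M = val G '' M ∧
      lev (insert n n) (img (ex (pair n i) (pair n j)) G) = lev (insert n n) G := by
  have h2 : ∀ p ∈ G, ex (pair n i) (pair n j) (ex (pair n i) (pair n j) p) = p :=
    fun p hp => ex_ex (X.cond hp).sub (pair_mem_prod.2 ⟨X.hn, hi⟩) (pair_mem_prod.2 ⟨X.hn, hj⟩)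
  have h3 : img (ex (pair n i) (pair n j)) (img (ex (pair n i) (pair n j)) G) = G := by
    ext p
    refine mem_img.trans ⟨?_, fun hp => ⟨_, img_mem hp, h2 p hp⟩⟩
    rintro ⟨q, hq, rfl⟩
    obtain ⟨q, hq', rfl⟩ := mem_img.1 hq
    rwa [h2 q hq']
  have Y := (aut X hi hj).1
  refine ⟨(aut X hi hj).2.antisymm (h3 ▸ (aut Y hi hj).2 :), ZFSet.ext fun p => ?_⟩
  rw [mem_lev, mem_lev]
  refine and_congr_left fun h => ⟨fun hp => ?_, fun hp => mem_img.2
    ⟨p, hp, ex_lev (X.cond hp).sub h⟩⟩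
  rw [← h3]
  exact mem_img.2 ⟨p, hp, ex_lev (Y.cond hp).sub h⟩

/-- a point of one condition is covered by the other -/
def Conf (p q r : ZF) : Prop := ∃ ξ, (Pt p r ξ ∧ Cv q r ξ) ∨ (Pt q r ξ ∧ Cv p r ξ)

omit hM in
theorem Conf.rows (h : Conf p q r) : (∃ x, pair r x ∈ p) ∧ ∃ x, pair r x ∈ q := by
  obtain ⟨ξ, ⟨h1, _, _, h2, -⟩ | ⟨h1, _, _, h2, -⟩⟩ := h
  exacts [⟨⟨_, h1.1⟩, _, h2⟩, ⟨⟨_, h2⟩, _, h1.1⟩]

theorem hom_aux (hS : Sys M κ S) (hc : M.Countable) (hn : n ∈ om) (hp : p ∈ PP M κ S n)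
    {B : Set ZF} (hB : B.Finite) : ∀ q ∈ PP M κ S n, (∀ r, Conf p q r → ∃ i ∈ B, r = pair n i) →
    ∃ G G', GX M κ S n G ∧ GX M κ S n G' ∧ p ∈ G ∧ q ∈ G' ∧ val G '' M = val G' '' M ∧
      lev (insert n n) G = lev (insert n n) G' := by
  have cp := (mem_PP.1 hp).2.1
  induction B, hB using Set.Finite.induction_on with
  | empty =>
    intro q hq h
    have h' : ∀ r, ¬ Conf p q r := fun r hr => by simpa using h r hr
    obtain ⟨G, X, hG⟩ := hS.exists_gx hc hn (union_PP hp hq (cp.union (mem_PP.1 hq).2.1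
      (fun r ξ h1 h2 => h' r ⟨ξ, Or.inl ⟨h1, h2⟩⟩) fun r ξ h1 h2 => h' r ⟨ξ, Or.inr ⟨h1, h2⟩⟩))
    exact ⟨G, G, X, X, X.up hG hp (sub_l _ _), X.up hG hq (sub_r _ _), rfl, rfl⟩
  | @insert i B _ _ ih =>
    intro q hq h
    have cq := (mem_PP.1 hq).2.1
    by_cases hi : i ∈ κ
    · obtain ⟨a, ha, h1⟩ := hS.bdd cp
      obtain ⟨b, hb, h2⟩ := hS.bdd cq
      obtain ⟨γ, hγ, h3, h4, -⟩ := hS.lm.three ha hb hb
      have ho := hS.hart.ord.mem hγ
      replace h1 := h1.trans (At_mono (ho.subset_of_mem h3))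
      replace h2 := h2.trans (At_mono (ho.subset_of_mem h4))
      obtain ⟨G, G', X, X', h5, h6, h7, h8⟩ := ih _ (ex_PP hS.hart.mem hn hi hγ hq) fun r hr => by
        obtain ⟨⟨x, hx⟩, y, hy⟩ := hr.rows
        have e1 : r ≠ pair n γ := fun e => mem_irrefl γ (row_At' (e ▸ h1 hx :)).2
        have e2 : r ≠ pair n i := fun e => by
          rw [mem_ex h2, e, sw_left] at hy
          exact mem_irrefl γ (row_At' (h2 hy)).2
        simp only [Conf, pt_ex h2, cv_ex h2, sw_of_ne e2 e1] at hr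
        obtain ⟨k, rfl | hk, e⟩ := h r hr
        exacts [absurd e e2, ⟨k, hk, e⟩]
      exact ⟨G, _, X, (aut X' hi hγ).1, h5, mem_img.2 ⟨_, h6, ex_ex cq.sub
        (pair_mem_prod.2 ⟨hn, hi⟩) (pair_mem_prod.2 ⟨hn, hγ⟩)⟩, h7.trans (aut' X' hi hγ).1.symm,
        h8.trans (aut' X' hi hγ).2.symm⟩
    · refine ih q hq fun r hr => ?_
      obtain ⟨k, rfl | hk, e⟩ := h r hr
      · obtain ⟨⟨x, hx⟩, -⟩ := hr.rows
        exact absurd (row_At' (e ▸ cp.sub hx :)).2 hi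
      · exact ⟨k, hk, e⟩

theorem hom (hS : Sys M κ S) (hc : M.Countable) (hn : n ∈ om) (hp : p ∈ PP M κ S n)
    (hq : q ∈ PP M κ S n) (h1 : tail (insert n n) p ⊆ q) (h2 : tail (insert n n) q ⊆ p) :
    ∃ G G', GX M κ S n G ∧ GX M κ S n G' ∧ p ∈ G ∧ q ∈ G' ∧ val G '' M = val G' '' M ∧
      lev (insert n n) G = lev (insert n n) G' := by
  obtain ⟨-, cp, lp⟩ := mem_PP.1 hp
  obtain ⟨-, cq, -⟩ := mem_PP.1 hq
  refine hom_aux hS hc hn hp (((cp.nc.ivs hS.hart.ord).union (cq.nc.ivs hS.hart.ord)).image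
    fun z => snd (fst z)) q hq fun r hr => ?_
  obtain ⟨⟨x, hx⟩, -⟩ := hr.rows
  obtain ⟨m, hm, k, -, rfl⟩ := row_At (cp.sub hx)
  have h3 : n ⊆ m := by simpa using lp _ hx
  have o := isOrdinal_omega.mem hm
  rcases ((isOrdinal_omega.mem hn).subset_iff_eq_or_mem o).1 h3 with rfl | h4
  · refine ⟨k, ?_, rfl⟩
    obtain ⟨ξ, ⟨-, a, b, h, -⟩ | ⟨-, a, b, h, -⟩⟩ := hr
    exacts [⟨_, Or.inr ⟨h, _, _, _, rfl⟩, by simp⟩, ⟨_, Or.inl ⟨h, _, _, _, rfl⟩, by simp⟩]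
  · have h5 : insert n n ⊆ m := fun y hy => by
      rcases mem_insert_iff.1 hy with rfl | hy
      exacts [h4, h3 hy]
    obtain ⟨ξ, ⟨h6, h7⟩ | ⟨h6, h7⟩⟩ := hr
    exacts [absurd h7 (cq.con _ ξ ⟨h1 (pair_mem_tail.2 ⟨h6.1, h5⟩), h6.2⟩),
      absurd h7 (cp.con _ ξ ⟨h2 (pair_mem_tail.2 ⟨h6.1, h5⟩), h6.2⟩)]

end HomPAux

open HomPAux in
theorem homP : S_HomP := by
  intro M hM κ S n G X φ v hv a ⟨t, ht, e⟩
  subst e
  obtain ⟨τ, hτ, rfl⟩ := exists_names hv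
  have hn := omega_succ X.hn
  have hs : n ⊆ insert n n := fun _ h => mem_insert_of_mem _ h
  let Q : Set ZF → ZF → ZF → ZF → Prop := fun N G s _ =>
    Sat N φ (cons (val (lev (insert n n) G) s) fun k => val (lev (insert n n) G) (τ k))
  have hQ : UD M (fun N v => Q N (v 0) (v 1) (v 2)) := by
    have := UI.mk' (A := M) (tr hM.infinity hn)
    refine (UD.subst0 φ (cns (fun _ v => val (lev (insert n n) (v 0)) (v 1))
      fun k _ v => val (lev (insert n n) (v 0)) (τ k)) fun k => ?_).congr fun N _ v _ => ?_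
    · cases k with
      | zero => exact (inferInstance : UT M fun _ v => val (lev (insert n n) (v 0)) (v 1))
      | succ k =>
        have := UI.mk' (A := M) (hτ k)
        exact (inferInstance : UT M fun _ v => val (lev (insert n n) (v 0)) (τ k))
    · refine iff_of_eq (congrArg (Sat N φ) (funext fun k => ?_))
      cases k <;> rfl
  obtain ⟨b, hb, -, h⟩ := (X.lev hn hs).cx.sep_name ht
    (fun p s => Frc M (PP M κ S n) (ord (PP M κ S n)) Q p s ∅)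
    ((frc_df X.cnt X.cx.hP X.cx.hL X.cx.po hQ).three (fun v => v 0) (fun v => v 1) fun _ => ∅)
    (fun x => Sat (val G '' M) φ (cons x fun k => val (lev (insert n n) G) (τ k)))
    (fun s _ p q h1 h2 => h1.mono X.cx.po (mem_ord.2 ⟨PP_mono hs (mem_ord.1 h2).1,
      PP_mono hs (mem_ord.1 h2).2.1, (mem_ord.1 h2).2.2⟩))
    fun s hs' => ⟨fun h => by
      obtain ⟨p, hp, h1⟩ := frc_truth X.cnt X.cx hQ hs' empty_mem h
      refine ⟨_, X.tail_mem hp hn hs, PP_mono hs (tail_PP h1.1 hn), fun G2 g2 h2 => ?_⟩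
      have Y : GX M κ S n G2 := ⟨X.sys, X.cnt, X.hn, g2⟩
      by_contra h3
      obtain ⟨q0, h4, h5⟩ := frc_truth (Q := fun N G a b => ¬ Q N G a b) X.cnt Y.cx
        (@UD.not _ _ hQ) hs' empty_mem h3
      obtain ⟨q, h6, h7, h8⟩ := Y.dir h4 h2
      have h9 := tail_PP (Y.gen.sub h6) hn
      obtain ⟨G3, G4, Z, Z', a1, a2, a3, a4⟩ := hom X.sys X.cnt X.hn
        (union_PP h1.1 (PP_mono hs h9) ((X.cond hp).amal (mem_PP.1 h9).2.1
          (fun z hz => mem_tail.2 ⟨h8 hz, (mem_tail.1 hz).2⟩) (mem_PP.1 h9).2.2)) (Y.gen.sub h6)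
        (fun z hz => (mem_union.1 (mem_tail.1 hz).1).elim
          (fun h => h8 (mem_tail.2 ⟨h, (mem_tail.1 hz).2⟩)) fun h => tail_sub _ _ h) (sub_r _ _)
      refine h5.2 G4 Z'.gen (Z'.up a2 h5.1 h7) ?_
      have := h1.2 G3 Z.gen (Z.up a1 h1.1 (sub_l _ _))
      simp only [Q, a3, a4] at this
      exact this, fun ⟨p, hp, h⟩ => h.2 G X.gen (mem_lev.1 hp).1⟩
  exact ⟨b, hb, ZFSet.ext fun x => by rw [h x, mem_sep]⟩

end Pool.Agent.P.MP_0b3dfe_lc
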