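import Pool.Agent.P.MP_0b3dfe_lc.St0

/-! A definable intersection of transitive models is a model of ZF. -/

set_option synthInstance.maxSize 100000

namespace Pool.Agent.P.MP_0b3dfe_lc

open ZFSet Pool.Agent.P.MP_3ab3de_lc

namespace InterP

variable {M I : Set ZF}

theorem dfSat (hI : I ⊆ M) (h : Df M (fun v => v 0 ∈ I)) (φ : Fml) :
    Df M (fun v => Sat I φ v) := by
  induction φ with
  | mem i j => exact Df.mem0 i j
  | eq i j => exact Df.eq0 i j
  | bot => exact Df.bot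
  | imp φ ψ h1 h2 => exact @Df.imp M _ _ h1 h2
  | all φ ih =>
    refine (Df.allM (P := fun v x => x ∈ I → Sat I φ (cons x v))
      ((@Df.imp M _ _ h ih).congr fun v _ => ?_)).congr
      fun v _ => ⟨fun h x _ hx => h x hx, fun h x hx => h x (hI hx) hx⟩
    have : (cons (v 0) fun n => v (n + 1)) = v := by
      funext i; cases i <;> rfl
    rw [this]

theorem dfCons {P : Env → Prop} (h : Df M P) {v : Env} (hv : EIn M v) :
    Df M (fun w => P (cons (w 0) v)) :=
  (h.sub (cns (Sum.inl 0) fun n => Sum.inr ⟨v n, hv n⟩)).congr fun w _ => by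
    refine iff_of_eq (congrArg P (funext fun i => ?_))
    cases i <;> rfl

theorem dfCons2 {P : Env → Prop} (h : Df M P) {v : Env} (hv : EIn M v) :
    Df M (fun w => P (cons (w 0) (cons (w 1) v))) :=
  (h.sub (cns (Sum.inl 0) (cns (Sum.inl 1) fun n => Sum.inr ⟨v n, hv n⟩))).congr fun w _ => by
    refine iff_of_eq (congrArg P (funext fun i => ?_))
    rcases i with _ | _ | i <;> rfl

theorem same {W : ℕ → Set ZF} {Q : ZF → Prop} (h : ∀ n, ∃ b ∈ W n, ∀ y, y ∈ b ↔ Q y) :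
    ∃ b ∈ ⋂ k, W k, ∀ y, y ∈ b ↔ Q y := by
  obtain ⟨b, -, e⟩ := h 0
  refine ⟨b, Set.mem_iInter.2 fun n => ?_, e⟩
  obtain ⟨c, hc, e'⟩ := h n
  rwa [show b = c from ZFSet.ext fun y => (e y).trans (e' y).symm]

end InterP

open InterP

theorem inter : S_Inter := by
  intro W hW hD
  have hI : ∀ n, (⋂ k, W k) ⊆ W n := Set.iInter_subset W
  refine ⟨fun x hx y hy => Set.mem_iInter.2 fun n => (hW n).trans x (hI n hx) y hy,
    fun a ha b hb => Set.mem_iInter.2 fun n => (hW n).pairing a (hI n ha) b (hI n hb),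
    fun a ha => Set.mem_iInter.2 fun n => (hW n).union a (hI n ha),
    Set.mem_iInter.2 fun n => (hW n).infinity, fun a ha => ?_, fun φ v hv a ha => same fun n => ?_,
    fun φ v hv a ha hu => same fun n => ?_⟩
  · obtain ⟨b, hb, e⟩ := same (W := W) (Q := fun y => y ∈ ⋂ k, W k ∧ y ⊆ a) fun n => by
      have := hW n
      obtain ⟨c, hc, e⟩ := (hW n).power a (hI n ha)
      refine ⟨_, sep_mem' (fun x => x ∈ ⋂ k, W k) (hD n) hc, fun y => ?_⟩
      rw [mem_sep, and_comm]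
      exact and_congr_right fun hy => e y (hI n hy)
    exact ⟨b, hb, fun x hx => (e x).trans (and_iff_right hx)⟩
  · have := hW n
    exact ⟨_, sep_mem' (fun x => Sat (⋂ k, W k) φ (cons x v))
      (dfCons (dfSat (hI n) (hD n) φ) fun k => hI n (hv k)) (hI n ha), fun x => mem_sep⟩
  · have := hW n
    obtain ⟨b, hb, e⟩ := repl' (M := W n)
      (fun x y => y ∈ ⋂ k, W k ∧ Sat (⋂ k, W k) φ (cons y (cons x v)))
      (@Df.and _ _ _ (hD n) (dfCons2 (dfSat (hI n) (hD n) φ) fun k => hI n (hv k))) (hI n ha)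
      fun x hx => by
        obtain ⟨y, h1, h2⟩ := hu x hx
        exact ⟨y, ⟨hI n h1.1, h1⟩, fun z hz => h2 z hz.2⟩
    exact ⟨b, hb, fun y => (e y).trans ⟨fun ⟨_, x, hx, h1, h2⟩ => ⟨h1, x, hx, h2⟩,
      fun ⟨h1, x, hx, h2⟩ => ⟨hI n h1, x, hx, h1, h2⟩⟩⟩

end Pool.Agent.P.MP_0b3dfe_lc
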