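import Pool.Agent.P.MP_0b3dfe_lc.St2

/-! The diagonal argument: no set of all tail extensions decides the clubs along all sequences. -/

set_option linter.unusedSectionVars false
set_option synthInstance.maxSize 100000

namespace Pool.Agent.P.MP_0b3dfe_lc

open ZFSet Pool.Agent.P.MP_3ab3de_lc ForceP

namespace NoAC

variable {M : Set ZF} [hM : TModel M] {κ S G p : ZF}

/-- a closure point for a dense family of properties -/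
theorem closure (hs : Sys M κ S)
    (hc : ∀ γ ∈ κ, Le M (ZFSet.sep (fun p => p ⊆ At γ) (PP M κ S ∅)) om) (hp : p ∈ PP M κ S ∅)
    (B : ZF → ZF → Prop) (hB : Df M (fun v => B (v 0) (v 1)))
    (H : ∀ r ∈ PP M κ S ∅, p ⊆ r → ∀ n ∈ om, ∃ r' ∈ PP M κ S ∅, r ⊆ r' ∧ B r' n) :
    ∃ δ ∈ κ, pair (pair (pair ∅ ∅) ∅) δ ∈ S ∧ δ ≠ ∅ ∧ ∀ β ∈ δ, ∃ ζ ∈ δ,
      pair (pair (pair ∅ ∅) ∅) ζ ∈ S ∧ β ∈ ζ ∧ p ⊆ At ζ ∧ ∀ r ∈ PP M κ S ∅, p ⊆ r → r ⊆ At β →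
        ∀ n ∈ om, ∃ r' ∈ PP M κ S ∅, r ⊆ r' ∧ r' ⊆ At ζ ∧ B r' n := by
  have hκ := hs.hart
  have := fun s t [Tm M s] [Tm M t] => hB.two s t
  have := In.mk' hs.mem
  have := In.mk' (hs.PP_mem omega_zero).1
  have := In.mk' (mem_PP.1 hp).1
  generalize hP : PP M κ S ∅ = P at *
  refine hs.stat0.close hκ.mem (fun β ζ => pair (pair (pair ∅ ∅) ∅) ζ ∈ S ∧ β ∈ ζ ∧ p ⊆ At ζ ∧
    ∀ r ∈ P, p ⊆ r → r ⊆ At β → ∀ n ∈ om, ∃ r' ∈ P, r ⊆ r' ∧ r' ⊆ At ζ ∧ B r' n)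
    inferInstance fun β hβ => ?_
  have := In.mk' (tr hκ.mem hβ)
  obtain ⟨η, hη, h1⟩ := hκ.bdd_wit inf_omega (fun y ξ => p ⊆ fst y → ∃ r' ∈ P, fst y ⊆ r' ∧
    r' ⊆ At ξ ∧ B r' (snd y)) inferInstance (c := prod (ZFSet.sep (fun p => p ⊆ At β) P) om)
    (In.mem _) (inf_omega.prod (hc β hβ) (Le.refl hM.infinity)) fun y hy => by
      obtain ⟨r, hr, n, hn, rfl⟩ := mem_prod.1 hy
      simp only [fst_pair, snd_pair]
      by_cases h : p ⊆ r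
      · obtain ⟨r', h1, h2, h3⟩ := H r (mem_sep.1 hr).1 h n hn
        obtain ⟨γ, h4, h5⟩ := hs.bdd (mem_PP.1 (hP ▸ h1 :)).2.1
        exact ⟨γ, h4, fun _ => ⟨r', h1, h2, h5, h3⟩⟩
      · exact ⟨β, hβ, fun h' => absurd h' h⟩
  obtain ⟨γ, hγ, h2⟩ := hs.bdd (mem_PP.1 (hP ▸ hp :)).2.1
  obtain ⟨c, h3, h4, h5, h6⟩ := hs.lm.three hη hγ hβ
  obtain ⟨ζ, h7, h8, h9⟩ := hs.stat0.above hκ h3
  have ho := hκ.ord.mem h7
  refine ⟨ζ, h7, h8, ho.mem_trans h6 h9, h2.trans (At_mono (ho.subset_of_mem (ho.mem_trans h5 h9))),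
    fun r hr h10 h11 n hn => ?_⟩
  obtain ⟨ξ, h12, h13⟩ := h1 (pair r n) (pair_mem_prod.2 ⟨mem_sep.2 ⟨hr, h11⟩, hn⟩)
  simp only [fst_pair, snd_pair] at h13
  obtain ⟨r', h14, h15, h16, h17⟩ := h13 h10
  exact ⟨r', h14, h15, h16.trans (At_mono (ho.subset_of_mem
    (ho.mem_trans h12 (ho.mem_trans h4 h9)))), h17⟩

/-- the diagonal sequence -/
theorem diag (hs : Sys M κ S)
    (hc : ∀ γ ∈ κ, Le M (ZFSet.sep (fun p => p ⊆ At γ) (PP M κ S ∅)) om) (hp : p ∈ PP M κ S ∅)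
    (B : ZF → ZF → Prop) (hB : Df M (fun v => B (v 0) (v 1)))
    (H : ∀ r ∈ PP M κ S ∅, p ⊆ r → ∀ n ∈ om, ∃ r' ∈ PP M κ S ∅, r ⊆ r' ∧ B r' n) :
    ∃ δ ∈ κ, pair (pair (pair ∅ ∅) ∅) δ ∈ S ∧ Lm δ ∧ p ⊆ At δ ∧ ∃ x ∈ M, IsFunc om κ x ∧
      ∀ r ∈ PP M κ S ∅, p ⊆ r → (∃ γ ∈ δ, r ⊆ At γ) → ∀ k ∈ om, ∃ i ∈ om, k ⊆ i ∧
        app x i ∈ δ ∧ pair (pair (pair ∅ ∅) ∅) (app x i) ∈ S ∧ ∃ r' ∈ PP M κ S ∅, r ⊆ r' ∧
          r' ⊆ At (app x i) ∧ B r' (insert i i) := by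
  obtain ⟨δ, hδ, h1, h2, h3⟩ := closure hs hc hp B hB H
  have hκ := hs.hart
  have ho := hκ.ord.mem hδ
  have hl : Lm δ := ⟨ho, h2, fun β hβ => (h3 β hβ).imp fun _ h => ⟨h.1, h.2.2.1⟩⟩
  obtain ⟨e, he, h4⟩ := hc δ hδ
  have := fun s t [Tm M s] [Tm M t] => hB.two s t
  have := In.mk' hs.mem
  have := In.mk' (hs.PP_mem omega_zero).1
  have := In.mk' (mem_PP.1 hp).1
  have := In.mk' he
  have := In.mk' (tr hκ.mem hδ)
  generalize PP M κ S ∅ = P at *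
  obtain ⟨f, hf, h5⟩ := skolem (M := M) (fun i ξ => ξ ∈ δ ∧ pair (pair (pair ∅ ∅) ∅) ξ ∈ S ∧
    ∀ j ∈ insert i i, app e j ∈ P → p ⊆ app e j → (∃ γ ∈ δ, app e j ⊆ At γ) →
      ∃ r' ∈ P, app e j ⊆ r' ∧ r' ⊆ At ξ ∧ B r' (insert i i)) inferInstance hM.infinity
    fun i hi => by
      have h5 : Fn (insert i i) := (fn_iff (tr hM.infinity (omega_succ hi))).2
        ⟨_, omega_succ hi, Le.refl (tr hM.infinity (omega_succ hi))⟩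
      obtain ⟨γ, hγ, h6⟩ := hl.bound h5 (fun j γ => (∃ γ ∈ δ, app e j ⊆ At γ) → app e j ⊆ At γ)
        (fun _ _ _ h h' h1 => (h' h1).trans (At_mono h)) fun j _ => by
          by_cases h : ∃ γ ∈ δ, app e j ⊆ At γ
          · exact h.imp fun _ h => ⟨h.1, fun _ => h.2⟩
          · obtain ⟨γ, hγ⟩ := (eq_empty_or_nonempty δ).resolve_left h2
            exact ⟨γ, hγ, fun h' => absurd h' h⟩
      obtain ⟨ζ, h7, h8, -, -, h9⟩ := h3 γ hγ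
      exact ⟨ζ, tr (tr hκ.mem hδ) h7, h7, h8, fun j hj h10 h11 h12 =>
        h9 _ h10 h11 (h6 j hj h12) _ (omega_succ hi)⟩
  have := In.mk' hf
  obtain ⟨γ, hγ⟩ := (eq_empty_or_nonempty δ).resolve_left h2
  obtain ⟨ζ, h6, -, -, h7, -⟩ := h3 γ hγ
  refine ⟨δ, hδ, h1, hl, h7.trans (At_mono (ho.subset_of_mem h6)), graph (app f) om, In.mem _,
    graph_isFunc fun i hi => hκ.ord.mem_trans (h5 i hi).1 hδ, fun r hr h8 h9 k hk => ?_⟩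
  obtain ⟨j, hj, rfl⟩ := h4 r (mem_sep.2 ⟨hr, by
    obtain ⟨γ, h9, h10⟩ := h9
    exact h10.trans (At_mono (ho.subset_of_mem h9))⟩)
  obtain ⟨i, hi, h10, h11⟩ : ∃ i ∈ om, k ⊆ i ∧ j ⊆ i := by
    rcases (isOrdinal_omega.mem hk).subset_total (isOrdinal_omega.mem hj) with h | h
    exacts [⟨j, hj, h, fun _ h => h⟩, ⟨k, hk, fun _ h => h, h⟩]
  refine ⟨i, hi, h10, ?_⟩
  rw [app_graph hi]
  exact ⟨(h5 i hi).1, (h5 i hi).2.1, (h5 i hi).2.2 j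
    ((mem_succ_iff (isOrdinal_omega.mem hj) (isOrdinal_omega.mem hi)).2 h11) hr h8 h9⟩

/-- what holds in an extension is forced above any given condition of the filter -/
theorem ext_frc {Q : Set ZF → ZF → ZF → ZF → Prop} {a b n : ZF} (X : GX M κ S n G)
    (hQ : UD M (fun N v => Q N (v 0) (v 1) (v 2))) (ha : a ∈ M) (hb : b ∈ M) (hp : p ∈ G)
    (h : Q (val G '' M) G a b) :
    ∃ r ∈ PP M κ S n, p ⊆ r ∧ Frc M (PP M κ S n) (ord (PP M κ S n)) Q r a b := by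
  obtain ⟨q, h1, h2⟩ := frc_truth X.cnt X.cx hQ ha hb h
  obtain ⟨r, h3, h4, h5⟩ := X.dir hp h1
  exact ⟨r, X.gen.sub h3, h4, h2.mono (po_ord _) (mem_ord.2 ⟨X.gen.sub h3, X.gen.sub h1, h5⟩)⟩

/-- the set coded by a nice name -/
def Dec (G t b : ZF) : Prop := ∃ p ∈ G, pair p b ∈ t

/-- the name `t` for the tail codes the same set as `t0` -/
def Q3 (t0 : ZF) (_ : Set ZF) (G n t : ZF) : Prop := ∀ b, Dec G t0 b ↔ Dec (lev n G) t b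

/-- the set coded by `t0` decides the clubs along `x` from `k` on -/
def Q4 (t0 : ZF) (_ : Set ZF) (G x k : ZF) : Prop :=
  ∀ m ∈ om, k ⊆ m → (Dec G t0 (pair x m) ↔ InD G (pair m ∅) (app x m))

/-- both hypotheses -/
def Q1 (t0 T Xs : ZF) (N : Set ZF) (G _ _ : ZF) : Prop :=
  (∀ n ∈ om, ∃ t ∈ T, Q3 t0 N G n t) ∧ ∀ x ∈ Xs, ∃ k ∈ om, Q4 t0 N G x k

omit hM in
theorem ud_Q3 {t0 : ZF} (h : t0 ∈ M) : UD M (fun N v => Q3 t0 N (v 0) (v 1) (v 2)) := by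
  have := UI.mk' h
  unfold Q3 Dec
  infer_instance

omit hM in
theorem ud_Q4 {t0 : ZF} (h : t0 ∈ M) : UD M (fun N v => Q4 t0 N (v 0) (v 1) (v 2)) := by
  have := UI.mk' h
  unfold Q4 Dec
  infer_instance

omit hM in
theorem ud_Q1 {t0 T Xs : ZF} (h : t0 ∈ M) (hT : T ∈ M) (hX : Xs ∈ M) :
    UD M (fun N v => Q1 t0 T Xs N (v 0) (v 1) (v 2)) := by
  have := UI.mk' hT
  have := UI.mk' hX
  have := fun s t r [UT M s] [UT M t] [UT M r] => (ud_Q3 h).three s t r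
  have := fun s t r [UT M s] [UT M t] [UT M r] => (ud_Q4 h).three s t r
  unfold Q1
  infer_instance

/-- the final two cases -/
theorem final (hs : Sys M κ S) (hc : M.Countable) {t0 t x k i s : ZF}
    (hsP : s ∈ PP M κ S ∅) (hi : i ∈ om) (hk : k ⊆ i) (hξ : app x i ∈ κ)
    (h0 : pair (pair (pair ∅ ∅) ∅) (app x i) ∈ S) (h1 : ¬ Pt s (pair i ∅) (app x i))
    (h2 : ¬ Cv s (pair i ∅) (app x i))
    (h3 : Frc M (PP M κ S ∅) (ord (PP M κ S ∅)) (Q3 t0) s (insert i i) t)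
    (h4 : Frc M (PP M κ S ∅) (ord (PP M κ S ∅)) (Q4 t0) s x k) : False := by
  have hκ := hs.hart
  have key : ∀ w ∈ PP M κ S ∅, s ⊆ w → ∃ G, GX M κ S ∅ G ∧ w ∈ G ∧ s ∈ G ∧
      (Dec (lev (insert i i) G) t (pair x i) ↔ InD G (pair i ∅) (app x i)) := fun w hw h => by
    obtain ⟨G, X, h5⟩ := hs.exists_gx hc omega_zero hw
    have h6 := X.up h5 hsP h
    exact ⟨G, X, h5, h6, (h3.2 G X.gen h6 _).symm.trans (h4.2 G X.gen h6 i hi hk)⟩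
  by_cases h : ∃ u ∈ PP M κ S (insert i i), pair u (pair x i) ∈ t ∧ Cond κ S (u ∪ s)
  · obtain ⟨u, hu, h5, h6⟩ := h
    have hu' : u ∈ PP M κ S ∅ := PP_mono (empty_subset _) hu
    obtain ⟨η, h7, h8⟩ := h6.addcv hκ.ord hi (hκ.zero inf_omega) hξ
      (fun e => notMem_empty _ (e ▸ (hs.below _ _ _ _ h0).1 :)) fun h7 => by
        rcases pt_union.1 h7 with h7 | h7
        · have := (mem_PP.1 hu).2.2 _ h7.1
          simp only [fst_pair] at this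
          exact mem_irrefl i (this (mem_insert _ _))
        · exact h1 h7
    obtain ⟨G, X, h9, -, h10⟩ := key _ (insert_PP hκ.mem (union_PP hu' hsP h6) (empty_subset _) h8)
      ((sub_r _ _).trans (sub_ins _ _))
    exact X.not_cv (h10.1 ⟨u, mem_lev.2 ⟨X.up h9 hu' ((sub_l _ _).trans (sub_ins _ _)),
      (mem_PP.1 hu).2.2⟩, h5⟩) h9 ⟨η, _, mem_insert _ _, h7, fun _ h => h⟩
  · obtain ⟨G, X, h5, h6, h7⟩ := key _ (insert_PP hκ.mem hsP (empty_subset _)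
      ((mem_PP.1 hsP).2.1.addpt hκ.ord hi (hκ.zero inf_omega) hξ h2 (hs.ok0 h0 _ _))) (sub_ins _ _)
    obtain ⟨u, h8, h9⟩ := h7.2 ⟨_, h5, mem_insert _ _, hκ.ord.mem hξ⟩
    obtain ⟨h10, h11⟩ := mem_lev.1 h8
    obtain ⟨w, h12, h13, h14⟩ := X.dir h10 h6
    exact h ⟨u, mem_PP.2 ⟨(mem_PP.1 (X.gen.sub h10)).1, X.cond h10, h11⟩, h9,
      (X.cond h10).union' (X.cond h6) (X.cond h12) h13 h14⟩

theorem not_frc (hs : Sys M κ S) (hc : M.Countable)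
    (hcnt : ∀ γ ∈ κ, Le M (ZFSet.sep (fun p => p ⊆ At γ) (PP M κ S ∅)) om) {t0 T Xs : ZF}
    (h0 : t0 ∈ M) (hT : T ∈ M) (hX : ∀ x ∈ M, IsFunc om κ x → x ∈ Xs) :
    ¬ Frc M (PP M κ S ∅) (ord (PP M κ S ∅)) (Q1 t0 T Xs) p ∅ ∅ := fun hp => by
  have hκ := hs.hart
  have hF := frc_df hc (hs.PP_mem omega_zero).1 (hs.PP_mem omega_zero).2 (po_ord _) (ud_Q3 h0)
  obtain ⟨δ, hδ, h1, hl, h2, x, hx, h3, h4⟩ := diag hs hcnt hp.1
    (fun r n => ∃ t ∈ T, Frc M (PP M κ S ∅) (ord (PP M κ S ∅)) (Q3 t0) r n t) (by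
      have := In.mk' hT
      have := fun s t r [Tm M s] [Tm M t] [Tm M r] => hF.three s t r
      infer_instance) fun r hr h n hn => by
      obtain ⟨G, X, h1⟩ := hs.exists_gx hc omega_zero hr
      obtain ⟨t, ht, h2⟩ := (hp.2 G X.gen (X.up h1 hp.1 h)).1 n hn
      obtain ⟨r', h3, h4, h5⟩ := ext_frc X (ud_Q3 h0) (tr hM.infinity hn) (tr hT ht) h1 h2
      exact ⟨r', h3, h4, t, ht, h5⟩
  have ho := hl.ord
  have hz : ∅ ∈ δ := (hs.below _ _ _ _ h1).1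
  have := In.mk' (mem_PP.1 hp.1).1
  have := In.mk' (tr hκ.mem hδ)
  have h5 : p ∪ col ∅ δ ∈ PP M κ S ∅ := mem_PP.2 ⟨In.mem _,
    (mem_PP.1 hp.1).2.1.addcol hκ.ord omega_zero hδ h2 fun m _ => hs.ok0 h1 _ _,
    fun _ _ => empty_subset _⟩
  obtain ⟨G, X, h6⟩ := hs.exists_gx hc omega_zero h5
  obtain ⟨k, hk, h7⟩ := (hp.2 G X.gen (X.up h6 hp.1 (sub_l _ _))).2 x (hX x hx h3)
  obtain ⟨q, hq, h8, h9⟩ := ext_frc X (ud_Q4 h0) hx (tr hM.infinity hk) h6 h7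
  have hcol : col ∅ δ ⊆ q := (sub_r _ _).trans h8
  have hq' := (mem_PP.1 hq).2.1
  have := In.mk' (mem_PP.1 hq).1
  obtain ⟨i, hi, h10, h11, h12, r, hr, h13, h14, t, -, h15⟩ := h4 (q ∩ At δ) (mem_PP.2 ⟨In.mem _,
    hq'.cut hκ.ord ho hs.below hcol fun _ _ => empty_subset _, fun _ _ => empty_subset _⟩)
    (fun z hz => mem_inter.2 ⟨h8 (sub_l _ _ hz), h2 hz⟩) (hq'.nc.bdd hκ.ord hl) k hk
  have h16 : r ∪ q ∈ PP M κ S ∅ := union_PP hr hq (hq'.cut_union (mem_PP.1 hr).2.1 hκ.ord ho hcol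
    (fun _ _ => empty_subset _) h13 (h14.trans (At_mono (ho.subset_of_mem h11))))
  refine final hs hc h16 hi h10 (hκ.ord.mem_trans h11 hδ) h12 (fun h => ?_) (fun h => ?_)
    (h15.mono (po_ord _) (mem_ord.2 ⟨h16, hr, sub_l _ _⟩))
    (h9.mono (po_ord _) (mem_ord.2 ⟨h16, hq, sub_r _ _⟩))
  · refine mem_irrefl _ (pt_At (r := pair i ∅) (h14 ?_) h.2)
    rcases pt_union.1 h with h | h
    exacts [h.1, h13 (mem_inter.2 ⟨h.1, pt_mem_At hi hz h11⟩)]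
  · refine not_cv_of_At h14 (ho.mem h11) (r := pair i ∅) ?_
    rcases cv_union.1 h with h | h
    exacts [h, (hq'.cv_cut hκ.ord ho ⟨hcol (mem_col.2 ⟨i, hi, ∅, hz, empty_subset _, rfl⟩), ho⟩
      hz h11 h).mono h13]

end NoAC

open NoAC

theorem noAC (h : S_Cnt) : S_NoAC := by
  intro M hM κ S G X a ha A hA h1 h2
  have hκ := X.sys.hart
  have := In.mk' hκ.mem
  have := In.mk' ha
  have := In.mk' X.cx.hP
  have h3 : ∀ n ∈ om, ∃ t ∈ pw M (prod (PP M κ S ∅) a), ∀ b, b ∈ A ↔ Dec (lev n G) t b :=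
    fun n hn => by
      obtain ⟨s, hs, rfl⟩ := h1 n hn
      obtain ⟨t, ht, h3, h4⟩ := (X.lev hn (empty_subset _)).cx.cap_ext hs ha hA
      refine ⟨t, mem_pw.2 ⟨fun z hz => ?_, ht⟩, h4⟩
      obtain ⟨u, hu, b, hb, rfl⟩ := mem_prod.1 (h3 hz)
      exact pair_mem_prod.2 ⟨PP_mono (empty_subset _) hu, hb⟩
  obtain ⟨t0, h4, h5⟩ := h3 ∅ omega_zero
  have h6 : lev ∅ G = G := ZFSet.ext fun p =>
    mem_lev.trans ⟨fun h => h.1, fun h => ⟨h, fun _ _ => empty_subset _⟩⟩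
  rw [h6] at h5
  have h7 := (mem_pw.1 h4).2
  have hT : pw M (prod (PP M κ S ∅) a) ∈ M := In.mem _
  have hX : ZFSet.sep (IsFunc om κ) (pw M (prod om κ)) ∈ M := In.mem _
  obtain ⟨p, -, hp⟩ := frc_truth X.cnt X.cx (ud_Q1 h7 hT hX) empty_mem empty_mem
    ⟨fun n hn => (h3 n hn).imp fun t ht => ⟨ht.1, fun b => (h5 b).symm.trans (ht.2 b)⟩,
      fun x hx => (h2 x (mem_pw.1 (mem_sep.1 hx).1).2 (mem_sep.1 hx).2).imp fun k hk =>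
        ⟨hk.1, fun m hm h8 => (h5 _).symm.trans (hk.2 m hm h8)⟩⟩
  exact not_frc X.sys X.cnt (h M κ S ∅ X.sys omega_zero) h7 hT
    (fun x hx h8 => mem_sep.2 ⟨mem_pw.2 ⟨h8.1, hx⟩, h8⟩) hp

end Pool.Agent.P.MP_0b3dfe_lc
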