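import Pool.Agent.P.MP_0b3dfe_lc.St2

/-! The pattern of stationary sets in the extension codes the clubs of the next level. -/

set_option linter.unusedSectionVars false
set_option synthInstance.maxSize 100000

namespace Pool.Agent.P.MP_0b3dfe_lc

open ZFSet Pool.Agent.P.MP_3ab3de_lc ForceP

variable {M : Set ZF} [hM : TModel M] {κ S n G m : ZF}

/-- the generic set of points of the row `(m, 0)` is unbounded -/
theorem GX.pat_unb (X : GX M κ S n G) (hm : m ∈ om) (h : n ⊆ m) {β : ZF} (hβ : β ∈ κ) :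
    ∃ ζ ∈ κ, β ∈ ζ ∧ InD G (pair m ∅) ζ := by
  have hκ := X.sys.hart
  have := In.mk' (tr hM.infinity hm)
  have := In.mk' hκ.mem
  have := In.mk' (tr hκ.mem hβ)
  obtain ⟨q, h1, ζ, h2, h3, h4⟩ := X.meet (fun q => ∃ ζ ∈ κ, β ∈ ζ ∧ Pt q (pair m ∅) ζ)
    inferInstance fun q hq => by
      have hc := (mem_PP.1 hq).2.1
      obtain ⟨γ, h1, h2⟩ := X.sys.bdd hc
      obtain ⟨γ', h3, h4, h5, -⟩ := X.sys.lm.three hβ h1 h1
      obtain ⟨δ, h6, h7, h8⟩ := X.sys.stat0.above hκ h3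
      have ho := hκ.ord.mem h6
      have h9 : q ⊆ At δ := h2.trans (At_mono (ho.subset_of_mem (ho.mem_trans h5 h8)))
      exact ⟨_, insert_PP hκ.mem hq h (hc.addpt hκ.ord hm (hκ.zero inf_omega) h6
        (not_cv_of_At h9 ho) (X.sys.ok0 h7 _ _)), sub_ins _ _, δ, h6, ho.mem_trans h4 h8,
        mem_insert _ _, ho⟩
  exact ⟨ζ, h2, h3, q, h1, h4⟩

/-- the generic set of points of a row is closed -/
theorem GX.pat_cl (X : GX M κ S n G) (hm : m ∈ om) (h : n ⊆ m) {i δ : ZF} (hi : i ∈ κ)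
    (hδ : δ ∈ κ) (H : ∀ β ∈ δ, ∃ ζ ∈ δ, β ∈ ζ ∧ InD G (pair m i) ζ) : InD G (pair m i) δ := by
  by_contra h1
  obtain ⟨q, h2, η, η', h3, h4, h5⟩ := X.cover hm h hi hδ h1
  obtain ⟨ζ, h6, h7, h8⟩ := H η h4
  exact X.not_cv h8 h2 ⟨η, η', h3, h7, ((X.sys.hart.ord.mem hδ).subset_of_mem h6).trans h5⟩

theorem pat (h : S_Pres) : S_Pat := by
  intro M hM κ S n G X m hm hn i hi α hα
  have hκ := X.sys.hart
  constructor
  · intro h1
    by_contra h2
    obtain ⟨p, hp, h3⟩ := X.cover (omega_succ hm) (hn.trans (sub_ins m m)) hi hα h2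
    have := In.mk' (tr hM.infinity hm)
    have := In.mk' (tr hκ.mem hi)
    have := In.mk' (tr hκ.mem hα)
    refine h1 ((h M κ S n G X).1 _ (In.mem _) (X.sys.stat _ (omega_succ hm) i hi α hα) p hp
      fun ξ h4 m' _ i' α' h5 => ?_)
    have e := X.sys.disj _ _ _ h4 h5
    obtain ⟨e1, rfl⟩ := pair_inj.1 e
    exact e1 ▸ h3
  · intro h1 h2
    have hN := X.cx.model
    have := In.mk' (M := val G '' M) X.cx.gen_mem
    have := In.mk' (M := val G '' M) (X.cx.sub_ext (tr hM.infinity hm))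
    obtain ⟨δ, h3, h4, -, h5⟩ := h2.close (X.cx.sub_ext hκ.mem)
      (fun β ζ => β ∈ ζ ∧ InD G (pair m ∅) ζ) inferInstance fun β hβ => X.pat_unb hm hn hβ
    obtain ⟨p, hp, h6⟩ := X.pat_cl hm hn (hκ.zero inf_omega) h3 h5
    exact X.not_cv h1 hp ((X.cond hp).ok m ∅ δ h6 i α h4)

end Pool.Agent.P.MP_0b3dfe_lc
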