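import Pool.Agent.P.MP_0b3dfe_lc.St1

/-! Satisfaction of a fixed formula of stationary logic is uniformly definable. -/

set_option synthInstance.maxSize 100000

namespace Pool.Agent.P.MP_0b3dfe_lc

open ZFSet Pool.Agent.P.MP_3ab3de_lc

variable {A : Set ZF}

theorem ut_cns {t : ℕ → Set ZF → Env → ZF} (h : ∀ k, UT A (t k)) (k : ℕ) :
    UT A (cns (fun _ v => v 0) (fun k N v => t k N (fun n => v (n + 1))) k) := by
  cases k with
  | zero => exact UT.var 0
  | succ k => exact @UT.ren _ _ (h k) _

theorem cons_cns (t : ℕ → Set ZF → Env → ZF) (N : Set ZF) (v : Env) :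
    (cons (v 0) fun k => t k N (fun n => v (n + 1))) = fun k =>
      cns (fun _ v => v 0) (fun k N v => t k N (fun n => v (n + 1))) k N v := by
  funext k; cases k <;> rfl

/-- substitution of terms in a formula of stationary logic -/
theorem satA_subst (φ : AFml) : ∀ (x : Set ZF → Env → ZF) (t s : ℕ → Set ZF → Env → ZF),
    UT A x → (∀ k, UT A (t k)) → (∀ k, UT A (s k)) →
    UD A (fun N v => SatA N (x N v : Set ZF) φ (fun k => t k N v) (fun k => s k N v)) := by
  induction φ with
  | mem i j => exact fun _ t _ _ h _ => @UD.mem _ _ _ (h i) (h j)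
  | eq i j => exact fun _ t _ _ h _ => @UD.eq _ _ _ (h i) (h j)
  | smem i j => exact fun _ t s _ h h' => @UD.mem _ _ _ (h i) (h' j)
  | bot => exact fun _ _ _ _ _ _ => UD.bot
  | imp φ ψ h1 h2 =>
    exact fun x t s hx h h' => @UD.imp _ _ _ (h1 x t s hx h h') (h2 x t s hx h h')
  | all φ ih =>
    intro x t s hx h h'
    have hx1 : UT A (fun N v => x N (fun n => v (n + 1))) := @UT.ren _ _ hx _
    have h1 := ih _ _ (fun k N v => s k N (fun n => v (n + 1))) hx1 (ut_cns h)
      fun k => @UT.ren _ _ (h' k) _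
    have h2 : UD A (fun N v => v 0 ∈ x N (fun n => v (n + 1)) →
        SatA N (x N (fun n => v (n + 1)) : Set ZF) φ
          (cons (v 0) fun k => t k N (fun n => v (n + 1)))
          (fun k => s k N (fun n => v (n + 1)))) :=
      @UD.imp _ _ _ UD.mem (h1.congr fun N _ v _ => by rw [cons_cns])
    exact (UD.allM (P := fun N v y => y ∈ x N v → SatA N (x N v : Set ZF) φ
      (cons y fun k => t k N v) (fun k => s k N v)) h2).congr fun N o v hv =>
        ⟨fun H y _ hy => H y hy, fun H y hy => H y (o.tr (hx.mem N o v hv) hy) hy⟩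
  | aa φ ih =>
    intro x t s hx h h'
    have hx1 : UT A (fun N v => x N (fun n => v (n + 1))) := @UT.ren _ _ hx _
    have hx2 : UT A (fun N v => x N (fun n => v (n + 1 + 1))) := @UT.ren _ _ hx _
    have h1 := ih _ (fun k N v => t k N (fun n => v (n + 1 + 1))) _ hx2
      (fun k => @UT.ren _ _ (h k) _)
      (ut_cns (t := fun k N v => s k N (fun n => v (n + 1))) fun k => @UT.ren _ _ (h' k) _)
    have h2 : UD A (fun N v => v 0 ∈ v 1 →
        SatA N (x N (fun n => v (n + 1 + 1)) : Set ZF) φ
          (fun k => t k N (fun n => v (n + 1 + 1)))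
          (cons (v 0) fun k => s k N (fun n => v (n + 1 + 1)))) :=
      @UD.imp _ _ _ UD.mem (h1.congr fun N _ v _ => by
        rw [← cons_cns (fun k N v => s k N (fun n => v (n + 1)))])
    have h3 := (UD.allM (P := fun N v y => y ∈ v 0 → SatA N (x N (fun n => v (n + 1)) : Set ZF) φ
      (fun k => t k N (fun n => v (n + 1))) (cons y fun k => s k N (fun n => v (n + 1)))) h2).congr
      (Q := fun N v => ∀ y ∈ v 0, SatA N (x N (fun n => v (n + 1)) : Set ZF) φ
        (fun k => t k N (fun n => v (n + 1))) (cons y fun k => s k N (fun n => v (n + 1))))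
      fun N o v hv => ⟨fun H y _ hy => H y hy, fun H y hy => H y (o.tr (hv 0) hy) hy⟩
    exact UD.exM (P := fun N v K => Club N (x N v : Set ZF) K ∧ ∀ y ∈ K, SatA N (x N v : Set ZF) φ
      (fun k => t k N v) (cons y fun k => s k N v)) (@UD.and _ _ _ ud_club h3)

theorem satA : S_SatA := fun φ =>
  satA_subst φ (fun _ v => v 0) (fun k _ v => v (2 * k + 1)) (fun k _ v => v (2 * k + 2))
    (UT.var _) (fun _ => UT.var _) fun _ => UT.var _

theorem cons_agree {n : ℕ} {v v' : Env} (h : ∀ k < n, v k = v' k) (x : ZF) :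
    ∀ k < n, cons x v k = cons x v' k := by
  intro k hk
  cases k with
  | zero => rfl
  | succ k => exact h k (by omega)

/-- satisfaction depends on finitely many variables -/
theorem satA_bnd (φ : AFml) : ∃ n : ℕ, ∀ (N X : Set ZF) (v v' w w' : Env),
    (∀ k < n, v k = v' k) → (∀ k < n, w k = w' k) → (SatA N X φ v w ↔ SatA N X φ v' w') := by
  induction φ with
  | mem i j =>
    refine ⟨i + j + 1, fun N X v v' w w' h _ => ?_⟩
    change v i ∈ v j ↔ v' i ∈ v' j
    rw [h i (by omega), h j (by omega)]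
  | eq i j =>
    refine ⟨i + j + 1, fun N X v v' w w' h _ => ?_⟩
    change v i = v j ↔ v' i = v' j
    rw [h i (by omega), h j (by omega)]
  | smem i j =>
    refine ⟨i + j + 1, fun N X v v' w w' h h' => ?_⟩
    change v i ∈ w j ↔ v' i ∈ w' j
    rw [h i (by omega), h' j (by omega)]
  | bot => exact ⟨0, fun _ _ _ _ _ _ _ _ => Iff.rfl⟩
  | imp φ ψ h1 h2 =>
    obtain ⟨n, h1⟩ := h1
    obtain ⟨m, h2⟩ := h2
    exact ⟨n + m, fun N X v v' w w' h h' => imp_congr
      (h1 N X v v' w w' (fun k hk => h k (by omega)) fun k hk => h' k (by omega))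
      (h2 N X v v' w w' (fun k hk => h k (by omega)) fun k hk => h' k (by omega))⟩
  | all φ ih =>
    obtain ⟨n, ih⟩ := ih
    exact ⟨n, fun N X v v' w w' h h' => forall_congr' fun x => imp_congr_right fun _ =>
      ih N X _ _ w w' (cons_agree h x) h'⟩
  | aa φ ih =>
    obtain ⟨n, ih⟩ := ih
    exact ⟨n, fun N X v v' w w' h h' => exists_congr fun K => and_congr_right fun _ =>
      and_congr_right fun _ => forall_congr' fun x => imp_congr_right fun _ =>
        ih N X v v' _ _ h (cons_agree h' x)⟩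

end Pool.Agent.P.MP_0b3dfe_lc
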