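import Pool.Agent.P.MP_0b3dfe_lc.St0

/-! An Ulam matrix inside a transitive model: many disjoint stationary sets. -/

set_option synthInstance.maxSize 100000
set_option linter.unusedSectionVars false

namespace Pool.Agent.P.MP_0b3dfe_lc

open ZFSet Pool.Agent.P.MP_3ab3de_lc

namespace SplitP

variable {M : Set ZF} [hM : TModel M] {κ : ZF}

omit hM in
theorem stat_mono {S S' : ZF → Prop} (h : Stat M κ S) (H : ∀ ξ ∈ κ, S ξ → S' ξ) : Stat M κ S' :=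
  fun R hR h1 => (h R hR h1).imp fun δ h2 => ⟨h2.1, H δ h2.1 h2.2.1, h2.2.2⟩

variable (hκ : Hart M om κ)
include hκ

/-- a common bound of two elements -/
theorem two {a b : ZF} (ha : a ∈ κ) (hb : b ∈ κ) : ∃ c ∈ κ, a ∈ c ∧ b ∈ c := by
  have h := hκ.union ha hb
  exact ⟨_, hκ.succ inf_omega h,
    (mem_succ_iff (hκ.ord.mem ha) (hκ.ord.mem h)).2 fun _ hx => mem_union.2 (Or.inl hx),
    (mem_succ_iff (hκ.ord.mem hb) (hκ.ord.mem h)).2 fun _ hx => mem_union.2 (Or.inr hx)⟩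

theorem stat_true : Stat M κ (fun _ => True) := by
  intro R hR H
  have := In.mk' hR
  obtain ⟨f, hf, -, h1⟩ := dc (M := M) (fun _ b z => b ∈ z ∧ ∀ b' ∈ b, ∃ ζ ∈ z, pair b' ζ ∈ R)
    inferInstance hκ.mem (hκ.zero inf_omega) fun _ b hb => by
      obtain ⟨η, hη, h2⟩ := hκ.bdd_wit inf_omega (fun x ζ => pair x ζ ∈ R) inferInstance
        (tr hκ.mem hb) (hκ.le b hb) fun x hx => H x (hκ.ord.mem_trans hx hb)
      obtain ⟨c, hc, h3, h4⟩ := two hκ hb hη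
      exact ⟨c, hc, h3, fun x hx => (h2 x hx).imp fun ζ h =>
        ⟨(hκ.ord.mem hc).mem_trans h.1 h4, h.2⟩⟩
  have := In.mk' hf
  have h2 : ∀ n ∈ om, app f n ∈ κ := fun n hn => by
    obtain ⟨n, rfl⟩ := mem_omega.1 hn
    exact (h1 n).1
  refine ⟨bun (app f) om, hκ.mem_of_le (isOrdinal_sUnion fun x hx => ?_)
    (inf_omega.bun _ inferInstance hM.infinity (Le.refl hM.infinity) fun n hn => hκ.le _ (h2 n hn)),
    trivial, fun e => notMem_empty (app f (num 0)) ?_, fun β hβ => ?_⟩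
  · obtain ⟨n, hn, rfl⟩ := mem_img.1 hx
    exact hκ.ord.mem (h2 n hn)
  · rw [← e]
    exact mem_bun.2 ⟨_, num_mem_omega 1, (h1 0).2.1⟩
  · obtain ⟨n, hn, h3⟩ := mem_bun.1 hβ
    obtain ⟨n, rfl⟩ := mem_omega.1 hn
    obtain ⟨ζ, h4, h5⟩ := (h1 n).2.2 β h3
    exact ⟨ζ, mem_bun.2 ⟨_, num_mem_omega (n + 1), h4⟩, h5⟩

theorem stat_above {S : ZF → Prop} (h : Stat M κ S) {b : ZF} (hb : b ∈ κ) :
    Stat M κ (fun ξ => S ξ ∧ b ∈ ξ) := by
  intro R hR H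
  have := In.mk' hR
  have := In.mk' (tr hκ.mem hb)
  obtain ⟨δ, h1, h2, h3, h4⟩ := h.close hκ.mem (fun β ζ => b ∈ ζ ∧ ∃ ζ' ∈ ζ, pair β ζ' ∈ R)
    inferInstance fun β hβ => by
      obtain ⟨ζ, h1, h2⟩ := H β hβ
      obtain ⟨c, hc, h3, h4⟩ := two hκ hb h1
      exact ⟨c, hc, h3, ζ, h4, h2⟩
  have ho := hκ.ord.mem h1
  refine ⟨δ, h1, ⟨h2, ?_⟩, h3, fun β hβ => ?_⟩
  · obtain ⟨β, hβ⟩ := (eq_empty_or_nonempty δ).resolve_left h3
    obtain ⟨ζ, h5, h6, -⟩ := h4 β hβ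
    exact ho.mem_trans h6 h5
  · obtain ⟨ζ, h5, -, ζ', h6, h7⟩ := h4 β hβ
    exact ⟨ζ', ho.mem_trans h6 h5, h7⟩

/-- one of countably many pieces of a stationary set is stationary -/
theorem stat_sigma {S : ZF → Prop} (h : Stat M κ S) (A : ZF → ZF → Prop)
    (hA : Df M (fun v => A (v 0) (v 1))) (H : ∀ ξ ∈ κ, S ξ → ∃ n ∈ om, A n ξ) :
    ∃ n ∈ om, Stat M κ (A n) := by
  have := fun s t [Tm M s] [Tm M t] => hA.two s t
  have := In.mk' hκ.mem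
  by_contra hc
  obtain ⟨g, hg, h1⟩ := skolem (M := M) (fun n R => (∀ β ∈ κ, ∃ ζ ∈ κ, pair β ζ ∈ R) ∧
      ¬ ∃ δ ∈ κ, A n δ ∧ δ ≠ ∅ ∧ ∀ β ∈ δ, ∃ ζ ∈ δ, pair β ζ ∈ R) inferInstance hM.infinity
    fun n hn => by
      by_contra h2
      exact hc ⟨n, hn, fun R hR h3 => by_contra fun h4 => h2 ⟨R, hR, h3, h4⟩⟩
  have := In.mk' hg
  obtain ⟨δ, h2, h3, h4, h5⟩ := h.close hκ.mem
    (fun β ζ => ∀ n ∈ om, ∃ ζ' ∈ ζ, pair β ζ' ∈ app g n) inferInstance fun β hβ => by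
      have := In.mk' (tr hκ.mem hβ)
      exact hκ.bdd_wit inf_omega (fun n ζ => pair β ζ ∈ app g n) inferInstance hM.infinity
        (Le.refl hM.infinity) fun n hn => (h1 n hn).1 β hβ
  obtain ⟨n, hn, h6⟩ := H δ h2 h3
  refine (h1 n hn).2 ⟨δ, h2, h6, h4, fun β hβ => ?_⟩
  obtain ⟨ζ, h7, h8⟩ := h5 β hβ
  obtain ⟨ζ', h9, h10⟩ := h8 n hn
  exact ⟨ζ', (hκ.ord.mem h2).mem_trans h9 h7, h10⟩

/-- an uncountable set contains a copy of `κ` -/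
theorem inj_of_not_le {U : ZF} (hU : U ∈ M) (h : ¬ Le M U om) : ∃ g ∈ M, (∀ η ∈ κ, app g η ∈ U) ∧
    ∀ η ∈ κ, ∀ η' ∈ κ, app g η = app g η' → η = η' := by
  obtain ⟨o, -, ho, g, hg, h1, h2, h3⟩ := numer hU
  have h4 : κ ⊆ o := (ho.mem_or_subset hκ.ord).resolve_left fun h' =>
    h (Le.trans ⟨g, hg, h3⟩ (hκ.le o h') hM.infinity)
  exact ⟨g, hg, fun η hη => h1 η (h4 hη), fun η hη η' hη' => h2 η (h4 hη) η' (h4 hη')⟩

theorem le_index : Le M (prod (prod om κ) κ) κ := by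
  have := In.mk' hκ.mem
  refine hκ.layers inf_omega (In.mem _) (fun ξ => prod (prod om ξ) ξ) inferInstance
    (fun y hy => ?_) fun ξ hξ =>
      inf_omega.prod (inf_omega.prod (Le.refl hM.infinity) (hκ.le ξ hξ)) (hκ.le ξ hξ)
  obtain ⟨x, hx, α, hα, rfl⟩ := mem_prod.1 hy
  obtain ⟨m, hm, i, hi, rfl⟩ := mem_prod.1 hx
  obtain ⟨c, hc, h1, h2⟩ := two hκ hi hα
  exact ⟨c, hc, pair_mem_prod.2 ⟨pair_mem_prod.2 ⟨hm, h1⟩, h2⟩⟩

/-- a row of the Ulam matrix with uncountably many stationary entries -/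
theorem ulam : ∃ F ∈ M, ∃ n ∈ om, ∃ U ∈ M, ¬ Le M U om ∧
    ∀ a ∈ U, Stat M κ (fun ξ => app (app F ξ) n = a) := by
  have := In.mk' hκ.mem
  obtain ⟨F, hF, h1⟩ := skolem (M := M) (fun b f => ∀ y ∈ b, ∃ n ∈ om, app f n = y) inferInstance
    hκ.mem hκ.le
  have := In.mk' hF
  have hd : Df M (fun v => Stat M κ (fun ξ => app (app F ξ) (v 0) = v 1)) := by
    unfold Stat; infer_instance
  have := fun s t [Tm M s] [Tm M t] =>
    Df.two (R := fun n a => Stat M κ (fun ξ => app (app F ξ) n = a)) hd s t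
  by_contra hc
  refine hκ.not_le ((inf_omega.bun
    (fun n => ZFSet.sep (fun a => Stat M κ (fun ξ => app (app F ξ) n = a)) κ) inferInstance
    hM.infinity (Le.refl hM.infinity) fun n hn => by_contra fun h2 => ?_).mono fun a ha => ?_)
  · have := In.mk' (tr hM.infinity hn)
    exact hc ⟨F, hF, n, hn, _, In.mem _, h2, fun a ha => (mem_sep.1 ha).2⟩
  · have := In.mk' (tr hκ.mem ha)
    obtain ⟨n, hn, h2⟩ := stat_sigma hκ (stat_above hκ (stat_true hκ) ha)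
      (fun n ξ => app (app F ξ) n = a) inferInstance fun ξ hξ h => h1 ξ hξ a h.2
    exact mem_bun.2 ⟨n, hn, mem_sep.2 ⟨ha, h2⟩⟩

end SplitP

open SplitP in
theorem split : S_Split := by
  intro M hM
  obtain ⟨κ, hκ⟩ := exists_hart (M := M) hM.infinity
  obtain ⟨F, hF, n, hn, U, hU, h1, h2⟩ := ulam hκ
  obtain ⟨g, hg, h3, h4⟩ := inj_of_not_le hκ hU h1
  have := In.mk' hκ.mem
  obtain ⟨h, hh, h5, h6⟩ := (le_index hκ).cardLE (In.mem _) hκ.mem hκ.ord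
  have := In.mk' hF
  have := In.mk' hg
  have := In.mk' hh
  have := In.mk' (tr hM.infinity hn)
  refine ⟨κ, ZFSet.sep (fun p => app (app F (snd p)) n = app g (app h (fst p)) ∧
    snd (fst (fst p)) ∈ snd p ∧ snd (fst p) ∈ snd p) (prod (prod (prod om κ) κ) κ), hκ, In.mem _,
    fun m hm i hi α hα => ?_, fun a b ξ ha hb => ?_, fun m i α ξ k => ?_⟩
  · have k1 : pair (pair m i) α ∈ prod (prod om κ) κ :=
      pair_mem_prod.2 ⟨pair_mem_prod.2 ⟨hm, hi⟩, hα⟩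
    refine stat_mono (stat_above hκ (stat_above hκ (h2 _ (h3 _ (h5.app_mem' k1))) hi) hα)
      fun ξ hξ k => mem_sep.2 ⟨pair_mem_prod.2 ⟨k1, hξ⟩, ?_⟩
    simpa only [fst_pair, snd_pair, and_assoc] using k
  · obtain ⟨k1, k2, -⟩ := mem_sep.1 ha
    obtain ⟨k3, k4, -⟩ := mem_sep.1 hb
    simp only [fst_pair, snd_pair] at k2 k4
    have k5 := (pair_mem_prod.1 k1).1
    have k6 := (pair_mem_prod.1 k3).1
    have k7 := h4 _ (h5.app_mem' k5) _ (h5.app_mem' k6) (k2.symm.trans k4)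
    exact h6 a b _ (h5.app_mem k5) (k7 ▸ h5.app_mem k6)
  · simpa only [fst_pair, snd_pair] using (mem_sep.1 k).2.2

end Pool.Agent.P.MP_0b3dfe_lc
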