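import Pool.Agent.P.MP_0b3dfe_lc.Main1
import Pool.Agent.P.MP_0b3dfe_lc.Split
import Pool.Agent.P.MP_0b3dfe_lc.AA
import Pool.Agent.P.MP_0b3dfe_lc.Inter
import Pool.Agent.P.MP_0b3dfe_lc.SatA
import Pool.Agent.P.MP_0b3dfe_lc.DefA
import Pool.Agent.P.MP_0b3dfe_lc.CaaSub
import Pool.Agent.P.MP_0b3dfe_lc.CaaZ2
import Pool.Agent.P.MP_0b3dfe_lc.Dec
import Pool.Agent.P.MP_0b3dfe_lc.Cnt
import Pool.Agent.P.MP_0b3dfe_lc.Pres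
import Pool.Agent.P.MP_0b3dfe_lc.Pat
import Pool.Agent.P.MP_0b3dfe_lc.HomP
import Pool.Agent.P.MP_0b3dfe_lc.NoAC
import Pool.Agent.P.MP_3ab3de_lc.MinCtm

/-! The main theorem. -/

namespace Pool.Agent.P.MP_0b3dfe_lc

open ZFSet Pool.Agent.P.MP_3ab3de_lc

theorem main : (∃ M : Set ZF, TModel M ∧ M.Countable) ∧
    ∀ M : Set ZF, TModel M → M.Countable →
      ∃ N : Set ZF, TModel N ∧ (∀ o : ZF, o.IsOrdinal → (o ∈ N ↔ o ∈ M)) ∧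
        (∃ (φ : Fml) (v : ℕ → ZF), (∀ k, v k ∈ N) ∧ ∀ n : ℕ, ∀ x ∈ N,
          x ∈ It N n ↔ Sat N φ (cons x (cons (Ordinal.toZFSet n) v))) ∧
        (∀ n, It N (n + 1) ≠ It N n) ∧ ZModel (⋂ n, It N n) ∧ ¬ Choice (⋂ n, It N n) :=
  have hL : S_LZ := lz satA (defA satA)
  ⟨ctm, main_of split inter (caaZ' hL) (dec' hL aa (caaZ' hL)) (caaSub satA hL) (pres cnt)
    (pat (pres cnt)) homP (noAC cnt)⟩

end Pool.Agent.P.MP_0b3dfe_lc
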