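import Pool.Agent.P.MP_0b3dfe_lc.St2
import Pool.Agent.P.MP_9a7e1f_lc.LMod

/-! Assembly: the iterated models are the extensions by the tails of the generic filter. -/

set_option linter.unusedSectionVars false
set_option synthInstance.maxSize 100000

namespace Pool.Agent.P.MP_0b3dfe_lc

open ZFSet Pool.Agent.P.MP_3ab3de_lc ForceP MP_9a7e1f_lc

variable {M : Set ZF} [hM : TModel M] {κ S n G : ZF}

theorem ord_ext {o : ZF} (h : o ∈ val G '' M) (ho : IsOrdinal o) : o ∈ M := by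
  obtain ⟨t, ht, rfl⟩ := h
  have := In.mk' ht
  refine tr (In.mem (insert (rk t) (rk t))) ((mem_succ_iff ho (rk_ord t)).2 ?_)
  rw [← ho.rank_le_iff_subset (rk_ord t), rank_rk]
  exact rank_val G t

theorem GX.ext_lev (X : GX M κ S n G) {m : ZF} (hm : m ∈ om) :
    val (MP_0b3dfe_lc.lev m G) '' M ⊆ val G '' M := by
  have := X.cx.model
  have := In.mk' X.cx.gen_mem
  have := In.mk' (X.cx.sub_ext (tr hM.infinity hm))
  exact ext_sub X.cx.sub_ext (In.mem _)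

theorem succ_of_subset {m : ZF} (hm : m ∈ om) (h : insert n n ⊆ m) (hn : n ∈ om) :
    ∃ k ∈ om, n ⊆ k ∧ m = insert k k := by
  obtain ⟨a, rfl⟩ := mem_omega.1 hm
  obtain ⟨b, rfl⟩ := mem_omega.1 hn
  have h1 := num_mem_num.1 (h (mem_insert _ _))
  obtain ⟨c, rfl⟩ : ∃ c, a = c + 1 := ⟨a - 1, by omega⟩
  refine ⟨num c, num_mem_omega c, fun x hx => ?_, rfl⟩
  obtain ⟨d, hd, rfl⟩ := mem_num.1 hx
  exact num_mem_num.2 (by omega)

theorem caa_eq (hZ : S_CaaZ) (hD : S_Dec) (hS : S_CaaSub) (hP : S_Pres) (hT : S_Pat) (hH : S_HomP)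
    (hL : VL M) (X : GX M κ S n G) : Caa (val G '' M) = val (lev (insert n n) G) '' M := by
  have hn' := omega_succ X.hn
  have X' := X.lev hn' (sub_ins n n)
  have := X.cx.model
  have := X'.cx.model
  refine Set.Subset.antisymm (hS _ _ (X.ext_lev hn')
    (fun o h ho => X'.cx.sub_ext (ord_ext h ho)) (hH M κ S n G X)) ?_
  obtain ⟨hC, -, hO⟩ := hZ (val G '' M)
  have h1 : M ⊆ Caa (val G '' M) := fun x hx => by
    obtain ⟨α, h1, h2, h3⟩ := hL x hx
    have := UI.mk' (hO α (X.cx.sub_ext h1) h2)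
    exact ztr (UI.mem (LS α)) h3
  have hκ := X.sys.hart
  have := In.mk' hκ.mem
  have h2 := hD _ κ (hP M κ S n G X).2 _ (h1 (In.mem (prod (prod om κ) κ))) S (h1 X.sys.mem)
  set T := ZFSet.sep (fun a => ¬ Stat (val G '' M) κ (fun ξ => pair a ξ ∈ S))
    (prod (prod om κ) κ) with hT'
  have key : ∀ p ∈ PP M κ S (insert n n), ∀ r a, pair r a ∈ p → ∀ ξ ∈ κ,
      (pair r ξ ∈ T ↔ InD (lev (insert n n) G) r ξ) := fun p hp r a h ξ hξ => by
    obtain ⟨-, h3, h4⟩ := mem_PP.1 hp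
    obtain ⟨m, hm, i, hi, rfl⟩ := row_At (h3.sub h)
    have h5 : insert n n ⊆ m := by simpa using h4 _ h
    obtain ⟨k, hk, h6, rfl⟩ := succ_of_subset hm h5 X.hn
    rw [hT', mem_sep, hT M κ S n G X k hk h6 i hi ξ hξ, X.inD_lev hn' (sub_ins n n) h5]
    simp [hm, hi, hξ]
  refine ext_sub h1 ?_
  have := UI.mk' h2
  have := UI.mk' (h1 (X.sys.PP_mem hn').1)
  have e : lev (insert n n) G = ZFSet.sep (fun p => (∀ r ξ, Pt p r ξ → pair r ξ ∈ T) ∧
      ∀ r ξ, pair r ξ ∈ T → ¬ Cv p r ξ) (PP M κ S (insert n n)) := by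
    ext p
    rw [mem_sep]
    constructor
    · intro hp
      have h3 := X'.gen.sub hp
      refine ⟨h3, fun r ξ h => (key p h3 r ξ h.1 ξ (pt_At ((X'.cond hp).sub h.1) h.2)).2 ⟨p, hp, h⟩,
        fun r ξ h ⟨a, b, h4, h5⟩ => X'.not_cv ((key p h3 r _ h4 ξ ?_).1 h) hp ⟨a, b, h4, h5⟩⟩
      exact (pair_mem_prod.1 (mem_sep.1 h).1).2
    · rintro ⟨h3, h4, h5⟩
      refine (X'.recover h3).2 ⟨fun r ξ h => (key p h3 r ξ h.1 ξ
        (pt_At ((mem_PP.1 h3).2.1.sub h.1) h.2)).1 (h4 r ξ h), fun r ξ ⟨a, b, h6, h7⟩ h => ?_⟩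
      obtain ⟨q, hq, h8⟩ := h
      exact h5 r ξ ((key p h3 r _ h6 ξ (pt_At ((X'.cond hq).sub h8.1) h8.2)).2 ⟨q, hq, h8⟩)
        ⟨a, b, h6, h7⟩
  rw [e]
  exact UI.mem _

theorem num_subset {a b : ℕ} (h : a ≤ b) : num a ⊆ num b := fun x hx => by
  obtain ⟨d, hd, rfl⟩ := mem_num.1 hx
  exact num_mem_num.2 (by omega)

theorem lev_empty (G : ZF) : lev ∅ G = G := by
  ext p
  simp [mem_lev]

/-- the extension by a tail -/
def WW (M : Set ZF) (G : ZF) (k : ℕ) : Set ZF := val (lev (num k) G) '' M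

namespace GX

variable (X : GX M κ S ∅ G)
include X

theorem lv (k : ℕ) : GX M κ S (num k) (MP_0b3dfe_lc.lev (num k) G) :=
  X.lev (num_mem_omega k) (empty_subset _)

theorem ww_anti {a b : ℕ} (h : a ≤ b) : WW M G b ⊆ WW M G a := by
  rw [WW, ← lev_lev (num_subset h)]
  exact (X.lv a).ext_lev (num_mem_omega b)

theorem mem_ww (hL : VL M) {a b : ℕ} (h : a ≤ b) (x : ZF) : x ∈ WW M G b ↔ ∃ α ∈ WW M G a,
    IsOrdinal α ∧ ∃ t ∈ LS α, x = val (MP_0b3dfe_lc.lev (num b)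
      (MP_0b3dfe_lc.lev (num a) G)) t := by
  rw [lev_lev (num_subset h)]
  constructor
  · rintro ⟨t, ht, rfl⟩
    obtain ⟨α, h1, h2, h3⟩ := hL t ht
    exact ⟨α, (X.lv a).cx.sub_ext h1, h2, t, h3, rfl⟩
  · rintro ⟨α, h1, h2, t, h3, rfl⟩
    have := In.mk' (ord_ext h1 h2)
    exact ⟨t, tr (In.mem (LS α)) h3, rfl⟩

theorem df_inter (hL : VL M) (a : ℕ) : Df (WW M G a) (fun v => v 0 ∈ ⋂ k, WW M G k) := by
  have : TModel (WW M G a) := (X.lv a).cx.model
  have : In (WW M G a) (MP_0b3dfe_lc.lev (num a) G) := In.mk' (X.lv a).cx.gen_mem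
  refine (inferInstance : Df (WW M G a) (fun v => ∀ m ∈ om, num a ⊆ m → ∃ α ∈ WW M G a,
    IsOrdinal α ∧ ∃ t ∈ LS α, v 0 = val (MP_0b3dfe_lc.lev m
      (MP_0b3dfe_lc.lev (num a) G)) t)).congr fun v _ => ?_
  rw [Set.mem_iInter]
  constructor
  · intro h m hm h1
    obtain ⟨b, rfl⟩ := mem_omega.1 hm
    exact (X.mem_ww hL (not_lt.1 fun h2 => mem_irrefl _ (h1 (num_mem_num.2 h2))) _).1 (h b)
  · exact fun h k => X.ww_anti (le_max_left k a) ((X.mem_ww hL (le_max_right k a) _).2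
      (h _ (num_mem_omega _) (num_subset (le_max_right k a))))

theorem df_seq (hL : VL M) : ∃ (φ : Fml) (v : Env), (∀ k, v k ∈ WW M G 0) ∧ ∀ (k : ℕ),
    ∀ x ∈ WW M G 0, x ∈ WW M G k ↔ Sat (WW M G 0) φ (cons x (cons (num k) v)) := by
  have : TModel (WW M G 0) := (X.lv 0).cx.model
  have : In (WW M G 0) (MP_0b3dfe_lc.lev (num 0) G) := In.mk' (X.lv 0).cx.gen_mem
  obtain ⟨φ, ρ, h⟩ := (inferInstance : Df (WW M G 0) (fun v => ∃ α ∈ WW M G 0,
    IsOrdinal α ∧ ∃ t ∈ LS α, v 0 = val (MP_0b3dfe_lc.lev (v 1)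
      (MP_0b3dfe_lc.lev (num 0) G)) t))
  refine ⟨φ.ren (fun n => Sum.elim (cns 0 fun _ => 1) (fun _ => n + 2) (ρ n)),
    fun n => Sum.elim (fun _ => ∅) Subtype.val (ρ n), ein_elim ein0 ρ, fun k x hx => ?_⟩
  refine ((X.mem_ww hL (Nat.zero_le k) x).trans (h (cons x fun _ => num k)
    (EIn.cons (fun _ => In.mem _) hx))).trans (Iff.trans ?_ (sat_ren _ _ _).symm)
  have : (fun n => cons x (cons (num k) fun n => Sum.elim (fun _ => ∅) Subtype.val (ρ n))
      (Sum.elim (cns 0 fun _ => 1) (fun _ => n + 2) (ρ n))) =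
      fun n => Sum.elim (cons x fun _ => num k) Subtype.val (ρ n) := by
    funext n
    rcases e : ρ n with j | c
    · cases j <;> rfl
    · simp [e]
  rw [this]

end GX

/-- the class of a coded real modulo finite changes -/
noncomputable def cls (G x : ZF) : ZF := ZFSet.sep (fun u => ∃ k ∈ om, ∀ m ∈ om, k ⊆ m →
  (m ∈ u ↔ InD G (pair m ∅) (app x m))) (powerset om)

theorem union_om {a b : ZF} (ha : a ∈ om) (hb : b ∈ om) : a ∪ b ∈ om := by
  rcases (isOrdinal_omega.mem ha).subset_total (isOrdinal_omega.mem hb) with h | h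
  · rwa [show a ∪ b = b from (union_sub h fun _ h => h).antisymm (sub_r _ _)]
  · rwa [show a ∪ b = a from (union_sub (fun _ h => h) h).antisymm (sub_l _ _)]

theorem GX.tm_cls (X : GX M κ S ∅ G) (a : ℕ) : Tm (WW M G a) (fun v => cls G (v 0)) := by
  have : TModel (WW M G a) := (X.lv a).cx.model
  have : In (WW M G a) (MP_0b3dfe_lc.lev (num a) G) := In.mk' (X.lv a).cx.gen_mem
  have key := fun m i ξ => X.inD_lev (k := m) (i := i) (ξ := ξ) (num_mem_omega a) (empty_subset _)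
  refine (inferInstance : Tm (WW M G a) (fun v => ZFSet.sep (fun u => ∃ k ∈ om, num a ⊆ k ∧
    ∀ m ∈ om, k ⊆ m → (m ∈ u ↔ InD (MP_0b3dfe_lc.lev (num a) G) (pair m ∅) (app (v 0) m)))
    (pw (WW M G a) om))).congr fun v hv => ?_
  ext u
  simp only [cls, mem_sep, mem_powerset, mem_pw]
  constructor
  · rintro ⟨h1, k, hk, h2⟩
    have h3 := union_om hk (num_mem_omega a)
    have h4 : ∀ m ∈ om, k ∪ num a ⊆ m →
        (m ∈ u ↔ InD (MP_0b3dfe_lc.lev (num a) G) (pair m ∅) (app (v 0) m)) := fun m hm h =>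
      (h2 m hm ((sub_l _ _).trans h)).trans (key _ _ _ ((sub_r _ _).trans h)).symm
    refine ⟨⟨h1, ?_⟩, _, h3, sub_r _ _, h4⟩
    generalize k ∪ num a = j at h3 h4
    have h5 : u ∩ j ∈ WW M G a := Fn.mem (((fn_iff (tr (TModel.infinity (N := WW M G a)) h3)).2
      ⟨j, h3, Le.refl (tr TModel.infinity h3)⟩).subset fun _ h => (mem_inter.1 h).2)
      fun y hy => tr TModel.infinity (h1 (mem_inter.1 hy).1)
    have := In.mk' h5
    have := In.mk' (hv 0)
    have := In.mk' (tr (TModel.infinity (N := WW M G a)) h3)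
    have e : u = u ∩ j ∪ ZFSet.sep (fun m => j ⊆ m ∧
        InD (MP_0b3dfe_lc.lev (num a) G) (pair m ∅) (app (v 0) m)) om := by
      ext m
      simp only [mem_union, mem_inter, mem_sep]
      constructor
      · intro h
        rcases (isOrdinal_omega.mem (h1 h)).mem_or_subset (isOrdinal_omega.mem h3) with h6 | h6
        exacts [Or.inl ⟨h, h6⟩, Or.inr ⟨h1 h, h6, (h4 m (h1 h) h6).1 h⟩]
      · rintro (h | ⟨h6, h7, h8⟩)
        exacts [h.1, (h4 m h6 h7).2 h8]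
    rw [e]
    exact In.mem _
  · rintro ⟨⟨h1, -⟩, k, hk, h2, h3⟩
    exact ⟨h1, k, hk, fun m hm h => (h3 m hm h).trans (key _ _ _ (h2.trans h))⟩

theorem GX.not_choice (X : GX M κ S ∅ G) (hN : S_NoAC) : ¬ Choice (⋂ k, WW M G k) := by
  intro hC
  have := In.mk' X.sys.hart.mem
  have h0 : ZFSet.sep (IsFunc om κ) (pw M (prod om κ)) ∈ M := In.mem _
  set Xs := ZFSet.sep (IsFunc om κ) (pw M (prod om κ)) with hX
  obtain ⟨f, hf, h1⟩ := hC (img (cls G) Xs) (Set.mem_iInter.2 fun a => by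
    have : TModel (WW M G a) := (X.lv a).cx.model
    exact img_mem' (X.tm_cls a) ((X.lv a).cx.sub_ext h0))
  have := In.mk' h0
  refine hN M κ S G X (prod Xs om) (In.mem _)
    (ZFSet.sep (fun z => snd z ∈ app f (cls G (fst z))) (prod Xs om)) sep_subset
    (fun n hn => ?_) fun x hx h2 => ?_
  · obtain ⟨a, rfl⟩ := mem_omega.1 hn
    have : TModel (WW M G a) := (X.lv a).cx.model
    have := fun s [Tm (WW M G a) s] => (X.tm_cls a).one s
    have : In (WW M G a) Xs := In.mk' ((X.lv a).cx.sub_ext h0)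
    have := In.mk' (Set.mem_iInter.1 hf a)
    exact In.mem (M := WW M G a) _
  · have h3 : x ∈ Xs := mem_sep.2 ⟨mem_pw.2 ⟨h2.1, hx⟩, h2⟩
    obtain ⟨y, h4, h5, h6⟩ := h1 _ (img_mem h3)
      ⟨ZFSet.sep (fun m => InD G (pair m ∅) (app x m)) om, mem_sep.2 ⟨mem_powerset.2 sep_subset,
        ∅, omega_zero, fun m hm _ => by simp [hm]⟩⟩
    obtain ⟨-, k, hk, h7⟩ := mem_sep.1 h4
    refine ⟨k, hk, fun m hm h => ?_⟩
    rw [mem_sep, fst_pair, snd_pair, app_eq h5 h6, h7 m hm h]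
    simp [h3, hm]

theorem main_of (h0 : S_Split) (hI : S_Inter) (hZ : S_CaaZ) (hD : S_Dec) (hS : S_CaaSub)
    (hP : S_Pres) (hT : S_Pat) (hH : S_HomP) (hN : S_NoAC) (M : Set ZF) (hM : TModel M)
    (hc : M.Countable) : ∃ N : Set ZF, TModel N ∧ (∀ o, IsOrdinal o → (o ∈ N ↔ o ∈ M)) ∧
      (∃ (φ : Fml) (v : ℕ → ZF), (∀ k, v k ∈ N) ∧ ∀ (n : ℕ), ∀ x ∈ N,
        x ∈ It N n ↔ Sat N φ (cons x (cons (Ordinal.toZFSet n) v))) ∧
      (∀ n, It N (n + 1) ≠ It N n) ∧ ZModel (⋂ n, It N n) ∧ ¬ Choice (⋂ n, It N n) := by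
  obtain ⟨hM0, hL⟩ := lmod M
  obtain ⟨κ, S, hs⟩ := h0 (LM M)
  obtain ⟨G, X, -⟩ := hs.exists_gx (hc.mono fun _ => LModP.subM) omega_zero
    (mem_PP.2 ⟨empty_mem, cond_empty, fun _ h => absurd h (notMem_empty _)⟩)
  have e : ∀ n, It (WW (LM M) G 0) n = WW (LM M) G n := fun n => by
    induction n with
    | zero => rfl
    | succ n ih =>
      change Caa (It (WW (LM M) G 0) n) = _
      rw [ih, WW, caa_eq hZ hD hS hP hT hH hL (X.lv n), lev_lev (sub_ins _ _)]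
      rfl
  have h1 := X.not_choice hN
  refine ⟨WW (LM M) G 0, (X.lv 0).cx.model, fun o ho => ⟨fun h => LModP.subM (ord_ext h ho),
    fun h => (X.lv 0).cx.sub_ext (LModP.ordL o h ho)⟩, ?_, fun n h => h1 ?_, ?_, ?_⟩
  · simpa only [e, ← num_toZFSet] using X.df_seq hL
  · have h2 : ∀ k, It (WW (LM M) G 0) (n + k) = It (WW (LM M) G 0) n := fun k => by
      induction k with
      | zero => rfl
      | succ k ih => exact (congrArg Caa ih).trans h
    have h3 : ⋂ k, WW (LM M) G k = WW (LM M) G n :=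
      (Set.iInter_subset _ n).antisymm (Set.subset_iInter fun k => by
        rw [← e n, ← h2 k, e]
        exact X.ww_anti (Nat.le_add_left k n))
    rw [h3]
    exact (X.lv n).cx.model.choice
  · simp only [e]
    exact hI _ (fun n => (X.lv n).cx.model) (X.df_inter hL)
  · simpa only [e] using h1

end Pool.Agent.P.MP_0b3dfe_lc
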