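import Pool.Agent.P.MP_0b3dfe_lc.U3

/-! Conditions: finite modifications of finitely many columns of points, with intervals. -/

set_option synthInstance.maxSize 100000

namespace Pool.Agent.P.MP_0b3dfe_lc

open ZFSet Pool.Agent.P.MP_3ab3de_lc

/-- atoms below `γ` -/
noncomputable def At (γ : ZF) : ZF := prod (prod om γ) (γ ∪ prod γ γ)

/-- `ξ` is a point of the row `r` -/
def Pt (p r ξ : ZF) : Prop := pair r ξ ∈ p ∧ IsOrdinal ξ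

/-- `α` is covered by an interval of the row `r` -/
def Cv (p r α : ZF) : Prop := ∃ η η', pair r (pair η η') ∈ p ∧ η ∈ α ∧ α ⊆ η'

/-- atoms of the columns listed in `F` -/
def InCol (F : Set ZF) (z : ZF) : Prop :=
  ∃ k ξ, pair k ξ ∈ F ∧ ∃ m ∈ om, ∃ i ∈ ξ, k ⊆ m ∧ z = pair (pair m i) ξ

/-- `p` is a finite modification of finitely many columns -/
def NC (κ p : ZF) : Prop :=
  ∃ F : Set ZF, F.Finite ∧ (∀ x ∈ F, x ∈ prod om κ) ∧ {z | ¬ (z ∈ p ↔ InCol F z)}.Finite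

/-- the side condition on a point -/
def Ok (S p m ξ : ZF) : Prop :=
  ∀ i α, pair (pair (pair (insert m m) i) α) ξ ∈ S → Cv p (pair (insert m m) i) α

structure Cond (κ S p : ZF) : Prop where
  sub : p ⊆ At κ
  nc : NC κ p
  con : ∀ r ξ, Pt p r ξ → ¬ Cv p r ξ
  ok : ∀ m j ξ, Pt p (pair m j) ξ → Ok S p m ξ

/-- limit ordinal -/
structure Lm (δ : ZF) : Prop where
  ord : IsOrdinal δ
  ne : δ ≠ ∅
  up : ∀ β ∈ δ, ∃ ζ ∈ δ, β ∈ ζ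

/-- rows from level `n` on -/
noncomputable def tail (n p : ZF) : ZF := ZFSet.sep (fun z => n ⊆ fst (fst z)) p

/-- the column at `δ` from level `n` on -/
noncomputable def col (n δ : ZF) : ZF :=
  img (fun r => pair r δ) (prod (ZFSet.sep (fun m => n ⊆ m) om) δ)

variable {κ S p q r m n i j ξ η η' α γ δ z : ZF}

theorem not_ord_pair (a b : ZF) : ¬ IsOrdinal (pair a b) := fun h => by
  have h1 : ({a} : ZF) ∈ pair a b := by simp [pair]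
  have h2 : (∅ : ZF) ∈ pair a b := by
    rcases isOrdinal_empty.mem_or_subset h with h2 | h2
    exacts [h2, absurd (h2 h1) (notMem_empty _)]
  simp only [pair, mem_insert_iff, mem_singleton] at h2
  rcases h2 with h2 | h2 <;> exact notMem_empty a (by rw [h2]; simp)

theorem mem_At : z ∈ At γ ↔ ∃ m ∈ om, ∃ i ∈ γ, (∃ ξ ∈ γ, z = pair (pair m i) ξ) ∨
    ∃ η ∈ γ, ∃ η' ∈ γ, z = pair (pair m i) (pair η η') := by
  simp only [At, mem_prod, mem_union]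
  constructor
  · rintro ⟨_, ⟨m, hm, i, hi, rfl⟩, a, h | ⟨b, hb, c, hc, rfl⟩, rfl⟩
    exacts [⟨m, hm, i, hi, Or.inl ⟨a, h, rfl⟩⟩, ⟨m, hm, i, hi, Or.inr ⟨b, hb, c, hc, rfl⟩⟩]
  · rintro ⟨m, hm, i, hi, ⟨a, h, rfl⟩ | ⟨b, hb, c, hc, rfl⟩⟩
    exacts [⟨_, ⟨m, hm, i, hi, rfl⟩, a, Or.inl h, rfl⟩,
      ⟨_, ⟨m, hm, i, hi, rfl⟩, _, Or.inr ⟨b, hb, c, hc, rfl⟩, rfl⟩]

theorem pt_mem_At (hm : m ∈ om) (hi : i ∈ γ) (h : ξ ∈ γ) : pair (pair m i) ξ ∈ At γ :=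
  mem_At.2 ⟨m, hm, i, hi, Or.inl ⟨ξ, h, rfl⟩⟩

theorem iv_mem_At (hm : m ∈ om) (hi : i ∈ γ) (h : η ∈ γ) (h' : η' ∈ γ) :
    pair (pair m i) (pair η η') ∈ At γ :=
  mem_At.2 ⟨m, hm, i, hi, Or.inr ⟨η, h, η', h', rfl⟩⟩

theorem row_At {a : ZF} (h : pair r a ∈ At γ) : ∃ m ∈ om, ∃ i ∈ γ, r = pair m i :=
  mem_prod.1 (pair_mem_prod.1 h).1

theorem row_At' {a : ZF} (h : pair (pair m i) a ∈ At γ) : m ∈ om ∧ i ∈ γ :=
  pair_mem_prod.1 (pair_mem_prod.1 h).1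

theorem pt_At (h : pair r ξ ∈ At γ) (ho : IsOrdinal ξ) : ξ ∈ γ := by
  rcases mem_union.1 (pair_mem_prod.1 h).2 with h | h
  · exact h
  · obtain ⟨a, -, b, -, rfl⟩ := mem_prod.1 h
    exact absurd ho (not_ord_pair a b)

theorem iv_At (h : pair r (pair η η') ∈ At γ) (ho : IsOrdinal γ) : η ∈ γ ∧ η' ∈ γ := by
  rcases mem_union.1 (pair_mem_prod.1 h).2 with h | h
  exacts [absurd (ho.mem h) (not_ord_pair _ _), pair_mem_prod.1 h]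

theorem At_mono (h : γ ⊆ δ) : At γ ⊆ At δ := fun z hz => by
  obtain ⟨m, hm, i, hi, ⟨a, h1, rfl⟩ | ⟨b, hb, c, hc, rfl⟩⟩ := mem_At.1 hz
  exacts [pt_mem_At hm (h hi) (h h1), iv_mem_At hm (h hi) (h hb) (h hc)]

theorem Pt.mono (h : Pt p r ξ) (h' : p ⊆ q) : Pt q r ξ := ⟨h' h.1, h.2⟩

theorem Cv.mono (h : Cv p r ξ) (h' : p ⊆ q) : Cv q r ξ := by
  obtain ⟨a, b, h1, h2⟩ := h
  exact ⟨a, b, h' h1, h2⟩

theorem Ok.mono (h : Ok S p m ξ) (h' : p ⊆ q) : Ok S q m ξ := fun i α h1 => (h i α h1).mono h'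

theorem pt_union : Pt (p ∪ q) r ξ ↔ Pt p r ξ ∨ Pt q r ξ := by
  simp only [Pt, mem_union, or_and_right]

theorem cv_union : Cv (p ∪ q) r ξ ↔ Cv p r ξ ∨ Cv q r ξ := by
  simp only [Cv, mem_union, or_and_right, exists_or]

theorem sub_l (p q : ZF) : p ⊆ p ∪ q := fun _ h => mem_union.2 (Or.inl h)

theorem sub_r (p q : ZF) : q ⊆ p ∪ q := fun _ h => mem_union.2 (Or.inr h)

theorem union_sub {a : ZF} (h : p ⊆ a) (h' : q ⊆ a) : p ∪ q ⊆ a := fun _ hz =>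
  (mem_union.1 hz).elim (fun h1 => h h1) fun h1 => h' h1

theorem Lm.bound (h : Lm δ) {X : Set ZF} (hX : X.Finite) (Q : ZF → ZF → Prop)
    (hQ : ∀ x a b, a ⊆ b → Q x a → Q x b) (H : ∀ x ∈ X, ∃ γ ∈ δ, Q x γ) :
    ∃ γ ∈ δ, ∀ x ∈ X, Q x γ := by
  induction X, hX using Set.Finite.induction_on with
  | empty =>
    obtain ⟨γ, hγ⟩ := (eq_empty_or_nonempty δ).resolve_left h.ne
    exact ⟨γ, hγ, fun _ h => absurd h (Set.notMem_empty _)⟩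
  | @insert a X _ _ ih =>
    obtain ⟨γ, h1, h2⟩ := ih fun x hx => H x (Set.mem_insert_of_mem _ hx)
    obtain ⟨γ', h3, h4⟩ := H a (Set.mem_insert _ _)
    rcases (h.ord.mem h1).subset_total (h.ord.mem h3) with h5 | h5
    · exact ⟨γ', h3, by rintro x (rfl | hx); exacts [h4, hQ _ _ _ h5 (h2 x hx)]⟩
    · exact ⟨γ, h1, by rintro x (rfl | hx); exacts [hQ _ _ _ h5 h4, h2 x hx]⟩

theorem Lm.three (h : Lm δ) {a b c : ZF} (ha : a ∈ δ) (hb : b ∈ δ) (hc : c ∈ δ) :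
    ∃ γ ∈ δ, a ∈ γ ∧ b ∈ γ ∧ c ∈ γ := by
  obtain ⟨γ, h1, h2⟩ := h.bound (X := {a, b, c}) (Set.toFinite _) (fun x γ => x ∈ γ)
    (fun _ _ _ h h' => h h') (by
      rintro x (rfl | rfl | rfl)
      exacts [h.up _ ha, h.up _ hb, h.up _ hc])
  exact ⟨γ, h1, h2 a (by simp), h2 b (by simp), h2 c (by simp)⟩

theorem Lm.at (h : Lm δ) (hz : z ∈ At δ) : ∃ γ ∈ δ, z ∈ At γ := by
  obtain ⟨m, hm, i, hi, ⟨a, h1, rfl⟩ | ⟨b, hb, c, hc, rfl⟩⟩ := mem_At.1 hz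
  · obtain ⟨γ, h2, h3, h4, -⟩ := h.three hi h1 h1
    exact ⟨γ, h2, pt_mem_At hm h3 h4⟩
  · obtain ⟨γ, h2, h3, h4, h5⟩ := h.three hi hb hc
    exact ⟨γ, h2, iv_mem_At hm h3 h4 h5⟩

theorem NC.fin (h : NC κ p) (h' : {z | ¬ (z ∈ p ↔ z ∈ q)}.Finite) : NC κ q := by
  obtain ⟨F, h1, h2, h3⟩ := h
  refine ⟨F, h1, h2, (h3.union h').subset fun z hz => ?_⟩
  simp only [Set.mem_union, Set.mem_ofPred_eq] at hz ⊢
  tauto

theorem NC.union (h : NC κ p) (h' : NC κ q) : NC κ (p ∪ q) := by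
  obtain ⟨F, h1, h2, h3⟩ := h
  obtain ⟨F', h4, h5, h6⟩ := h'
  refine ⟨F ∪ F', h1.union h4, fun x hx => hx.elim (h2 x) (h5 x),
    (h3.union h6).subset fun z hz => ?_⟩
  have : InCol (F ∪ F') z ↔ InCol F z ∨ InCol F' z := by
    simp only [InCol, Set.mem_union, or_and_right, exists_or]
  simp only [Set.mem_union, Set.mem_ofPred_eq, mem_union, this] at hz ⊢
  tauto

theorem NC.row (h : NC κ p) (r : ZF) : {a | pair r a ∈ p}.Finite := by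
  obtain ⟨F, h1, -, h3⟩ := h
  refine ((h1.image snd).union (h3.image snd)).subset fun a ha => ?_
  by_cases h : InCol F (pair r a)
  · obtain ⟨k, ξ, h4, m, -, i, -, -, e⟩ := h
    exact Or.inl ⟨_, h4, by rw [snd_pair, (pair_inj.1 e).2]⟩
  · exact Or.inr ⟨pair r a, fun h' => h (h'.1 ha), snd_pair _ _⟩

theorem NC.ivs (h : NC κ p) (ho : IsOrdinal κ) :
    {z | z ∈ p ∧ ∃ r η η', z = pair r (pair η η')}.Finite := by
  obtain ⟨F, -, h2, h3⟩ := h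
  refine h3.subset ?_
  rintro _ ⟨h4, r, η, η', rfl⟩ h5
  obtain ⟨k, ξ, h6, m, -, i, -, -, e⟩ := h5.1 h4
  exact not_ord_pair η η' ((pair_inj.1 e).2 ▸ ho.mem (pair_mem_prod.1 (h2 _ h6)).2)

theorem mem_tail : z ∈ tail n p ↔ z ∈ p ∧ n ⊆ fst (fst z) := mem_sep

theorem pair_mem_tail {a : ZF} : pair (pair m i) a ∈ tail n p ↔ pair (pair m i) a ∈ p ∧ n ⊆ m := by
  simp [mem_tail]

theorem tail_sub (n p : ZF) : tail n p ⊆ p := sep_subset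

theorem tail_mono (h : p ⊆ q) : tail n p ⊆ tail n q := fun _ hz =>
  mem_tail.2 ⟨h (mem_tail.1 hz).1, (mem_tail.1 hz).2⟩

theorem NC.tl (h : NC κ p) (hn : n ∈ om) : NC κ (tail n p) := by
  obtain ⟨F, h1, h2, h3⟩ := h
  refine ⟨(fun x => pair (fst x ∪ n) (snd x)) '' F, h1.image _, ?_, h3.subset fun z hz => ?_⟩
  · rintro _ ⟨x, hx, rfl⟩
    obtain ⟨k, hk, ξ, hξ, rfl⟩ := mem_prod.1 (h2 x hx)
    simp only [fst_pair, snd_pair]
    refine pair_mem_prod.2 ⟨?_, hξ⟩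
    rcases (isOrdinal_omega.mem hk).subset_total (isOrdinal_omega.mem hn) with h | h
    · rwa [show k ∪ n = n from (union_sub h fun _ h => h).antisymm (sub_r _ _)]
    · rwa [show k ∪ n = k from (union_sub (fun _ h => h) h).antisymm (sub_l _ _)]
  · have : InCol ((fun x => pair (fst x ∪ n) (snd x)) '' F) z ↔ InCol F z ∧ n ⊆ fst (fst z) := by
      constructor
      · rintro ⟨k, ξ, ⟨x, hx, e⟩, m, hm, i, hi, h4, rfl⟩
        obtain ⟨k', -, ξ', -, rfl⟩ := mem_prod.1 (h2 x hx)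
        simp only [fst_pair, snd_pair, pair_inj] at e ⊢
        obtain ⟨rfl, rfl⟩ := e
        exact ⟨⟨k', ξ', hx, m, hm, i, hi, (sub_l _ _).trans h4, rfl⟩, (sub_r _ _).trans h4⟩
      · rintro ⟨⟨k, ξ, hx, m, hm, i, hi, h4, rfl⟩, h5⟩
        simp only [fst_pair] at h5
        exact ⟨k ∪ n, ξ, ⟨_, hx, by simp⟩, m, hm, i, hi, union_sub h4 h5, rfl⟩
    simp only [Set.mem_ofPred_eq, mem_tail, this] at hz ⊢
    tauto

theorem inCol_cut {F : Set ZF} (hκ : IsOrdinal κ) (ho : IsOrdinal δ) (h2 : ∀ x ∈ F, x ∈ prod om κ) :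
    InCol {x | x ∈ F ∧ snd x ∈ δ} z ↔ InCol F z ∧ z ∈ At δ := by
  constructor
  · rintro ⟨k, ξ, ⟨hx, h3⟩, m, hm, i, hi, h4, rfl⟩
    rw [snd_pair] at h3
    exact ⟨⟨k, ξ, hx, m, hm, i, hi, h4, rfl⟩, pt_mem_At hm (ho.mem_trans hi h3) h3⟩
  · rintro ⟨⟨k, ξ, hx, m, hm, i, hi, h4, rfl⟩, h5⟩
    exact ⟨k, ξ, ⟨hx, by simpa using pt_At h5 (hκ.mem (pair_mem_prod.1 (h2 _ hx)).2)⟩,
      m, hm, i, hi, h4, rfl⟩

theorem NC.cut (h : NC κ p) (hκ : IsOrdinal κ) (ho : IsOrdinal δ) : NC κ (p ∩ At δ) := by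
  obtain ⟨F, h1, h2, h3⟩ := h
  refine ⟨{x | x ∈ F ∧ snd x ∈ δ}, h1.subset fun _ h => h.1, fun x hx => h2 x hx.1,
    h3.subset fun z hz => ?_⟩
  simp only [Set.mem_ofPred_eq, mem_inter, inCol_cut hκ ho h2] at hz ⊢
  tauto

theorem NC.bdd (h : NC κ p) (hκ : IsOrdinal κ) (hδ : Lm δ) : ∃ γ ∈ δ, p ∩ At δ ⊆ At γ := by
  obtain ⟨F, h1, h2, h3⟩ := h
  obtain ⟨γ, h4, h5⟩ := hδ.bound (h1.union h3) (fun x γ => (snd x ∈ δ → snd x ∈ γ) ∧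
    (x ∈ At δ → x ∈ At γ)) (fun x a b h h' => ⟨fun h1 => h (h'.1 h1), fun h1 => At_mono h (h'.2 h1)⟩)
    fun x _ => by
      obtain ⟨γ, hγ⟩ := (eq_empty_or_nonempty δ).resolve_left hδ.ne
      obtain ⟨a, h4, h5⟩ : ∃ a ∈ δ, snd x ∈ δ → snd x ∈ a := by
        by_cases h : snd x ∈ δ
        exacts [(hδ.up _ h).imp fun _ h => ⟨h.1, fun _ => h.2⟩, ⟨γ, hγ, fun h' => absurd h' h⟩]
      obtain ⟨b, h6, h7⟩ : ∃ a ∈ δ, x ∈ At δ → x ∈ At a := by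
        by_cases h : x ∈ At δ
        exacts [(hδ.at h).imp fun _ h => ⟨h.1, fun _ => h.2⟩, ⟨γ, hγ, fun h' => absurd h' h⟩]
      obtain ⟨c, h8, h9, h10, -⟩ := hδ.three h4 h6 h6
      exact ⟨c, h8, fun h => (hδ.ord.mem h8).mem_trans (h5 h) h9,
        fun h => At_mono ((hδ.ord.mem h8).subset_of_mem h10) (h7 h)⟩
  refine ⟨γ, h4, fun z hz => ?_⟩
  obtain ⟨h6, h7⟩ := mem_inter.1 hz
  by_cases h : InCol F z
  · obtain ⟨k, ξ, hx, m, hm, i, hi, -, rfl⟩ := h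
    have h8 := (h5 _ (Or.inl hx)).1
    rw [snd_pair] at h8
    have h9 := h8 (pt_At h7 (hκ.mem (pair_mem_prod.1 (h2 _ hx)).2))
    exact pt_mem_At hm ((hδ.ord.mem h4).mem_trans hi h9) h9
  · exact (h5 z (Or.inr fun h' => h (h'.1 h6))).2 h7

theorem mem_col : z ∈ col n δ ↔ ∃ m ∈ om, ∃ i ∈ δ, n ⊆ m ∧ z = pair (pair m i) δ := by
  simp only [col, mem_img, mem_prod, mem_sep]
  constructor
  · rintro ⟨_, ⟨m, ⟨h1, h2⟩, i, hi, rfl⟩, rfl⟩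
    exact ⟨m, h1, i, hi, h2, rfl⟩
  · rintro ⟨m, h1, i, hi, h2, rfl⟩
    exact ⟨_, ⟨m, ⟨h1, h2⟩, i, hi, rfl⟩, rfl⟩

theorem nc_col (hn : n ∈ om) (hδ : δ ∈ κ) : NC κ (col n δ) := by
  refine ⟨{pair n δ}, Set.toFinite _, by simp [hn, hδ], Set.finite_empty.subset fun z hz => hz ?_⟩
  rw [mem_col]
  constructor
  · exact fun h => ⟨n, δ, rfl, h⟩
  · rintro ⟨k, ξ, e, h⟩
    obtain ⟨rfl, rfl⟩ := pair_inj.1 e
    exact h

theorem cond_empty : Cond κ S ∅ :=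
  ⟨empty_subset _, ⟨∅, Set.finite_empty, by simp, by simp [InCol]⟩,
    fun _ _ h => absurd h.1 (notMem_empty _), fun _ _ _ h => absurd h.1 (notMem_empty _)⟩

theorem Cond.union (hp : Cond κ S p) (hq : Cond κ S q) (h1 : ∀ r ξ, Pt p r ξ → ¬ Cv q r ξ)
    (h2 : ∀ r ξ, Pt q r ξ → ¬ Cv p r ξ) : Cond κ S (p ∪ q) := by
  refine ⟨union_sub hp.sub hq.sub, hp.nc.union hq.nc, fun r ξ h3 h4 => ?_, fun m j ξ h => ?_⟩
  · rcases pt_union.1 h3 with h3 | h3 <;> rcases cv_union.1 h4 with h4 | h4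
    exacts [hp.con r ξ h3 h4, h1 r ξ h3 h4, h2 r ξ h3 h4, hq.con r ξ h3 h4]
  · rcases pt_union.1 h with h | h
    exacts [(hp.ok m j ξ h).mono (sub_l _ _), (hq.ok m j ξ h).mono (sub_r _ _)]

theorem Cond.union' (hp : Cond κ S p) (hq : Cond κ S q) (hr : Cond κ S r) (h1 : p ⊆ r)
    (h2 : q ⊆ r) : Cond κ S (p ∪ q) :=
  hp.union hq (fun a ξ h3 h4 => hr.con a ξ (h3.mono h1) (h4.mono h2))
    fun a ξ h3 h4 => hr.con a ξ (h3.mono h2) (h4.mono h1)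

theorem Cv.tl (h : Cv p (pair m i) ξ) (hn : n ⊆ m) : Cv (tail n p) (pair m i) ξ := by
  obtain ⟨a, b, h1, h2⟩ := h
  exact ⟨a, b, pair_mem_tail.2 ⟨h1, hn⟩, h2⟩

theorem Cond.tl (hp : Cond κ S p) (hn : n ∈ om) : Cond κ S (tail n p) :=
  ⟨(tail_sub n p).trans hp.sub, hp.nc.tl hn,
    fun r ξ h1 h2 => hp.con r ξ (h1.mono (tail_sub n p)) (h2.mono (tail_sub n p)),
    fun m j ξ h i α h1 => (hp.ok m j ξ (h.mono (tail_sub n p)) i α h1).tl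
      ((pair_mem_tail.1 h.1).2.trans fun _ h => mem_insert_of_mem _ h)⟩

/-- amalgamation over a tail -/
theorem Cond.amal (hp : Cond κ S p) (hq : Cond κ S q) (h1 : tail n p ⊆ q)
    (h2 : ∀ z ∈ q, n ⊆ fst (fst z)) : Cond κ S (p ∪ q) := by
  refine hp.union hq (fun r ξ h3 h4 => hq.con r ξ ⟨h1 (mem_tail.2 ⟨h3.1, ?_⟩), h3.2⟩ h4)
    fun r ξ h3 ⟨a, b, h4, h5⟩ => hq.con r ξ h3 ⟨a, b, h1 (mem_tail.2 ⟨h4, ?_⟩), h5⟩
  · obtain ⟨a, b, h4, -⟩ := h4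
    simpa using h2 _ h4
  · simpa using h2 _ h3.1

theorem Cond.cv_cut (hq : Cond κ S q) (hκ : IsOrdinal κ) (ho : IsOrdinal δ)
    (h : Pt q (pair m i) δ) (hi : i ∈ δ) (hξ : ξ ∈ δ) (h1 : Cv q (pair m i) ξ) :
    Cv (q ∩ At δ) (pair m i) ξ := by
  obtain ⟨a, b, h2, h3, h4⟩ := h1
  have h5 := ho.mem_trans h3 hξ
  have h6 := iv_At (hq.sub h2) hκ
  refine ⟨a, b, mem_inter.2 ⟨h2, iv_mem_At (row_At' (hq.sub h2)).1 hi h5 ?_⟩, h3, h4⟩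
  exact ((hκ.mem h6.2).mem_or_subset ho).resolve_right fun h7 => hq.con _ _ h ⟨a, b, h2, h5, h7⟩

theorem Cond.cut (hq : Cond κ S q) (hκ : IsOrdinal κ) (ho : IsOrdinal δ)
    (hS : ∀ m i α ξ, pair (pair (pair m i) α) ξ ∈ S → i ∈ ξ ∧ α ∈ ξ)
    (h : col n δ ⊆ q) (hn : ∀ z ∈ q, n ⊆ fst (fst z)) : Cond κ S (q ∩ At δ) := by
  have hs : q ∩ At δ ⊆ q := fun _ h => (mem_inter.1 h).1
  refine ⟨hs.trans hq.sub, hq.nc.cut hκ ho, fun r ξ h1 h2 => hq.con r ξ (h1.mono hs) (h2.mono hs),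
    fun m j ξ h1 i α h2 => ?_⟩
  have h3 := (mem_inter.1 h1.1).2
  have h4 := pt_At h3 h1.2
  have h5 := ho.mem_trans (hS _ _ _ _ h2).1 h4
  have h6 : n ⊆ m := by simpa using hn _ (hs h1.1)
  exact hq.cv_cut hκ ho ⟨h (mem_col.2 ⟨_, omega_succ (row_At' h3).1, i, h5,
    h6.trans fun _ h => mem_insert_of_mem _ h, rfl⟩), ho⟩ h5 (ho.mem_trans (hS _ _ _ _ h2).2 h4)
    (hq.ok m j ξ (h1.mono hs) i α h2)

/-- every extension of the cut below `δ` is compatible -/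
theorem Cond.cut_union (hq : Cond κ S q) (hp : Cond κ S p) (hκ : IsOrdinal κ) (ho : IsOrdinal δ)
    (h : col n δ ⊆ q) (hn : ∀ z ∈ q, n ⊆ fst (fst z)) (h1 : q ∩ At δ ⊆ p) (h2 : p ⊆ At δ) :
    Cond κ S (p ∪ q) := by
  refine hp.union hq (fun r ξ h3 h4 => hp.con r ξ h3 ?_) fun r ξ h3 h4 => hp.con r ξ ?_ h4
  · obtain ⟨m, hm, i, hi, rfl⟩ := row_At (h2 h3.1)
    have h5 : n ⊆ m := by
      obtain ⟨a, b, h4, -⟩ := h4
      simpa using hn _ h4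
    exact (hq.cv_cut hκ ho ⟨h (mem_col.2 ⟨m, hm, i, hi, h5, rfl⟩), ho⟩ hi
      (pt_At (h2 h3.1) h3.2) h4).mono h1
  · obtain ⟨a, b, h4, -, h5⟩ := h4
    obtain ⟨m, hm, i, hi, rfl⟩ := row_At (h2 h4)
    have h6 := (iv_At (h2 h4) ho).2
    exact ⟨h1 (mem_inter.2 ⟨h3.1, pt_mem_At hm hi (h3.2.mem_of_subset_of_mem ho h5 h6)⟩), h3.2⟩

theorem not_cv_of_At (hp : p ⊆ At δ) (ho : IsOrdinal δ) : ¬ Cv p r δ := by
  rintro ⟨a, b, h1, -, h2⟩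
  exact mem_irrefl b (h2 (iv_At (hp h1) ho).2)

theorem not_cv_col (ho : IsOrdinal δ) : ¬ Cv (col n δ) r ξ := by
  rintro ⟨a, b, h1, -⟩
  obtain ⟨m, -, i, -, -, e⟩ := mem_col.1 h1
  exact not_ord_pair a b ((pair_inj.1 e).2 ▸ ho)

theorem Cond.addcol (hp : Cond κ S p) (hκ : IsOrdinal κ) (hn : n ∈ om) (hδ : δ ∈ κ)
    (h1 : p ⊆ At δ) (h2 : ∀ m, n ⊆ m → Ok S p m δ) : Cond κ S (p ∪ col n δ) := by
  have ho := hκ.mem hδ
  refine ⟨union_sub hp.sub fun z hz => ?_, hp.nc.union (nc_col hn hδ), fun r ξ h3 h4 => ?_,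
    fun m j ξ h => ?_⟩
  · obtain ⟨m, hm, i, hi, -, rfl⟩ := mem_col.1 hz
    exact pt_mem_At hm (hκ.mem_trans hi hδ) hδ
  · have h4 := (cv_union.1 h4).resolve_right (not_cv_col ho)
    rcases pt_union.1 h3 with h3 | h3
    · exact hp.con r ξ h3 h4
    · obtain ⟨m, -, i, -, -, e⟩ := mem_col.1 h3.1
      exact not_cv_of_At h1 ho ((pair_inj.1 e).2 ▸ h4)
  · rcases pt_union.1 h with h | h
    · exact (hp.ok m j ξ h).mono (sub_l _ _)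
    · obtain ⟨m', -, i, -, h3, e⟩ := mem_col.1 h.1
      simp only [pair_inj] at e
      obtain ⟨⟨rfl, rfl⟩, rfl⟩ := e
      exact (h2 m h3).mono (sub_l _ _)

theorem NC.insert (h : NC κ p) (z : ZF) : NC κ (insert z p) :=
  h.fin ((Set.finite_singleton z).subset fun x hx => by
    simp only [Set.mem_ofPred_eq, mem_insert_iff, Set.mem_singleton_iff] at hx ⊢
    tauto)

theorem sub_ins (z p : ZF) : p ⊆ insert z p := fun _ h => mem_insert_of_mem _ h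

theorem Cond.addpt (hp : Cond κ S p) (hκ : IsOrdinal κ) (hm : m ∈ om) (hi : i ∈ κ) (hξ : ξ ∈ κ)
    (h1 : ¬ Cv p (pair m i) ξ) (h2 : Ok S p m ξ) : Cond κ S (insert (pair (pair m i) ξ) p) := by
  have key : ∀ r a, Cv (insert (pair (pair m i) ξ) p) r a → Cv p r a := by
    rintro r a ⟨b, c, h3, h4⟩
    rcases mem_insert_iff.1 h3 with e | h3
    exacts [absurd ((pair_inj.1 e).2 ▸ hκ.mem hξ) (not_ord_pair b c), ⟨b, c, h3, h4⟩]
  refine ⟨fun z hz => ?_, hp.nc.insert _, fun r a h3 h4 => ?_, fun m' j a h => ?_⟩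
  · rcases mem_insert_iff.1 hz with rfl | hz
    exacts [pt_mem_At hm hi hξ, hp.sub hz]
  · rcases mem_insert_iff.1 h3.1 with e | h5
    · obtain ⟨rfl, rfl⟩ := pair_inj.1 e
      exact h1 (key _ _ h4)
    · exact hp.con r a ⟨h5, h3.2⟩ (key _ _ h4)
  · rcases mem_insert_iff.1 h.1 with e | h5
    · simp only [pair_inj] at e
      obtain ⟨⟨rfl, rfl⟩, rfl⟩ := e
      exact h2.mono (sub_ins _ _)
    · exact (hp.ok m' j a ⟨h5, h.2⟩).mono (sub_ins _ _)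

theorem Cond.addcv (hp : Cond κ S p) (hκ : IsOrdinal κ) (hm : m ∈ om) (hi : i ∈ κ) (hξ : ξ ∈ κ)
    (h0 : ξ ≠ ∅) (h1 : ¬ Pt p (pair m i) ξ) :
    ∃ η ∈ ξ, Cond κ S (insert (pair (pair m i) (pair η ξ)) p) := by
  have ho := hκ.mem hξ
  obtain ⟨η, hη, h2⟩ : ∃ η ∈ ξ, ∀ a ∈ {a | pair (pair m i) a ∈ p}, a ∈ ξ → a ⊆ η := by
    have hX := hp.nc.row (pair m i)
    generalize {a | pair (pair m i) a ∈ p} = X at hX
    induction X, hX using Set.Finite.induction_on with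
    | empty =>
      obtain ⟨γ, hγ⟩ := (eq_empty_or_nonempty ξ).resolve_left h0
      exact ⟨γ, hγ, fun _ h => absurd h (Set.notMem_empty _)⟩
    | @insert a X _ _ ih =>
      obtain ⟨η, h2, h3⟩ := ih
      by_cases h : a ∈ ξ ∧ η ⊆ a
      · exact ⟨a, h.1, by rintro x (rfl | hx) h4; exacts [fun _ h => h, (h3 x hx h4).trans h.2]⟩
      · refine ⟨η, h2, ?_⟩
        rintro x (rfl | hx) h4
        exacts [((ho.mem h4).subset_total (ho.mem h2)).resolve_right fun h5 => h ⟨h4, h5⟩,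
          h3 x hx h4]
  have key : ∀ r a, Pt (insert (pair (pair m i) (pair η ξ)) p) r a → Pt p r a := by
    rintro r a ⟨h3, h4⟩
    rcases mem_insert_iff.1 h3 with e | h3
    exacts [absurd ((pair_inj.1 e).2 ▸ h4) (not_ord_pair η ξ), ⟨h3, h4⟩]
  refine ⟨η, hη, fun z hz => ?_, hp.nc.insert _, fun r a h3' ⟨b, c, h4, h5, h6⟩ => ?_,
    fun m' j a h => (hp.ok m' j a (key _ _ h)).mono (sub_ins _ _)⟩
  · rcases mem_insert_iff.1 hz with rfl | hz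
    exacts [iv_mem_At hm hi (hκ.mem_trans hη hξ) hξ, hp.sub hz]
  · have h3 := key _ _ h3'
    clear h3'
    rcases mem_insert_iff.1 h4 with e | h4
    · simp only [pair_inj] at e
      obtain ⟨rfl, rfl, rfl⟩ := e
      rcases (h3.2.subset_iff_eq_or_mem ho).1 h6 with rfl | h7
      exacts [h1 h3, mem_irrefl b (h2 a h3.1 h7 h5)]
    · exact hp.con r a h3 ⟨b, c, h4, h5, h6⟩

end Pool.Agent.P.MP_0b3dfe_lc
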