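import Pool.Agent.P.MP_0b3dfe_lc.U3

/-! The levels of the hierarchy, and statements of the packages on stationary logic. -/

namespace Pool.Agent.P.MP_0b3dfe_lc

open ZFSet Pool.Agent.P.MP_3ab3de_lc

variable {N : Set ZF}

theorem LA_zero : LA N 0 = ∅ := Ordinal.limitRecOn_zero _ _ _

theorem LA_succ (o : Ordinal.{0}) : LA N (o + 1) = DefA N (LA N o) :=
  Ordinal.limitRecOn_add_one _ _ _ _

theorem LA_lim {o : Ordinal.{0}} (h : Order.IsSuccLimit o) :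
    LA N o = {x | ∃ a < o, x ∈ LA N a} := by
  rw [LA, Ordinal.limitRecOn_limit _ _ _ _ h]
  ext x
  exact ⟨fun ⟨a, h1, h2⟩ => ⟨a, h1, h2⟩, fun ⟨a, h1, h2⟩ => ⟨a, h1, h2⟩⟩

theorem DefA.sub {X : Set ZF} {y x : ZF} (h : y ∈ DefA N X) (hx : x ∈ y) : x ∈ X := by
  rcases h with rfl | ⟨φ, v, -, h⟩
  exacts [absurd hx (notMem_empty _), ((h x).1 hx).1]

theorem subset_DefA {X : Set ZF} (h : ∀ x ∈ X, ∀ y ∈ x, y ∈ X) : X ⊆ DefA N X := fun y hy =>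
  Or.inr ⟨AFml.mem 0 1, fun _ => y, fun _ => hy, fun x => ⟨fun hx => ⟨h y hy x hx, hx⟩, And.right⟩⟩

theorem LA_aux (o : Ordinal.{0}) : (∀ x ∈ LA N o, ∀ y ∈ x, y ∈ LA N o) ∧
    ∀ x, x ∈ LA N o ↔ ∃ a < o, x ∈ DefA N (LA N a) := by
  induction o using Ordinal.induction with
  | h o ih =>
    have key : ∀ x, x ∈ LA N o ↔ ∃ a < o, x ∈ DefA N (LA N a) := by
      intro x
      rcases Ordinal.zero_or_succ_or_isSuccLimit o with rfl | ⟨b, rfl⟩ | h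
      · simp [LA_zero]
      · rw [Order.succ_eq_add_one, LA_succ]
        refine ⟨fun h => ⟨b, by simp, h⟩, fun ⟨a, h1, h2⟩ => ?_⟩
        rcases (Order.lt_add_one_iff.1 h1).eq_or_lt with rfl | h1
        exacts [h2, subset_DefA (ih b (by simp)).1 (((ih b (by simp)).2 x).2 ⟨a, h1, h2⟩)]
      · rw [LA_lim h]
        constructor
        · rintro ⟨a, h1, h2⟩
          exact ⟨a, h1, subset_DefA (ih a h1).1 h2⟩
        · rintro ⟨a, h1, h2⟩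
          exact ⟨a + 1, h.add_one_lt h1, by rwa [LA_succ]⟩
    refine ⟨fun x hx y hy => ?_, key⟩
    obtain ⟨a, h1, h2⟩ := (key x).1 hx
    exact (key y).2 ⟨a, h1, subset_DefA (ih a h1).1 (DefA.sub h2 hy)⟩

theorem LA_trans {o : Ordinal.{0}} {x y : ZF} (hx : x ∈ LA N o) (hy : y ∈ x) : y ∈ LA N o :=
  (LA_aux o).1 x hx y hy

theorem mem_LA {o : Ordinal.{0}} {x : ZF} : x ∈ LA N o ↔ ∃ a < o, x ∈ DefA N (LA N a) :=
  (LA_aux o).2 x

theorem LA_mono {a b : Ordinal.{0}} (h : a ≤ b) : LA N a ⊆ LA N b := fun _ hx => by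
  obtain ⟨c, h1, h2⟩ := mem_LA.1 hx
  exact mem_LA.2 ⟨c, h1.trans_le h, h2⟩

theorem rank_LA (o : Ordinal.{0}) : ∀ x ∈ LA N o, rank x < o := by
  induction o using Ordinal.induction with
  | h o ih =>
    intro x hx
    obtain ⟨a, h1, h2⟩ := mem_LA.1 hx
    exact (rank_le_iff.2 fun y hy => ih a h1 y (DefA.sub h2 hy)).trans_lt h1

/-- the levels as sets -/
noncomputable def LZ (N : Set ZF) (a : ZF) : ZF :=
  ZFSet.sep (· ∈ LA N (rank a)) (vonNeumann (rank a))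

theorem mem_LZ {a x : ZF} : x ∈ LZ N a ↔ x ∈ LA N (rank a) := by
  rw [LZ, mem_sep, mem_vonNeumann]
  exact ⟨And.right, fun h => ⟨rank_LA _ x h, h⟩⟩

theorem coe_LZ (a : ZF) : (LZ N a : Set ZF) = LA N (rank a) := Set.ext fun _ => mem_LZ

theorem mem_Caa {x : ZF} : x ∈ Caa N ↔ ∃ a ∈ N, IsOrdinal a ∧ x ∈ LZ N a := by
  constructor
  · rintro ⟨o, h1, h2⟩
    exact ⟨_, h1, isOrdinal_toZFSet o, mem_LZ.2 (by rwa [Ordinal.rank_toZFSet])⟩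
  · rintro ⟨a, h1, h2, h3⟩
    exact ⟨rank a, by rwa [h2.toZFSet_rank_eq], mem_LZ.1 h3⟩

def S_SatA : Prop := ∀ φ : AFml, UD ∅ (fun N v =>
  SatA N (v 0 : Set ZF) φ (fun k => v (2 * k + 1)) (fun k => v (2 * k + 2)))

def S_DefA : Prop := UD ∅ (fun N v => v 0 ∈ DefA N (v 1 : Set ZF))

def S_LZ : Prop := UT ∅ (fun N v => LZ N (v 0))

def S_CaaZ : Prop := ∀ (N : Set ZF) [TModel N],
  ZModel (Caa N) ∧ Caa N ⊆ N ∧ ∀ o ∈ N, IsOrdinal o → o ∈ Caa N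

def S_Dec : Prop := ∀ (N : Set ZF) [TModel N] (κ : ZF), Hart N om κ → ∀ I ∈ Caa N, ∀ S ∈ Caa N,
  ZFSet.sep (fun a => ¬ Stat N κ (fun ξ => pair a ξ ∈ S)) I ∈ Caa N

/-- subsets of `W` defined in `N` from parameters in `W` lie in `W` -/
def Hom (N W : Set ZF) : Prop := ∀ (φ : Fml) (v : Env), EIn W v → ∀ a ∈ W,
  ZFSet.sep (fun x => Sat N φ (cons x v)) a ∈ W

def S_CaaSub : Prop := ∀ (N W : Set ZF) [TModel N] [TModel W], W ⊆ N →
  (∀ o ∈ N, IsOrdinal o → o ∈ W) → Hom N W → Caa N ⊆ W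

end Pool.Agent.P.MP_0b3dfe_lc
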