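import Pool.Agent.P.MP_0b3dfe_lc.Pos1
import Pool.Agent.P.MP_0b3dfe_lc.St1

/-! The forcing notions inside a model, semantic forcing, basic facts on generic filters. -/

set_option linter.unusedSectionVars false
set_option synthInstance.maxSize 100000

namespace Pool.Agent.P.MP_0b3dfe_lc

open ZFSet Pool.Agent.P.MP_3ab3de_lc ForceP

/-- finite set -/
def Fn (x : ZF) : Prop := (x : Set ZF).Finite

/-- the conditions that live on levels from `n` on -/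
noncomputable def lev (n P : ZF) : ZF := ZFSet.sep (fun p => ∀ z ∈ p, n ⊆ fst (fst z)) P

/-- the forcing notion from level `n` on -/
noncomputable def PP (M : Set ZF) (κ S n : ZF) : ZF :=
  lev n (ZFSet.sep (Cond κ S) (pw M (At κ)))

/-- reverse inclusion -/
noncomputable def ord (P : ZF) : ZF := ZFSet.sep (fun z => snd z ⊆ fst z) (prod P P)

/-- `ξ` lies in the generic club of the row `r` -/
def InD (G r ξ : ZF) : Prop := ∃ p ∈ G, Pt p r ξ

/-- semantic forcing -/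
def Frc (M : Set ZF) (P L : ZF) (Q : Set ZF → ZF → ZF → ZF → Prop) (p a b : ZF) : Prop :=
  p ∈ P ∧ ∀ G, Gen M P L G → p ∈ G → Q (val G '' M) G a b

section U

variable {A : Set ZF} {a b c : Set ZF → Env → ZF} [UT A a] [UT A b] [UT A c]

instance ut_At : UT A (fun N v => At (a N v)) := by unfold At; infer_instance

instance ud_Pt : UD A (fun N v => Pt (a N v) (b N v) (c N v)) := by unfold Pt; infer_instance

instance ud_Cv : UD A (fun N v => Cv (a N v) (b N v) (c N v)) := by unfold Cv; infer_instance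

instance ut_lev : UT A (fun N v => lev (a N v) (b N v)) := by unfold lev; infer_instance

instance ud_InD : UD A (fun N v => InD (a N v) (b N v) (c N v)) := by unfold InD; infer_instance

instance uv_Pt {t : Set ZF → Env → ZF → ZF} {r : Set ZF → Env → ZF → ZF} [h : UO t] :
    UV A (fun N v x => Pt (a N v) (r N v x) (t N v x)) := by unfold Pt; infer_instance

instance uv_Pt' {t : Set ZF → Env → ZF → ZF} {r : Set ZF → Env → ZF → ZF} [h : UO r] :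
    UV A (fun N v x => Pt (a N v) (r N v x) (t N v x)) := by unfold Pt; infer_instance

instance uv_Cv {t : Set ZF → Env → ZF → ZF} {r : Set ZF → Env → ZF → ZF} [h : UO r] :
    UV A (fun N v x => Cv (a N v) (r N v x) (t N v x)) := by unfold Cv; infer_instance

end U

variable {M : Set ZF} [hM : TModel M]

theorem fin_set {X : Set ZF} (hX : X.Finite) (h : ∀ x ∈ X, x ∈ M) :
    ∃ a ∈ M, (a : Set ZF) = X := by
  induction X, hX using Set.Finite.induction_on with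
  | empty => exact ⟨∅, empty_mem, by simp⟩
  | @insert x X _ _ ih =>
    obtain ⟨a, ha, rfl⟩ := ih fun y hy => h y (Set.mem_insert_of_mem _ hy)
    have := In.mk' ha
    have := In.mk' (h x (Set.mem_insert _ _))
    exact ⟨insert x a, In.mem _, by simp⟩

theorem Fn.mem {x : ZF} (hx : Fn x) (h : ∀ y ∈ x, y ∈ M) : x ∈ M := by
  obtain ⟨a, ha, e⟩ := fin_set hx h
  rwa [← SetLike.coe_injective e]

theorem fn_iff {x : ZF} (hx : x ∈ M) : Fn x ↔ ∃ n ∈ om, Le M x n := by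
  constructor
  · intro h
    have : ∀ X : Set ZF, X.Finite → (∀ y ∈ X, y ∈ M) →
        ∃ n ∈ om, ∃ f ∈ M, ∀ y ∈ X, ∃ k ∈ n, app f k = y := by
      intro X hX
      induction X, hX using Set.Finite.induction_on with
      | empty => exact fun _ => ⟨∅, omega_zero, ∅, empty_mem, by simp⟩
      | @insert x X _ _ ih =>
        intro h
        classical
        obtain ⟨n, hn, f, hf, h1⟩ := ih fun y hy => h y (Set.mem_insert_of_mem _ hy)
        have := In.mk' hf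
        have := In.mk' (tr hM.infinity hn)
        have := In.mk' (h x (Set.mem_insert _ _))
        refine ⟨insert n n, omega_succ hn, graph (fun k => if k = n then x else app f k)
          (insert n n), In.mem _, ?_⟩
        rintro y (rfl | hy)
        · exact ⟨n, mem_insert _ _, by rw [app_graph (mem_insert _ _), if_pos rfl]⟩
        · obtain ⟨k, hk, rfl⟩ := h1 y hy
          refine ⟨k, mem_insert_of_mem _ hk, ?_⟩
          rw [app_graph (mem_insert_of_mem _ hk), if_neg]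
          rintro rfl
          exact mem_irrefl k hk
    exact this x h fun y hy => tr hx hy
  · rintro ⟨n, hn, f, -, h⟩
    obtain ⟨k, rfl⟩ := mem_omega.1 hn
    refine ((Set.finite_Iio k).image fun j => app f (num j)).subset fun y hy => ?_
    obtain ⟨z, hz, rfl⟩ := h y hy
    obtain ⟨j, hj, rfl⟩ := mem_num.1 hz
    exact ⟨j, hj, rfl⟩

section D

variable {a b c d : Env → ZF} [ha : Tm M a] [Tm M b] [hc : Tm M c] [Tm M d]

instance df_Fn : Df M (fun v => Fn (a v)) :=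
  (inferInstance : Df M (fun v => ∃ n ∈ om, Le M (a v) n)).congr fun v hv => fn_iff (ha.mem v hv)

instance tm_At : Tm M (fun v => At (a v)) := by unfold At; infer_instance

instance df_Pt : Df M (fun v => Pt (a v) (b v) (c v)) := by unfold Pt; infer_instance

instance df_Cv : Df M (fun v => Cv (a v) (b v) (c v)) := by unfold Cv; infer_instance

instance void_Pt {t r : Env → ZF → ZF} [Occ M t] : Void M (fun v x => Pt (a v) (r v x) (t v x)) := by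
  unfold Pt; infer_instance

instance void_Pt' {t r : Env → ZF → ZF} [Occ M r] :
    Void M (fun v x => Pt (a v) (r v x) (t v x)) := by unfold Pt; infer_instance

instance void_Cv {t r : Env → ZF → ZF} [Occ M r] : Void M (fun v x => Cv (a v) (r v x) (t v x)) := by
  unfold Cv; infer_instance

instance df_Ok : Df M (fun v => Ok (a v) (b v) (c v) (d v)) :=
  (inferInstance : Df M (fun v => ∀ z ∈ a v, ∀ i α, z = pair (pair (pair (insert (c v) (c v)) i) α)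
    (d v) → Cv (b v) (pair (insert (c v) (c v)) i) α)).congr fun _ _ =>
      ⟨fun h _ hz i α e => h i α (e ▸ hz), fun h i α h1 => h _ h1 i α rfl⟩

instance df_InCol : Df M (fun v => InCol (a v : Set ZF) (b v)) := by
  unfold InCol
  simp only [SetLike.mem_coe]
  infer_instance

instance tm_tail : Tm M (fun v => tail (a v) (b v)) := by unfold tail; infer_instance

instance tm_col : Tm M (fun v => col (a v) (b v)) := by unfold col; infer_instance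

instance tm_lev : Tm M (fun v => lev (a v) (b v)) := by unfold lev; infer_instance

instance tm_ord : Tm M (fun v => ord (a v)) := by unfold ord; infer_instance

instance df_InD : Df M (fun v => InD (a v) (b v) (c v)) := by unfold InD; infer_instance

end D

theorem inCol_mem {F : Set ZF} (h : ∀ x ∈ F, x ∈ M) {z : ZF} (hz : InCol F z) : z ∈ M := by
  obtain ⟨k, ξ, h1, m, hm, i, hi, -, rfl⟩ := hz
  have h2 := snd_mem (h _ h1)
  have := In.mk' h2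
  have := In.mk' (tr h2 hi)
  have := In.mk' (tr hM.infinity hm)
  exact In.mem _

theorem nc_iff {κ p : ZF} (hκ : κ ∈ M) (hp : p ∈ M) : NC κ p ↔ ∃ F ∈ M, ∃ E ∈ M, Fn F ∧ Fn E ∧
    F ⊆ prod om κ ∧ ∀ z ∈ M, z ∉ E → (z ∈ p ↔ InCol (F : Set ZF) z) := by
  have := In.mk' hκ
  have h0 : prod om κ ∈ M := In.mem _
  constructor
  · rintro ⟨F, h1, h2, h3⟩
    obtain ⟨F, hF, rfl⟩ := fin_set (M := M) h1 fun x hx => tr h0 (h2 x hx)
    obtain ⟨E, hE, e⟩ := fin_set (M := M) h3 fun x hx => by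
      by_cases h : x ∈ p
      exacts [tr hp h, inCol_mem (fun _ h => tr hF h) (by_contra fun h' => hx (iff_of_false h h'))]
    refine ⟨F, hF, E, hE, h1, by rwa [Fn, e], h2, fun z _ hz => by_contra fun h => hz ?_⟩
    rw [← SetLike.mem_coe, e]
    exact h
  · rintro ⟨F, hF, E, -, h1, h2, h3, h4⟩
    refine ⟨F, h1, h3, h2.subset fun z hz => by_contra fun h => hz (h4 z ?_ h)⟩
    by_cases h : z ∈ p
    exacts [tr hp h, inCol_mem (fun _ h => tr hF h) (by_contra fun h' => hz (iff_of_false h h'))]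

instance df_Cond {a b c : Env → ZF} [ha : Tm M a] [Tm M b] [hc : Tm M c] :
    Df M (fun v => Cond (a v) (b v) (c v)) :=
  (inferInstance : Df M (fun v => c v ⊆ At (a v) ∧ (∃ F ∈ M, ∃ E ∈ M, Fn F ∧ Fn E ∧
    F ⊆ prod om (a v) ∧ ∀ z ∈ M, z ∉ E → (z ∈ c v ↔ InCol (F : Set ZF) z)) ∧
    (∀ r ξ, Pt (c v) r ξ → ¬ Cv (c v) r ξ) ∧
    ∀ m j ξ, Pt (c v) (pair m j) ξ → Ok (b v) (c v) m ξ)).congr fun v hv =>
      ⟨fun h => ⟨h.1, (nc_iff (ha.mem v hv) (hc.mem v hv)).1 h.2, h.3, h.4⟩,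
        fun h => ⟨h.1, (nc_iff (ha.mem v hv) (hc.mem v hv)).2 h.2.1, h.2.2.1, h.2.2.2⟩⟩

instance tm_PP {a b c : Env → ZF} [Tm M a] [Tm M b] [Tm M c] :
    Tm M (fun v => PP M (a v) (b v) (c v)) := by unfold PP; infer_instance

variable {κ S n m G P p q : ZF}

omit hM in
theorem mem_lev : p ∈ lev n P ↔ p ∈ P ∧ ∀ z ∈ p, n ⊆ fst (fst z) := mem_sep

omit hM in
theorem mem_PP : p ∈ PP M κ S n ↔ p ∈ M ∧ Cond κ S p ∧ ∀ z ∈ p, n ⊆ fst (fst z) := by
  simp only [PP, mem_lev, mem_sep, mem_pw]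
  exact ⟨fun h => ⟨h.1.1.2, h.1.2, h.2⟩, fun h => ⟨⟨⟨h.2.1.sub, h.1⟩, h.2.1⟩, h.2.2⟩⟩

omit hM in
theorem mem_ord : pair q p ∈ ord P ↔ q ∈ P ∧ p ∈ P ∧ p ⊆ q := by
  simp only [ord, mem_sep, pair_mem_prod, fst_pair, snd_pair, and_assoc]

omit hM in
theorem po_ord (P : ZF) : PO P (ord P) :=
  ⟨fun _ _ h => ⟨(mem_ord.1 h).1, (mem_ord.1 h).2.1⟩, fun _ h => mem_ord.2 ⟨h, h, fun _ h => h⟩,
    fun _ _ _ h h' => mem_ord.2 ⟨(mem_ord.1 h).1, (mem_ord.1 h').2.1,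
      (mem_ord.1 h').2.2.trans (mem_ord.1 h).2.2⟩⟩

omit hM in
theorem lev_lev (h : n ⊆ m) : lev m (lev n P) = lev m P := by
  ext p
  simp only [mem_lev]
  exact ⟨fun h' => ⟨h'.1.1, h'.2⟩, fun h' => ⟨⟨h'.1, fun z hz => h.trans (h'.2 z hz)⟩, h'.2⟩⟩

omit hM in
theorem lev_PP (h : n ⊆ m) : lev m (PP M κ S n) = PP M κ S m := lev_lev h

omit hM in
theorem PP_mono (h : n ⊆ m) (hp : p ∈ PP M κ S m) : p ∈ PP M κ S n := by
  rw [← lev_PP h] at hp
  exact (mem_lev.1 hp).1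

/-- a union of two conditions of the model -/
theorem union_PP (hp : p ∈ PP M κ S n) (hq : q ∈ PP M κ S n) (h : Cond κ S (p ∪ q)) :
    p ∪ q ∈ PP M κ S n := by
  have := In.mk' (mem_PP.1 hp).1
  have := In.mk' (mem_PP.1 hq).1
  exact mem_PP.2 ⟨In.mem _, h, fun z hz => (mem_union.1 hz).elim ((mem_PP.1 hp).2.2 z)
    ((mem_PP.1 hq).2.2 z)⟩

theorem tail_PP (hp : p ∈ PP M κ S n) (hm : m ∈ om) : tail m p ∈ PP M κ S m := by
  have := In.mk' (mem_PP.1 hp).1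
  have := In.mk' (tr hM.infinity hm)
  exact mem_PP.2 ⟨In.mem _, (mem_PP.1 hp).2.1.tl hm, fun z hz => (mem_tail.1 hz).2⟩

theorem insert_PP {i a : ZF} (hκ : κ ∈ M) (hp : p ∈ PP M κ S n) (hm : n ⊆ m)
    (h : Cond κ S (insert (pair (pair m i) a) p)) : insert (pair (pair m i) a) p ∈ PP M κ S n := by
  have := In.mk' (mem_PP.1 hp).1
  have := In.mk' hκ
  have := In.mk' (tr (In.mem (M := M) (At κ)) (h.sub (mem_insert _ _)))
  refine mem_PP.2 ⟨In.mem _, h, fun z hz => ?_⟩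
  rcases mem_insert_iff.1 hz with rfl | hz
  exacts [by simpa using hm, (mem_PP.1 hp).2.2 z hz]

theorem Sys.lm (h : Sys M κ S) : Lm κ :=
  ⟨h.hart.ord, fun e => notMem_empty _ (e ▸ h.hart.zero inf_omega :),
    fun _ hβ => ⟨_, h.hart.succ inf_omega hβ, mem_insert _ _⟩⟩

theorem Sys.bdd (h : Sys M κ S) (hp : Cond κ S p) : ∃ γ ∈ κ, p ⊆ At γ := by
  obtain ⟨γ, h1, h2⟩ := hp.nc.bdd h.hart.ord h.lm
  exact ⟨γ, h1, fun z hz => h2 (mem_inter.2 ⟨hz, hp.sub hz⟩)⟩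

omit hM in
/-- members of the stationary set with index `((0, 0), 0)` carry no side condition -/
theorem Sys.ok0 (h : Sys M κ S) {ξ : ZF} (h1 : pair (pair (pair ∅ ∅) ∅) ξ ∈ S) (p m : ZF) :
    Ok S p m ξ := fun i α h2 => by
  have := h.disj _ _ _ h1 h2
  simp only [pair_inj] at this
  exact absurd (this.1.1 ▸ mem_insert m m :) (notMem_empty m)

theorem Sys.stat0 (h : Sys M κ S) : Stat M κ (fun ξ => pair (pair (pair ∅ ∅) ∅) ξ ∈ S) :=
  h.stat _ omega_zero _ (h.hart.zero inf_omega) _ (h.hart.zero inf_omega)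

theorem Stat.above {T : ZF → Prop} (h : Stat M κ T) (hκ : Hart M om κ) {β : ZF} (hβ : β ∈ κ) :
    ∃ δ ∈ κ, T δ ∧ β ∈ δ := by
  have := In.mk' (tr hκ.mem hβ)
  obtain ⟨δ, h1, h2, h3, h4⟩ := h.close hκ.mem (fun _ ζ => β ∈ ζ) inferInstance
    fun _ _ => ⟨_, hκ.succ inf_omega hβ, mem_insert _ _⟩
  obtain ⟨γ, hγ⟩ := (eq_empty_or_nonempty δ).resolve_left h3
  obtain ⟨ζ, h5, h6⟩ := h4 γ hγ
  exact ⟨δ, h1, h2, (hκ.ord.mem h1).mem_trans h6 h5⟩

/-- the standing hypotheses on a generic filter -/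
structure GX (M : Set ZF) (κ S n G : ZF) : Prop where
  sys : Sys M κ S
  cnt : M.Countable
  hn : n ∈ om
  gen : Gen M (PP M κ S n) (ord (PP M κ S n)) G

theorem Sys.PP_mem (h : Sys M κ S) (hn : n ∈ om) : PP M κ S n ∈ M ∧ ord (PP M κ S n) ∈ M := by
  have := In.mk' h.hart.mem
  have := In.mk' h.mem
  have := In.mk' (tr hM.infinity hn)
  exact ⟨In.mem _, In.mem _⟩

theorem Sys.exists_gx (h : Sys M κ S) (hc : M.Countable) (hn : n ∈ om) (hp : p ∈ PP M κ S n) :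
    ∃ G, GX M κ S n G ∧ p ∈ G := by
  obtain ⟨G, h1, h2⟩ := genEx M hc _ _ (po_ord _) p hp
  exact ⟨G, ⟨h, hc, hn, h1⟩, h2⟩

namespace GX

variable (X : GX M κ S n G)
include X

theorem cx : Cx M (PP M κ S n) (ord (PP M κ S n)) G :=
  ⟨(X.sys.PP_mem X.hn).1, (X.sys.PP_mem X.hn).2, po_ord _, X.gen⟩

theorem up (hp : p ∈ G) (hq : q ∈ PP M κ S n) (h : q ⊆ p) : q ∈ G :=
  X.gen.up p hp q (mem_ord.2 ⟨X.gen.sub hp, hq, h⟩)

theorem dir (hp : p ∈ G) (hq : q ∈ G) : ∃ r ∈ G, p ⊆ r ∧ q ⊆ r := by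
  obtain ⟨r, h1, h2, h3⟩ := X.gen.dir p hp q hq
  exact ⟨r, h1, (mem_ord.1 h2).2.2, (mem_ord.1 h3).2.2⟩

theorem cond (hp : p ∈ G) : Cond κ S p := (mem_PP.1 (X.gen.sub hp)).2.1

theorem meet (A : ZF → Prop) (hA : Df M (fun v => A (v 0)))
    (h : ∀ q ∈ PP M κ S n, ∃ r ∈ PP M κ S n, q ⊆ r ∧ A r) : ∃ r ∈ G, A r :=
  X.cx.meet_all A hA fun q hq => by
    obtain ⟨r, h1, h2, h3⟩ := h q hq
    exact ⟨r, mem_ord.2 ⟨h1, hq, h2⟩, h3⟩

theorem meet' (A : ZF → Prop) (hA : Df M (fun v => A (v 0))) (hp : p ∈ G)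
    (h : ∀ q ∈ PP M κ S n, p ⊆ q → ∃ r ∈ PP M κ S n, q ⊆ r ∧ A r) : ∃ r ∈ G, A r :=
  X.cx.meet_below A hA hp fun q hq => by
    obtain ⟨r, h1, h2, h3⟩ := h q (mem_ord.1 hq).1 (mem_ord.1 hq).2.2
    exact ⟨r, mem_ord.2 ⟨h1, (mem_ord.1 hq).1, h2⟩, h3⟩

theorem not_cv {r ξ : ZF} (h : InD G r ξ) (hp : p ∈ G) : ¬ Cv p r ξ := fun h1 => by
  obtain ⟨q, hq, h2⟩ := h
  obtain ⟨s, h3, h4, h5⟩ := X.dir hp hq
  exact (X.cond h3).con r ξ (h2.mono h5) (h1.mono h4)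

theorem tail_mem (hp : p ∈ G) (hm : m ∈ om) (h : n ⊆ m) : tail m p ∈ lev m G :=
  mem_lev.2 ⟨X.up hp (PP_mono h (tail_PP (X.gen.sub hp) hm)) (tail_sub _ _),
    fun _ hz => (mem_tail.1 hz).2⟩

/-- the part of a generic filter on later levels is generic -/
theorem lev (hm : m ∈ om) (h : n ⊆ m) : GX M κ S m (lev m G) := by
  have hs : ∀ p ∈ MP_0b3dfe_lc.lev m G, p ∈ PP M κ S m := fun p hp =>
    lev_PP (M := M) (κ := κ) (S := S) h ▸ mem_lev.2 ⟨X.gen.sub (mem_lev.1 hp).1, (mem_lev.1 hp).2⟩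
  refine ⟨X.sys, X.cnt, hm, hs, fun p hp q hq => ?_, fun p hp q hq => ?_, fun D hD H => ?_⟩
  · obtain ⟨-, h1, h2⟩ := mem_ord.1 hq
    exact mem_lev.2 ⟨X.up (mem_lev.1 hp).1 (PP_mono h h1) h2, (mem_PP.1 h1).2.2⟩
  · obtain ⟨r, h1, h2, h3⟩ := X.dir (mem_lev.1 hp).1 (mem_lev.1 hq).1
    have h4 := X.tail_mem h1 hm h
    exact ⟨_, h4, mem_ord.2 ⟨hs _ h4, hs _ hp, fun z hz => mem_tail.2 ⟨h2 hz, (mem_lev.1 hp).2 z hz⟩⟩,
      mem_ord.2 ⟨hs _ h4, hs _ hq, fun z hz => mem_tail.2 ⟨h3 hz, (mem_lev.1 hq).2 z hz⟩⟩⟩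
  · have := In.mk' hD
    have := In.mk' (X.sys.PP_mem hm).1
    obtain ⟨r, h1, q, h2, h3, h4⟩ := X.meet (fun r => ∃ q ∈ D, q ∈ PP M κ S m ∧ q ⊆ r)
      inferInstance fun p hp => by
        obtain ⟨q, h1, h2⟩ := H _ (tail_PP hp hm)
        obtain ⟨h3, -, h4⟩ := mem_ord.1 h2
        exact ⟨p ∪ q, union_PP hp (PP_mono h h3) ((mem_PP.1 hp).2.1.amal (mem_PP.1 h3).2.1 h4
          (mem_PP.1 h3).2.2), sub_l _ _, q, h1, h3, sub_r _ _⟩
    exact ⟨q, mem_lev.2 ⟨X.up h1 (PP_mono h h3) h4, (mem_PP.1 h3).2.2⟩, h2⟩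

theorem inD_lev {k i ξ : ZF} (hm : m ∈ om) (h : n ⊆ m) (hk : m ⊆ k) :
    InD (MP_0b3dfe_lc.lev m G) (pair k i) ξ ↔ InD G (pair k i) ξ :=
  ⟨fun ⟨p, hp, h1⟩ => ⟨p, (mem_lev.1 hp).1, h1⟩, fun ⟨_, hp, h1⟩ =>
    ⟨_, X.tail_mem hp hm h, pair_mem_tail.2 ⟨h1.1, hk⟩, h1.2⟩⟩

/-- the filter is recovered from the clubs -/
theorem recover (hp : p ∈ PP M κ S n) :
    p ∈ G ↔ (∀ r ξ, Pt p r ξ → InD G r ξ) ∧ ∀ r ξ, Cv p r ξ → ¬ InD G r ξ := by
  refine ⟨fun h => ⟨fun r ξ h1 => ⟨p, h, h1⟩, fun r ξ h1 h2 => X.not_cv h2 h h1⟩, fun h => ?_⟩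
  have := In.mk' (mem_PP.1 hp).1
  obtain ⟨q, h1, h2 | ⟨r, ξ, h2, h3⟩ | ⟨r, ξ, h2, h3⟩⟩ := X.meet (fun q => p ⊆ q ∨
    (∃ r ξ, Pt p r ξ ∧ Cv q r ξ) ∨ ∃ r ξ, Pt q r ξ ∧ Cv p r ξ) inferInstance fun q hq => by
      by_cases h : (∃ r ξ, Pt p r ξ ∧ Cv q r ξ) ∨ ∃ r ξ, Pt q r ξ ∧ Cv p r ξ
      · exact ⟨q, hq, fun _ h => h, Or.inr h⟩
      · exact ⟨p ∪ q, union_PP hp hq ((mem_PP.1 hp).2.1.union (mem_PP.1 hq).2.1
          (fun r ξ h1 h2 => h (Or.inl ⟨r, ξ, h1, h2⟩)) fun r ξ h1 h2 => h (Or.inr ⟨r, ξ, h1, h2⟩)),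
          sub_r _ _, Or.inl (sub_l _ _)⟩
  exacts [X.up h1 hp h2, absurd h3 (X.not_cv (h.1 r ξ h2) h1), absurd ⟨q, h1, h2⟩ (h.2 r ξ h3)]

/-- ordinals outside a club get covered -/
theorem cover {i ξ : ZF} (hm : m ∈ om) (h : n ⊆ m) (hi : i ∈ κ) (hξ : ξ ∈ κ)
    (h1 : ¬ InD G (pair m i) ξ) : ∃ q ∈ G, Cv q (pair m i) ξ := by
  have hκ := X.sys.hart
  have := In.mk' (tr hM.infinity hm)
  have := In.mk' (tr hκ.mem hi)
  have := In.mk' (tr hκ.mem hξ)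
  obtain ⟨q, h2, h3⟩ := X.meet (fun q => Pt q (pair m i) ξ ∨ Cv q (pair m i) ξ) inferInstance
    fun q hq => by
      by_cases h2 : Pt q (pair m i) ξ
      · exact ⟨q, hq, fun _ h => h, Or.inl h2⟩
      by_cases h0 : ξ = ∅
      · subst h0
        exact ⟨_, insert_PP hκ.mem hq h ((mem_PP.1 hq).2.1.addpt hκ.ord hm hi hξ
          (fun ⟨_, _, _, h, _⟩ => notMem_empty _ h) fun _ _ h =>
            absurd (X.sys.below _ _ _ _ h).1 (notMem_empty _)), sub_ins _ _,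
          Or.inl ⟨mem_insert _ _, isOrdinal_empty⟩⟩
      · obtain ⟨η, h3, h4⟩ := (mem_PP.1 hq).2.1.addcv hκ.ord hm hi hξ h0 h2
        exact ⟨_, insert_PP hκ.mem hq h h4, sub_ins _ _,
          Or.inr ⟨η, ξ, mem_insert _ _, h3, fun _ h => h⟩⟩
  exact ⟨q, h2, h3.resolve_left fun h => h1 ⟨q, h2, h⟩⟩

end GX

end Pool.Agent.P.MP_0b3dfe_lc
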