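import Pool.Agent.P.MP_0b3dfe_lc.St2

/-! The forcing preserves the admissible stationary sets and the first uncountable cardinal. -/

set_option linter.unusedSectionVars false
set_option synthInstance.maxSize 100000

namespace Pool.Agent.P.MP_0b3dfe_lc

open ZFSet Pool.Agent.P.MP_3ab3de_lc ForceP

namespace PresP

/-- a part of `q` puts the pair `(b, z)` into the name `t` -/
def Hit (P t q b z : ZF) : Prop := ∃ u ∈ P, u ⊆ q ∧ pair u (pair b z) ∈ t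

theorem Hit.mono {P t q r b z : ZF} (h : Hit P t q b z) (h' : q ⊆ r) : Hit P t r b z := by
  obtain ⟨u, h1, h2, h3⟩ := h
  exact ⟨u, h1, h2.trans h', h3⟩

variable {M : Set ZF} [hM : TModel M]

instance df_Hit {a b c d e : Env → ZF} [Tm M a] [Tm M b] [Tm M c] [Tm M d] [Tm M e] :
    Df M (fun v => Hit (a v) (b v) (c v) (d v) (e v)) := by unfold Hit; infer_instance

variable {κ S n G : ZF}

/-- the closure relation is total -/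
theorem total (h : S_Cnt) (Y : Sys M κ S) (hn : n ∈ om) {t q : ZF} (ht : t ∈ M)
    (hq : q ∈ PP M κ S n)
    (H : ∀ r ∈ PP M κ S n, q ⊆ r → ∀ b ∈ κ, ∃ r' ∈ PP M κ S n, r ⊆ r' ∧
      ∃ z ∈ κ, Hit (PP M κ S n) t r' b z) {b : ZF} (hb : b ∈ κ) :
    ∃ z ∈ κ, b ∈ z ∧ q ⊆ At z ∧ ∀ r ∈ PP M κ S n, q ⊆ r → r ⊆ At b → ∀ b' ∈ b,
      ∃ r' ∈ PP M κ S n, r ⊆ r' ∧ r' ⊆ At z ∧ ∃ z' ∈ z, Hit (PP M κ S n) t r' b' z' := by
  have hκ := Y.hart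
  have := In.mk' (Y.PP_mem hn).1
  have := In.mk' ht
  have := In.mk' (mem_PP.1 hq).1
  have := In.mk' (tr hκ.mem hb)
  obtain ⟨η, hη, h1⟩ := hκ.bdd_wit inf_omega (fun x ξ => q ⊆ fst x → ∃ r' ∈ PP M κ S n,
      fst x ⊆ r' ∧ r' ⊆ At ξ ∧ ∃ z' ∈ ξ, Hit (PP M κ S n) t r' (snd x) z') inferInstance
    (c := prod (ZFSet.sep (fun p => p ⊆ At b) (PP M κ S n)) b) (In.mem _)
    (inf_omega.prod (h M κ S n Y hn b hb) (hκ.le b hb)) fun x hx => by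
      obtain ⟨r, hr, b', hb', rfl⟩ := mem_prod.1 hx
      simp only [fst_pair, snd_pair]
      by_cases h2 : q ⊆ r
      · obtain ⟨r', h3, h4, z, h5, h6⟩ := H r (mem_sep.1 hr).1 h2 b' (hκ.ord.mem_trans hb' hb)
        obtain ⟨γ, h7, h8⟩ := Y.bdd (mem_PP.1 h3).2.1
        obtain ⟨ξ, h9, h10, h11, -⟩ := Y.lm.three h7 h5 h5
        exact ⟨ξ, h9, fun _ => ⟨r', h3, h4,
          h8.trans (At_mono ((hκ.ord.mem h9).subset_of_mem h10)), z, h11, h6⟩⟩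
      · exact ⟨b, hb, fun h3 => absurd h3 h2⟩
  obtain ⟨γ, h2, h3⟩ := Y.bdd (mem_PP.1 hq).2.1
  obtain ⟨z, h4, h5, h6, h7⟩ := Y.lm.three hb hη h2
  have ho := hκ.ord.mem h4
  refine ⟨z, h4, h5, h3.trans (At_mono (ho.subset_of_mem h7)), fun r hr h8 h9 b' hb' => ?_⟩
  obtain ⟨ξ, h10, h11⟩ := h1 (pair r b') (pair_mem_prod.2 ⟨mem_sep.2 ⟨hr, h9⟩, hb'⟩)
  simp only [fst_pair, snd_pair] at h11
  obtain ⟨r', h12, h13, h14, z', h15, h16⟩ := h11 h8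
  have h17 : ξ ⊆ z := ho.subset_of_mem (ho.mem_trans h10 h6)
  exact ⟨r', h12, h13, h14.trans (At_mono h17), z', h17 h15, h16⟩

/-- a master condition -/
theorem master (h : S_Cnt) (Y : Sys M κ S) (hn : n ∈ om) {t q a : ZF} (ht : t ∈ M)
    (hq : q ∈ PP M κ S n) (hst : Stat M κ (fun ξ => pair a ξ ∈ S))
    (hok : ∀ ξ, pair a ξ ∈ S → ∀ m, n ⊆ m → Ok S q m ξ)
    (H : ∀ r ∈ PP M κ S n, q ⊆ r → ∀ b ∈ κ, ∃ r' ∈ PP M κ S n, r ⊆ r' ∧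
      ∃ z ∈ κ, Hit (PP M κ S n) t r' b z) :
    ∃ r ∈ PP M κ S n, q ⊆ r ∧ ∃ d ∈ κ, pair a d ∈ S ∧ d ≠ ∅ ∧ ∀ b ∈ d, ∀ q' ∈ PP M κ S n,
      r ⊆ q' → ∃ q'' ∈ PP M κ S n, q' ⊆ q'' ∧ ∃ z ∈ d, Hit (PP M κ S n) t q'' b z := by
  have hκ := Y.hart
  have := In.mk' (Y.PP_mem hn).1
  have := In.mk' ht
  have := In.mk' (mem_PP.1 hq).1
  obtain ⟨d, h1, h2, h3, h4⟩ := hst.close hκ.mem (fun b z => b ∈ z ∧ q ⊆ At z ∧
      ∀ r ∈ PP M κ S n, q ⊆ r → r ⊆ At b → ∀ b' ∈ b, ∃ r' ∈ PP M κ S n, r ⊆ r' ∧ r' ⊆ At z ∧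
        ∃ z' ∈ z, Hit (PP M κ S n) t r' b' z') inferInstance
    fun b hb => total h Y hn ht hq H hb
  have ho := hκ.ord.mem h1
  have hd : Lm d := ⟨ho, h3, fun b hb => (h4 b hb).imp fun _ h5 => ⟨h5.1, h5.2.1⟩⟩
  have hqd : q ⊆ At d := by
    obtain ⟨b, hb⟩ := (eq_empty_or_nonempty d).resolve_left h3
    obtain ⟨z, h5, -, h6, -⟩ := h4 b hb
    exact h6.trans (At_mono (ho.subset_of_mem h5))
  have := In.mk' (tr hκ.mem h1)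
  have := In.mk' (tr hM.infinity hn)
  refine ⟨q ∪ col n d, mem_PP.2 ⟨In.mem _,
    (mem_PP.1 hq).2.1.addcol hκ.ord hn h1 hqd (hok d h2), fun z hz => ?_⟩, sub_l _ _,
    d, h1, h2, h3, fun b hb q' hq' h5 => ?_⟩
  · rcases mem_union.1 hz with hz | hz
    · exact (mem_PP.1 hq).2.2 z hz
    · obtain ⟨m, -, i, -, h5, rfl⟩ := mem_col.1 hz
      simpa using h5
  obtain ⟨h6, h7, h8⟩ := mem_PP.1 hq'
  have := In.mk' h6
  have hc : col n d ⊆ q' := (sub_r _ _).trans h5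
  have hr : q' ∩ At d ∈ PP M κ S n :=
    mem_PP.2 ⟨In.mem _, h7.cut hκ.ord ho Y.below hc h8, fun z hz => h8 z (mem_inter.1 hz).1⟩
  obtain ⟨g, h9, h10⟩ := h7.nc.bdd hκ.ord hd
  obtain ⟨g', h11, h12, h13, -⟩ := hd.three hb h9 h9
  obtain ⟨z, h14, -, -, h15⟩ := h4 g' h11
  obtain ⟨r', h16, h17, h18, z', h19, h20⟩ := h15 _ hr
    (fun x hx => mem_inter.2 ⟨h5 (sub_l _ _ hx), hqd hx⟩)
    (h10.trans (At_mono ((ho.mem h11).subset_of_mem h13))) b h12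
  exact ⟨r' ∪ q', union_PP h16 hq' (h7.cut_union (mem_PP.1 h16).2.1 hκ.ord ho hc h8 h17
    (h18.trans (At_mono (ho.subset_of_mem h14)))), sub_r _ _, z', ho.mem_trans h19 h14,
    h20.mono (sub_l _ _)⟩

theorem stat (h : S_Cnt) (X : GX M κ S n G) {a p : ZF} (ha : a ∈ M)
    (hst : Stat M κ (fun ξ => pair a ξ ∈ S)) (hp : p ∈ G)
    (hok : ∀ ξ, pair a ξ ∈ S → ∀ m, n ⊆ m → Ok S p m ξ) :
    Stat (val G '' M) κ (fun ξ => pair a ξ ∈ S) := by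
  intro R hR hT
  have hκ := X.sys.hart
  obtain ⟨s, hs, e⟩ : R ∩ prod κ κ ∈ val G '' M := by
    have := X.cx.model
    have := In.mk' hR
    have := In.mk' (X.cx.sub_ext hκ.mem)
    exact In.mem _
  have := In.mk' hκ.mem
  obtain ⟨t, ht, -, h1⟩ := X.cx.cap_ext (a := prod κ κ) hs (In.mem _)
    (by rw [e]; exact fun _ hx => (mem_inter.1 hx).2)
  rw [e] at h1
  have := In.mk' (X.sys.PP_mem X.hn).1
  have := In.mk' ht
  have := In.mk' ha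
  have := In.mk' X.sys.mem
  obtain ⟨q, hq, ⟨d, h2, h3, h4, h5⟩ | ⟨b, hb, h2⟩⟩ := X.meet' (fun r =>
      (∃ d ∈ κ, pair a d ∈ S ∧ d ≠ ∅ ∧ ∀ b ∈ d, ∀ q' ∈ PP M κ S n, r ⊆ q' →
        ∃ q'' ∈ PP M κ S n, q' ⊆ q'' ∧ ∃ z ∈ d, Hit (PP M κ S n) t q'' b z) ∨
      ∃ b ∈ κ, ∀ r' ∈ PP M κ S n, r ⊆ r' → ∀ z ∈ κ, ¬ Hit (PP M κ S n) t r' b z)
    inferInstance hp fun q hq hpq => by
      by_cases H : ∀ r ∈ PP M κ S n, q ⊆ r → ∀ b ∈ κ, ∃ r' ∈ PP M κ S n, r ⊆ r' ∧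
          ∃ z ∈ κ, Hit (PP M κ S n) t r' b z
      · obtain ⟨r, h2, h3, h4⟩ := master h X.sys X.hn ht hq hst
          (fun ξ h2 m hm => (hok ξ h2 m hm).mono hpq) H
        exact ⟨r, h2, h3, Or.inl h4⟩
      · push Not at H
        obtain ⟨r, h2, h3, h4⟩ := H
        exact ⟨r, h2, h3, Or.inr h4⟩
  · refine ⟨d, h2, h3, h4, fun b hb => ?_⟩
    have := In.mk' (tr hκ.mem h2)
    have := In.mk' (tr (tr hκ.mem h2) hb)
    obtain ⟨r, h6, z, h7, u, h8, h9, h10⟩ := X.meet'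
      (fun r => ∃ z ∈ d, Hit (PP M κ S n) t r b z) inferInstance hq (h5 b hb)
    exact ⟨z, h7, (mem_inter.1 ((h1 _).2 ⟨u, X.up h6 h8 h9, h10⟩)).1⟩
  · obtain ⟨z, h3, h4⟩ := hT b hb
    obtain ⟨u, h5, h6⟩ := (h1 _).1 (mem_inter.2 ⟨h4, pair_mem_prod.2 ⟨hb, h3⟩⟩)
    obtain ⟨r, h7, h8, h9⟩ := X.dir hq h5
    exact absurd ⟨u, X.gen.sub h5, h9, h6⟩ (h2 r (X.gen.sub h7) h8 z h3)

theorem hart (h : S_Cnt) (X : GX M κ S n G) : Hart (val G '' M) om κ := by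
  have hκ := X.sys.hart
  refine ⟨X.cx.sub_ext hκ.mem, hκ.ord, ?_, fun ξ hξ => ?_⟩
  · rintro ⟨f, hf, h1⟩
    obtain ⟨p, hp⟩ := X.cx.ne
    have h2 := stat h X (a := pair (pair ∅ ∅) ∅) (In.mem _) X.sys.stat0 hp
      fun ξ h2 m _ => X.sys.ok0 h2 p m
    have := X.cx.model
    have := In.mk' hf
    have := In.mk' (X.cx.sub_ext hκ.mem)
    obtain ⟨d, h3, -, h4, h5⟩ := h2.close (X.cx.sub_ext hκ.mem)
      (fun b z => om ∈ z ∧ (app f b ∈ κ → app f b ∈ z)) inferInstance fun b _ => by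
        have h3 := hκ.omega inf_omega
        by_cases h4 : app f b ∈ κ
        · obtain ⟨z, h5, h6, h7, -⟩ := X.sys.lm.three h3 h4 h4
          exact ⟨z, h5, h6, fun _ => h7⟩
        · obtain ⟨z, h5, h6⟩ := X.sys.lm.up _ h3
          exact ⟨z, h5, h6, fun h7 => absurd h7 h4⟩
    have ho := hκ.ord.mem h3
    obtain ⟨b, hb⟩ := (eq_empty_or_nonempty d).resolve_left h4
    obtain ⟨z, h6, h7, -⟩ := h5 b hb
    obtain ⟨x, hx, e⟩ := h1 d h3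
    obtain ⟨z', h8, -, h9⟩ := h5 x (ho.mem_trans hx (ho.mem_trans h7 h6))
    rw [e] at h9
    exact mem_irrefl d (ho.mem_trans (h9 h3) h8)
  · obtain ⟨f, hf, h1⟩ := hκ.le ξ hξ
    exact ⟨f, X.cx.sub_ext hf, h1⟩

end PresP

theorem pres (h : S_Cnt) : S_Pres := fun _ _ _ _ _ _ X =>
  ⟨fun _ ha hst _ hp hok => PresP.stat h X ha hst hp hok, PresP.hart h X⟩

end Pool.Agent.P.MP_0b3dfe_lc
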