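import Pool.Agent.P.MP_0b3dfe_lc.Defs
import Pool.Agent.P.MP_3ab3de_lc.Card

/-! Statements of the packages that need only the library of transitive models. -/

namespace Pool.Agent.P.MP_0b3dfe_lc

open ZFSet Pool.Agent.P.MP_3ab3de_lc

instance zmodel_of_tmodel {N : Set ZF} [h : TModel N] : ZModel N :=
  ⟨h.trans, h.pairing, h.union, h.infinity, h.power, h.separation, h.replacement⟩

/-- `S` is stationary in `κ` for `N`: every total relation of `N` has a closure point in `S` -/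
def Stat (N : Set ZF) (κ : ZF) (S : ZF → Prop) : Prop :=
  ∀ R ∈ N, (∀ β ∈ κ, ∃ ζ ∈ κ, pair β ζ ∈ R) →
    ∃ δ ∈ κ, S δ ∧ δ ≠ ∅ ∧ ∀ β ∈ δ, ∃ ζ ∈ δ, pair β ζ ∈ R

/-- disjoint stationary sets indexed by triples `((m, i), α)` -/
structure Sys (M : Set ZF) (κ SS : ZF) : Prop where
  hart : Hart M om κ
  mem : SS ∈ M
  stat : ∀ m ∈ om, ∀ i ∈ κ, ∀ α ∈ κ, Stat M κ (fun ξ => pair (pair (pair m i) α) ξ ∈ SS)
  disj : ∀ a b ξ, pair a ξ ∈ SS → pair b ξ ∈ SS → a = b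
  below : ∀ m i α ξ, pair (pair (pair m i) α) ξ ∈ SS → i ∈ ξ ∧ α ∈ ξ

def S_Split : Prop := ∀ (M : Set ZF) [TModel M], ∃ κ SS, Sys M κ SS

def S_AA : Prop := ∀ (N : Set ZF) [TModel N] (κ : ZF), Hart N om κ → ∀ X ∈ N, κ ⊆ X →
  ∀ T : ZF → Prop,
    (∃ K ∈ N, Club N (X : Set ZF) K ∧ ∀ s ∈ K, ¬ T (s ∩ κ)) ↔ ¬ Stat N κ T

def S_Inter : Prop := ∀ W : ℕ → Set ZF, (∀ n, TModel (W n)) →
  (∀ n, Df (W n) (fun v => v 0 ∈ ⋂ k, W k)) → ZModel (⋂ k, W k)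

theorem Stat.close {N : Set ZF} [TModel N] {κ : ZF} {S : ZF → Prop} (h : Stat N κ S) (hκ : κ ∈ N)
    (Q : ZF → ZF → Prop) (hQ : Df N (fun v => Q (v 0) (v 1))) (H : ∀ β ∈ κ, ∃ ζ ∈ κ, Q β ζ) :
    ∃ δ ∈ κ, S δ ∧ δ ≠ ∅ ∧ ∀ β ∈ δ, ∃ ζ ∈ δ, Q β ζ := by
  have := fun s t [Tm N s] [Tm N t] => hQ.two s t
  have := In.mk' hκ
  obtain ⟨δ, h1, h2, h3, h4⟩ := h (ZFSet.sep (fun z => Q (fst z) (snd z)) (prod κ κ)) (In.mem _)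
    fun β hβ => by
      obtain ⟨ζ, h1, h2⟩ := H β hβ
      exact ⟨ζ, h1, mem_sep.2 ⟨pair_mem_prod.2 ⟨hβ, h1⟩, by simpa using h2⟩⟩
  refine ⟨δ, h1, h2, h3, fun β hβ => ?_⟩
  obtain ⟨ζ, h5, h6⟩ := h4 β hβ
  exact ⟨ζ, h5, by simpa using (mem_sep.1 h6).2⟩

end Pool.Agent.P.MP_0b3dfe_lc
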