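import Pool.Agent.P.MP_0b3dfe_lc.St0
import Pool.Agent.P.MP_9a7e1f_lc.D0

/-! Predicates and terms defined by one formula, with parameters from `A`, in all models above `A`. -/

set_option linter.unusedSectionVars false

namespace Pool.Agent.P.MP_0b3dfe_lc

open ZFSet Pool.Agent.P.MP_3ab3de_lc

/-- `N` is a model of ZF that includes `A` -/
structure Ov (A N : Set ZF) : Prop where
  z : ZModel N
  sub : A ⊆ N

theorem Ov.self (N : Set ZF) [h : ZModel N] : Ov N N := ⟨h, fun _ h => h⟩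

theorem Ov.empty (N : Set ZF) [h : ZModel N] : Ov ∅ N := ⟨h, Set.empty_subset _⟩

/-- uniformly definable predicates -/
class UD (A : Set ZF) (P : Set ZF → Env → Prop) : Prop where
  out : ∃ (φ : Fml) (ρ : ℕ → ℕ ⊕ A), ∀ N, Ov A N → ∀ v, EIn N v →
    (P N v ↔ Sat N φ (fun n => Sum.elim v Subtype.val (ρ n)))

/-- uniformly definable terms -/
class UT (A : Set ZF) (t : Set ZF → Env → ZF) : Prop where
  mem : ∀ N, Ov A N → ∀ v, EIn N v → t N v ∈ N
  out : UD A (fun N v => v 0 = t N (fun n => v (n + 1)))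

/-- constants -/
abbrev UI (A : Set ZF) (c : ZF) : Prop := UT A (fun _ _ => c)

class UO (t : Set ZF → Env → ZF → ZF) : Prop where
  out : ∀ N, ZModel N → ∀ v x, t N v x ∈ N → x ∈ N

class UV (A : Set ZF) (P : Set ZF → Env → ZF → Prop) : Prop where
  out : ∀ N, Ov A N → ∀ v, EIn N v → ∀ x, P N v x → x ∈ N

class UR (A : Set ZF) (P : Set ZF → Env → ZF → Prop) : Prop where
  out : ∀ N, Ov A N → ∀ v, EIn N v → ∀ x, x ∉ N → P N v x

variable {A : Set ZF}

theorem Ov.ein {N : Set ZF} (o : Ov A N) {v : Env} (h : EIn N v) (ρ : ℕ → ℕ ⊕ A) :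
    EIn N (fun n => Sum.elim v Subtype.val (ρ n)) := by
  intro n
  dsimp only
  cases ρ n with
  | inl k => exact h k
  | inr c => exact o.sub c.2

namespace UD

theorem congr {P Q : Set ZF → Env → Prop} (h : UD A P)
    (H : ∀ N, Ov A N → ∀ v, EIn N v → (Q N v ↔ P N v)) : UD A Q := by
  obtain ⟨φ, ρ, h⟩ := h
  exact ⟨φ, ρ, fun N o v hv => (H N o v hv).trans (h N o v hv)⟩

theorem up {B : Set ZF} {P : Set ZF → Env → Prop} (h : UD A P) (hB : A ⊆ B) : UD B P := by
  obtain ⟨φ, ρ, h⟩ := h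
  refine ⟨φ, fun n => Sum.map id (fun c => ⟨c.1, hB c.2⟩) (ρ n), fun N o v hv =>
    (h N ⟨o.z, hB.trans o.sub⟩ v hv).trans ?_⟩
  have : (fun n => Sum.elim v Subtype.val (ρ n)) = fun n => Sum.elim v Subtype.val
      (Sum.map id (fun c : A => (⟨c.1, hB c.2⟩ : B)) (ρ n)) := by
    funext n; cases ρ n <;> rfl
  rw [this]

theorem df {P : Set ZF → Env → Prop} (h : UD A P) {N : Set ZF} (o : Ov A N) : Df N (P N) := by
  obtain ⟨φ, ρ, h⟩ := h.up o.sub
  exact ⟨φ, ρ, h N ⟨o.z, fun _ h => h⟩⟩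

theorem sub {P : Set ZF → Env → Prop} (h : UD A P) (σ : ℕ → ℕ ⊕ A) :
    UD A (fun N v => P N (fun n => Sum.elim v Subtype.val (σ n))) := by
  obtain ⟨φ, ρ, h⟩ := h
  refine ⟨φ, fun n => Sum.elim σ Sum.inr (ρ n), fun N o v hv => (h N o _ (o.ein hv σ)).trans ?_⟩
  have : (fun n => Sum.elim (fun n => Sum.elim v Subtype.val (σ n)) Subtype.val (ρ n)) =
      fun n => Sum.elim v Subtype.val (Sum.elim σ Sum.inr (ρ n)) := by
    funext n; cases ρ n <;> rfl
  rw [this]

theorem ren {P : Set ZF → Env → Prop} (h : UD A P) (σ : ℕ → ℕ) :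
    UD A (fun N v => P N (fun n => v (σ n))) := h.sub (fun n => Sum.inl (σ n))

theorem sat (φ : Fml) : UD A (fun N v => Sat N φ v) := ⟨φ, Sum.inl, fun _ _ _ _ => Iff.rfl⟩

theorem d0 {P : Env → Prop} (h : MP_9a7e1f_lc.D0 P) : UD A (fun _ v => P v) := by
  obtain ⟨φ, h⟩ := h
  exact (sat φ).congr fun N o v hv => h N o.z.trans v hv

theorem mem0 (i j : ℕ) : UD A (fun _ v => v i ∈ v j) := sat (Fml.mem i j)

theorem eq0 (i j : ℕ) : UD A (fun _ v => v i = v j) := sat (Fml.eq i j)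

theorem bot : UD A (fun _ _ => False) := sat Fml.bot

instance imp {P Q : Set ZF → Env → Prop} [h1 : UD A P] [h2 : UD A Q] :
    UD A (fun N v => P N v → Q N v) := by
  obtain ⟨φ, ρ, h1⟩ := h1
  obtain ⟨ψ, σ, h2⟩ := h2
  refine ⟨Fml.imp (φ.ren (fun n => 2 * n)) (ψ.ren (fun n => 2 * n + 1)),
    fun n => if n % 2 = 0 then ρ (n / 2) else σ (n / 2), fun N o v hv => imp_congr ?_ ?_⟩
  · rw [h1 N o v hv]; refine Iff.trans ?_ (sat_ren _ _ _).symm
    simp
  · rw [h2 N o v hv]; refine Iff.trans ?_ (sat_ren _ _ _).symm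
    have e1 : ∀ n : ℕ, (2 * n + 1) / 2 = n := fun n => by omega
    simp [e1]

theorem allM {P : Set ZF → Env → ZF → Prop}
    (h : UD A (fun N v => P N (fun n => v (n + 1)) (v 0))) :
    UD A (fun N v => ∀ x ∈ N, P N v x) := by
  obtain ⟨φ, ρ, h⟩ := h
  refine ⟨Fml.all (φ.ren (fun n => Sum.elim (cns 0 (fun _ => n + 1)) (fun _ => n + 1) (ρ n))),
    fun n => Sum.elim (fun k => Sum.inl (k - 1)) Sum.inr (ρ n),
    fun N o v hv => forall_congr' (fun x => imp_congr_right fun hx =>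
      (h N o (cons x v) (hv.cons hx)).trans ?_)⟩
  refine Iff.trans ?_ (sat_ren _ _ _).symm
  have : (fun n => Sum.elim (cons x v) Subtype.val (ρ n)) = fun n =>
      cons x (fun n => Sum.elim v Subtype.val
        (Sum.elim (fun k => Sum.inl (k - 1)) Sum.inr (ρ n) : ℕ ⊕ A))
        (Sum.elim (cns 0 (fun _ => n + 1)) (fun _ => n + 1) (ρ n)) := by
    funext n
    rcases e : ρ n with k | c
    · cases k
      · rfl
      · simp [cns, e]
    · simp [e]
  rw [this]

instance all {P : Set ZF → Env → ZF → Prop} [t : UR A P]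
    [h : UD A (fun N v => P N (fun n => v (n + 1)) (v 0))] : UD A (fun N v => ∀ x, P N v x) :=
  (allM h).congr fun N o v hv => ⟨fun h x _ => h x, fun h x => by
    by_cases hx : x ∈ N
    exacts [h x hx, t.out N o v hv x hx]⟩

instance not {P : Set ZF → Env → Prop} [UD A P] : UD A (fun N v => ¬ P N v) := @imp _ _ _ _ bot

instance and {P Q : Set ZF → Env → Prop} [UD A P] [UD A Q] : UD A (fun N v => P N v ∧ Q N v) :=
  (inferInstance : UD A (fun N v => ¬ (P N v → ¬ Q N v))).congr (fun _ _ _ _ => by tauto)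

instance or {P Q : Set ZF → Env → Prop} [UD A P] [UD A Q] : UD A (fun N v => P N v ∨ Q N v) :=
  (inferInstance : UD A (fun N v => ¬ P N v → Q N v)).congr (fun _ _ _ _ => by tauto)

instance iff {P Q : Set ZF → Env → Prop} [UD A P] [UD A Q] : UD A (fun N v => P N v ↔ Q N v) :=
  (inferInstance : UD A (fun N v => (P N v → Q N v) ∧ (Q N v → P N v))).congr
    (fun _ _ _ _ => iff_def)

theorem exM {P : Set ZF → Env → ZF → Prop}
    (h : UD A (fun N v => P N (fun n => v (n + 1)) (v 0))) :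
    UD A (fun N v => ∃ x ∈ N, P N v x) :=
  (@not _ _ (allM (P := fun N v x => ¬ P N v x) (@not _ _ h))).congr (fun _ _ _ _ => by simp)

instance ex {P : Set ZF → Env → ZF → Prop} [t : UV A P]
    [h : UD A (fun N v => P N (fun n => v (n + 1)) (v 0))] : UD A (fun N v => ∃ x, P N v x) :=
  (exM h).congr fun N o v hv =>
    ⟨fun ⟨x, h⟩ => ⟨x, t.out N o v hv x h, h⟩, fun ⟨x, _, h⟩ => ⟨x, h⟩⟩

instance (priority := low) const (p : Prop) : UD A (fun _ _ => p) := by
  by_cases h : p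
  · exact (@not _ _ bot).congr (fun _ _ _ _ => by simp [h])
  · exact bot.congr (fun _ _ _ _ => by simp [h])

instance (priority := low) ren' {P : Set ZF → Env → Prop} [h : UD A P] (ρ : ℕ → ℕ) :
    UD A (fun N v => P N (fun n => v (ρ n))) := h.ren ρ

end UD

namespace UT

instance var (i : ℕ) : UT A (fun _ v => v i) := ⟨fun _ _ _ h => h i, UD.eq0 0 (i + 1)⟩

instance (priority := low) ren {t : Set ZF → Env → ZF} [h : UT A t] (ρ : ℕ → ℕ) :
    UT A (fun N v => t N (fun n => v (ρ n))) :=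
  ⟨fun N o _ hv => h.mem N o _ (hv.ren ρ), h.out.ren (cns 0 (fun n => ρ n + 1))⟩

theorem up {B : Set ZF} {t : Set ZF → Env → ZF} (h : UT A t) (hB : A ⊆ B) : UT B t :=
  ⟨fun N o => h.mem N ⟨o.z, hB.trans o.sub⟩, h.out.up hB⟩

theorem tm {t : Set ZF → Env → ZF} (h : UT A t) {N : Set ZF} (o : Ov A N) : Tm N (t N) :=
  ⟨h.mem N o, h.out.df o⟩

end UT

theorem UI.mk' {c : ZF} (h : c ∈ A) : UI A c :=
  ⟨fun _ o _ _ => o.sub h, (UD.eq0 0 1).sub (cns (Sum.inl 0) (fun _ => Sum.inr ⟨c, h⟩))⟩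

theorem UD.two {R : Set ZF → ZF → ZF → Prop} (h : UD A (fun N v => R N (v 0) (v 1)))
    (s t : Set ZF → Env → ZF) [hs : UT A s] [ht : UT A t] :
    UD A (fun N v => R N (s N v) (t N v)) := by
  have h1 := hs.out.ren (cns 1 (fun n => n + 2))
  have h2 := ht.out.ren (cns 0 (fun n => n + 2))
  have h3 := h.ren (cns 1 (fun _ => 0))
  exact (UD.allM (P := fun N v a => ∀ b ∈ N, a = s N v → b = t N v → R N a b) (UD.allM
    (@UD.imp _ _ _ h1 (@UD.imp _ _ _ h2 h3)))).congr (fun N o v hv =>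
      ⟨fun h _ _ _ _ ha hb => ha ▸ hb ▸ h,
        fun h => h _ (hs.mem N o v hv) _ (ht.mem N o v hv) rfl rfl⟩)

instance UD.mem {s t : Set ZF → Env → ZF} [UT A s] [UT A t] : UD A (fun N v => s N v ∈ t N v) :=
  UD.two (R := fun _ a b => a ∈ b) (UD.mem0 0 1) s t

instance UD.eq {s t : Set ZF → Env → ZF} [UT A s] [UT A t] : UD A (fun N v => s N v = t N v) :=
  UD.two (R := fun _ a b => a = b) (UD.eq0 0 1) s t

instance UD.ne {s t : Set ZF → Env → ZF} [UT A s] [UT A t] : UD A (fun N v => s N v ≠ t N v) :=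
  UD.not

instance UD.memM {s : Set ZF → Env → ZF} [h : UT A s] : UD A (fun N v => s N v ∈ N) :=
  (UD.const True).congr fun N o v hv => iff_true_intro (h.mem N o v hv)

theorem UD.one {P : Set ZF → ZF → Prop} (h : UD A (fun N v => P N (v 0)))
    (s : Set ZF → Env → ZF) [UT A s] : UD A (fun N v => P N (s N v)) :=
  UD.two (R := fun N a _ => P N a) h s s

theorem UD.three {R : Set ZF → ZF → ZF → ZF → Prop}
    (h : UD A (fun N v => R N (v 0) (v 1) (v 2)))
    (s t r : Set ZF → Env → ZF) [hs : UT A s] [ht : UT A t] [hr : UT A r] :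
    UD A (fun N v => R N (s N v) (t N v) (r N v)) := by
  have h3 : UD A (fun N v => R N (v 2) (v 1) (v 0)) := h.ren (cns 2 (cns 1 (fun _ => 0)))
  have h4 : UD A (fun N v => v 2 = s N (fun n => v (n + 3)) → v 1 = t N (fun n => v (n + 3)) →
      v 0 = r N (fun n => v (n + 3)) → R N (v 2) (v 1) (v 0)) := inferInstance
  exact (UD.allM (P := fun N v a => ∀ b ∈ N, ∀ c ∈ N, a = s N v → b = t N v → c = r N v →
    R N a b c) (UD.allM (UD.allM h4))).congr fun N o v hv =>
      ⟨fun h a _ b _ c _ ha hb hc => ha ▸ hb ▸ hc ▸ h,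
        fun h => h _ (hs.mem N o v hv) _ (ht.mem N o v hv) _ (hr.mem N o v hv) rfl rfl rfl⟩

theorem UT.one {G : Set ZF → ZF → ZF} (h : UT A (fun N v => G N (v 0)))
    (s : Set ZF → Env → ZF) [hs : UT A s] : UT A (fun N v => G N (s N v)) :=
  ⟨fun N o v hv => h.mem N o (fun _ => s N v) fun _ => hs.mem N o v hv,
    UD.two (R := fun N a b => a = G N b) h.out (fun _ v => v 0)
      (fun N v => s N (fun n => v (n + 1)))⟩

theorem UT.two {G : Set ZF → ZF → ZF → ZF} (h : UT A (fun N v => G N (v 0) (v 1)))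
    (s t : Set ZF → Env → ZF) [hs : UT A s] [ht : UT A t] :
    UT A (fun N v => G N (s N v) (t N v)) :=
  ⟨fun N o v hv => h.mem N o (cons (s N v) fun _ => t N v)
      (EIn.cons (fun _ => ht.mem N o v hv) (hs.mem N o v hv)),
    UD.three (R := fun N a b c => a = G N b c) h.out (fun _ v => v 0)
      (fun N v => s N (fun n => v (n + 1))) (fun N v => t N (fun n => v (n + 1)))⟩

/-- substitution of terms for all variables of a formula -/
theorem UD.subst0 (φ : Fml) : ∀ t : ℕ → Set ZF → Env → ZF, (∀ k, UT A (t k)) →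
    UD A (fun N v => Sat N φ (fun k => t k N v)) := by
  induction φ with
  | mem i j => exact fun t h => @UD.mem _ _ _ (h i) (h j)
  | eq i j => exact fun t h => @UD.eq _ _ _ (h i) (h j)
  | bot => exact fun _ _ => UD.bot
  | imp φ ψ h1 h2 => exact fun t h => @UD.imp _ _ _ (h1 t h) (h2 t h)
  | all φ ih =>
    intro t h
    refine UD.allM (P := fun N v x => Sat N φ (cons x fun k => t k N v)) ?_
    refine (ih (cns (fun _ v => v 0) fun k N v => t k N (fun n => v (n + 1))) fun k => ?_).congr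
      fun N _ v _ => ?_
    · cases k with
      | zero => exact UT.var 0
      | succ k => exact @UT.ren _ _ (h k) _
    · have : (cons (v 0) fun k => t k N (fun n => v (n + 1))) = fun k =>
          cns (fun _ v => v 0) (fun k N v => t k N (fun n => v (n + 1))) k N v := by
        funext k; cases k <;> rfl
      rw [this]

/-- substitution of terms for all variables -/
theorem UD.subst {P : Set ZF → Env → Prop} (h : UD A P) (t : ℕ → Set ZF → Env → ZF)
    (ht : ∀ k, UT A (t k)) : UD A (fun N v => P N (fun k => t k N v)) := by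
  obtain ⟨φ, ρ, h⟩ := h
  refine (UD.subst0 φ (fun k => Sum.elim t (fun c _ _ => c.1) (ρ k)) fun k => ?_).congr
    fun N o v hv => (h N o _ fun k => (ht k).mem N o v hv).trans ?_
  · cases ρ k with
    | inl j => exact ht j
    | inr c => exact UI.mk' c.2
  · have : (fun n => Sum.elim (fun k => t k N v) Subtype.val (ρ n)) =
        fun k => Sum.elim t (fun (c : A) _ _ => c.1) (ρ k) N v := by
      funext k; cases ρ k <;> rfl
    rw [this]

/-! ### bounded quantifiers -/

section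

variable {N : Set ZF}

theorem Ov.tr (o : Ov A N) {x y : ZF} (hx : x ∈ N) (hy : y ∈ x) : y ∈ N := o.z.trans x hx y hy

theorem Ov.empty_mem (o : Ov A N) : (∅ : ZF) ∈ N := o.tr o.z.infinity omega_zero

theorem Ov.mem (o : Ov A N) (t : Set ZF → ZF) [h : UT A (fun N _ => t N)] : t N ∈ N :=
  h.mem N o (fun _ => ∅) fun _ => o.empty_mem

theorem UI.mem [ZModel N] (c : ZF) [h : UI N c] : c ∈ N := (Ov.self N).mem (fun _ => c)

end

instance UO.id : UO (fun _ _ x => x) := ⟨fun _ _ _ _ h => h⟩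

instance UO.pair1 {a b : Set ZF → Env → ZF → ZF} [h : UO a] :
    UO (fun N v x => pair (a N v x) (b N v x)) :=
  ⟨fun N z v x H => h.out N z v x (MP_9a7e1f_lc.Trn.fst z.trans H)⟩

instance UO.pair2 {a b : Set ZF → Env → ZF → ZF} [h : UO b] :
    UO (fun N v x => pair (a N v x) (b N v x)) :=
  ⟨fun N z v x H => h.out N z v x (MP_9a7e1f_lc.Trn.snd z.trans H)⟩

section

variable {P Q : Set ZF → Env → ZF → Prop} {R : Set ZF → Env → ZF → ZF → Prop}
  {t : Set ZF → Env → ZF → ZF} {s : Set ZF → Env → ZF}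

instance UV.mem [h : UO t] [h' : UT A s] : UV A (fun N v x => t N v x ∈ s N v) :=
  ⟨fun N o v hv x H => h.out N o.z v x (o.tr (h'.mem N o v hv) H)⟩

instance UV.memM [h : UO t] : UV A (fun N v x => t N v x ∈ N) :=
  ⟨fun N o v _ x H => h.out N o.z v x H⟩

instance UV.eq1 [h : UO t] [h' : UT A s] : UV A (fun N v x => t N v x = s N v) :=
  ⟨fun N o v hv x H => h.out N o.z v x (H ▸ h'.mem N o v hv)⟩

instance UV.eq2 [h : UO t] [h' : UT A s] : UV A (fun N v x => s N v = t N v x) :=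
  ⟨fun N o v hv x H => h.out N o.z v x (H ▸ h'.mem N o v hv)⟩

instance UV.and2 [h : UV A Q] : UV A (fun N v x => P N v x ∧ Q N v x) :=
  ⟨fun N o v hv x H => h.out N o v hv x H.2⟩

instance UV.and1 [h : UV A P] : UV A (fun N v x => P N v x ∧ Q N v x) :=
  ⟨fun N o v hv x H => h.out N o v hv x H.1⟩

instance UV.or [h : UV A P] [h' : UV A Q] : UV A (fun N v x => P N v x ∨ Q N v x) :=
  ⟨fun N o v hv x H => H.elim (h.out N o v hv x) (h'.out N o v hv x)⟩

instance UV.ex [h : ∀ y, UV A (fun N v x => R N v x y)] : UV A (fun N v x => ∃ y, R N v x y) :=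
  ⟨fun N o v hv x ⟨y, H⟩ => (h y).out N o v hv x H⟩

instance UR.imp2 [h : UR A Q] : UR A (fun N v x => P N v x → Q N v x) :=
  ⟨fun N o v hv x H _ => h.out N o v hv x H⟩

instance UR.imp1 [h : UV A P] : UR A (fun N v x => P N v x → Q N v x) :=
  ⟨fun N o v hv x H H' => absurd (h.out N o v hv x H') H⟩

instance UR.not [h : UV A P] : UR A (fun N v x => ¬ P N v x) :=
  ⟨fun N o v hv x H H' => H (h.out N o v hv x H')⟩

instance UR.iff [h : UV A P] [h' : UV A Q] : UR A (fun N v x => P N v x ↔ Q N v x) :=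
  ⟨fun N o v hv x H => iff_of_false (fun H' => H (h.out N o v hv x H'))
    (fun H' => H (h'.out N o v hv x H'))⟩

instance UR.all [h : ∀ y, UR A (fun N v x => R N v x y)] : UR A (fun N v x => ∀ y, R N v x y) :=
  ⟨fun N o v hv x H y => (h y).out N o v hv x H⟩

end

instance UD.subset {s t : Set ZF → Env → ZF} [UT A s] [UT A t] :
    UD A (fun N v => s N v ⊆ t N v) :=
  (inferInstance : UD A (fun N v => ∀ x, x ∈ s N v → x ∈ t N v)).congr fun _ _ _ _ => subset_def

instance UD.exu {P : Set ZF → Env → ZF → Prop} [UV A P]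
    [h : UD A (fun N v => P N (fun n => v (n + 1)) (v 0))] : UD A (fun N v => ∃! x, P N v x) := by
  have h3 : UD A (fun N v => P N (fun n => v (n + 2)) (v 0)) := h.ren (cns 0 (fun n => n + 2))
  have : UV A (fun N v x => P N (fun n => v (n + 1)) x) :=
    ⟨fun N o v hv x H => UV.out (P := P) N o _ (hv.ren _) x H⟩
  exact (inferInstance : UD A (fun N v => ∃ x, P N v x ∧ ∀ y, P N v y → y = x))

/-! ### separation and replacement in a model of ZF -/

theorem zsep {N : Set ZF} [hN : ZModel N] (P : ZF → Prop) (h : Df N (fun v => P (v 0))) {a : ZF}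
    (ha : a ∈ N) : ZFSet.sep P a ∈ N := by
  obtain ⟨φ, ρ, h⟩ := h
  obtain ⟨b, hb, e⟩ := hN.separation (φ.ren (fun n => Sum.elim (fun _ => 0) (fun _ => n + 1) (ρ n)))
    (fun n => Sum.elim (fun _ => a) Subtype.val (ρ n)) (ein_elim (fun _ => ha) ρ) a ha
  convert hb using 1
  ext x
  rw [e, mem_sep]
  refine and_congr_right fun hx => Iff.trans ?_ (sat_ren _ _ _).symm
  refine (h (fun _ => x) fun _ => hN.trans _ ha _ hx).trans ?_
  have : (fun n => cons x (fun n => Sum.elim (fun _ => a) Subtype.val (ρ n))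
      (Sum.elim (fun _ => 0) (fun _ => n + 1) (ρ n))) =
      fun n => Sum.elim (fun _ => x) Subtype.val (ρ n) := by
    funext n
    rcases e : ρ n with k | c
    · rfl
    · simp [e]
  rw [this]

theorem zrepl {N : Set ZF} [hN : ZModel N] (R : ZF → ZF → Prop)
    (h : Df N (fun v => R (v 1) (v 0))) {a : ZF} (ha : a ∈ N)
    (hu : ∀ x ∈ a, ∃! y, y ∈ N ∧ R x y) : ∃ b ∈ N, ∀ y, y ∈ b ↔ y ∈ N ∧ ∃ x ∈ a, R x y := by
  obtain ⟨φ, ρ, h⟩ := h
  let φ' := φ.ren (fun n => Sum.elim (cns 0 fun _ => 1) (fun _ => n + 2) (ρ n))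
  let w : Env := fun n => Sum.elim (fun _ => a) Subtype.val (ρ n)
  have tr' : ∀ x ∈ a, x ∈ N := hN.trans a ha
  have key : ∀ x ∈ N, ∀ y ∈ N, (R x y ↔ Sat N φ' (cons y (cons x w))) := by
    intro x hx y hy
    refine (h (cons y fun _ => x) (EIn.cons (fun _ => hx) hy)).trans
      (Iff.trans ?_ (sat_ren _ _ _).symm)
    have : (fun n => cons y (cons x w) (Sum.elim (cns 0 fun _ => 1) (fun _ => n + 2) (ρ n))) =
        fun n => Sum.elim (cons y fun _ => x) Subtype.val (ρ n) := by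
      funext n
      rcases e : ρ n with k | c
      · cases k <;> rfl
      · simp [e, w]
    rw [this]
  obtain ⟨b, hb, e⟩ := hN.replacement φ' w (ein_elim (fun _ => ha) ρ) a ha fun x hx => by
    obtain ⟨y, ⟨h1, h2⟩, h3⟩ := hu x hx
    exact ⟨y, ⟨h1, (key x (tr' x hx) y h1).1 h2⟩, fun z hz =>
      h3 z ⟨hz.1, (key x (tr' x hx) z hz.1).2 hz.2⟩⟩
  refine ⟨b, hb, fun y => (e y).trans (and_congr_right fun hy => exists_congr fun x =>
    and_congr_right fun hx => (key x (tr' x hx) y hy).symm)⟩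

end Pool.Agent.P.MP_0b3dfe_lc
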