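import Pool.Agent.P.MP_0b3dfe_lc.U1

/-! Uniformly definable set operations. -/

set_option linter.unusedSectionVars false
set_option synthInstance.maxSize 100000

namespace Pool.Agent.P.MP_0b3dfe_lc

open ZFSet Pool.Agent.P.MP_3ab3de_lc

variable {A : Set ZF}

theorem UD.fix1 {P : Set ZF → Env → ZF → Prop}
    (h : UD A (fun N v => P N (fun n => v (n + 1)) (v 0))) {N : Set ZF} (o : Ov A N) {v : Env}
    (hv : EIn N v) : Df N (fun w => P N v (w 0)) :=
  (h.df o).sub (cns (Sum.inl 0) fun n => Sum.inr ⟨v n, hv n⟩)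

theorem UD.fix2 {P : Set ZF → Env → ZF → ZF → Prop}
    (h : UD A (fun N v => P N (fun n => v (n + 2)) (v 0) (v 1))) {N : Set ZF} (o : Ov A N) {v : Env}
    (hv : EIn N v) : Df N (fun w => P N v (w 0) (w 1)) :=
  (h.df o).sub (cns (Sum.inl 0) (cns (Sum.inl 1) fun n => Sum.inr ⟨v n, hv n⟩))

theorem UT.ofMem {t : Set ZF → Env → ZF} (Q : Set ZF → Env → ZF → Prop)
    (hm : ∀ N, Ov A N → ∀ v, EIn N v → t N v ∈ N)
    (e : ∀ N, Ov A N → ∀ v, EIn N v → ∀ x ∈ N, x ∈ t N v ↔ Q N v x)
    (h : UD A (fun N v => Q N (fun n => v (n + 1)) (v 0))) : UT A t := by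
  refine ⟨hm, ?_⟩
  have h2 : UD A (fun N v => Q N (fun n => v (n + 2)) (v 0)) := h.ren (cns 0 (fun n => n + 2))
  have h3 : UD A (fun N v => v 0 ∈ v 1 ↔ Q N (fun n => v (n + 2)) (v 0)) := inferInstance
  refine (UD.allM (P := fun N v x => x ∈ v 0 ↔ Q N (fun n => v (n + 1)) x) h3).congr
    fun N o v hv => ?_
  have hv' : EIn N fun n => v (n + 1) := hv.ren _
  refine ⟨fun h x hx => by rw [h]; exact e N o _ hv' x hx, fun h => ZFSet.ext fun x =>
    ⟨fun hx => ?_, fun hx => ?_⟩⟩
  · exact (e N o _ hv' x (o.tr (hv 0) hx)).2 ((h x (o.tr (hv 0) hx)).1 hx)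
  · exact (h x (o.tr (hm N o _ hv') hx)).2 ((e N o _ hv' x (o.tr (hm N o _ hv') hx)).1 hx)

theorem UT.congr {s t : Set ZF → Env → ZF} (h : UT A s)
    (e : ∀ N, Ov A N → ∀ v, EIn N v → t N v = s N v) : UT A t :=
  ⟨fun N o v hv => e N o v hv ▸ h.mem N o v hv,
    h.out.congr fun N o v hv => by rw [e N o _ (hv.ren _)]⟩

instance ui_empty : UI A ∅ :=
  UT.ofMem (fun _ _ _ => False) (fun _ o _ _ => o.empty_mem) (fun _ _ _ _ _ _ => by simp) UD.bot

instance ui_omega : UI A ZFSet.omega :=
  UT.ofMem (fun _ _ x => MP_9a7e1f_lc.IsNat x) (fun _ o _ _ => o.z.infinity)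
    (fun _ _ _ _ _ _ => MP_9a7e1f_lc.isNat_iff.symm) (UD.d0 (MP_9a7e1f_lc.d0_isNat (i := 0)))

section inst

variable {a b c : Set ZF → Env → ZF} [ha : UT A a] [hb : UT A b] [hc : UT A c]

instance ut_singleton : UT A (fun N v => ({a N v} : ZF)) :=
  UT.ofMem (fun N v x => x = a N v) (fun N o v hv => by
    simpa using o.z.pairing _ (ha.mem N o v hv) _ (ha.mem N o v hv))
    (fun _ _ _ _ _ _ => mem_singleton) inferInstance

instance ut_sUnion : UT A (fun N v => ZFSet.sUnion (a N v)) :=
  UT.ofMem (fun N v x => ∃ z ∈ a N v, x ∈ z) (fun N o v hv => o.z.union _ (ha.mem N o v hv))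
    (fun _ _ _ _ _ _ => mem_sUnion) inferInstance

instance ut_union : UT A (fun N v => a N v ∪ b N v) :=
  UT.ofMem (fun N v x => x ∈ a N v ∨ x ∈ b N v)
    (fun N o v hv => o.z.union _ (o.z.pairing _ (ha.mem N o v hv) _ (hb.mem N o v hv)))
    (fun _ _ _ _ _ _ => mem_union) inferInstance

instance ut_insert : UT A (fun N v => insert (a N v) (b N v)) :=
  (inferInstance : UT A (fun N v => {a N v} ∪ b N v)).congr fun _ _ _ _ => insert_eq _ _

instance ut_sep {P : Set ZF → Env → ZF → Prop}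
    [h : UD A (fun N v => P N (fun n => v (n + 1)) (v 0))] :
    UT A (fun N v => ZFSet.sep (P N v) (a N v)) :=
  UT.ofMem (fun N v x => x ∈ a N v ∧ P N v x)
    (fun N o v hv => @zsep _ o.z _ (h.fix1 o hv) _ (ha.mem N o v hv))
    (fun _ _ _ _ _ _ => mem_sep) inferInstance

instance ut_inter : UT A (fun N v => a N v ∩ b N v) :=
  (inferInstance : UT A (fun N v => ZFSet.sep (fun x => x ∈ b N v) (a N v))).congr
    fun _ _ _ _ => by ext; simp

instance ut_sdiff : UT A (fun N v => a N v \ b N v) :=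
  (inferInstance : UT A (fun N v => ZFSet.sep (fun x => x ∉ b N v) (a N v))).congr
    fun _ _ _ _ => by ext; simp

instance ut_pair : UT A (fun N v => pair (a N v) (b N v)) := by
  unfold ZFSet.pair; infer_instance

theorem zpw {N : Set ZF} [hN : ZModel N] {a : ZF} (ha : a ∈ N) : pw N a ∈ N := by
  obtain ⟨c, hc, e⟩ := hN.power a ha
  convert hc using 1
  ext x
  rw [mem_pw]
  exact ⟨fun h => (e x h.2).2 h.1, fun h => ⟨(e x (hN.trans _ hc _ h)).1 h, hN.trans _ hc _ h⟩⟩

instance ut_pw : UT A (fun N v => pw N (a N v)) :=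
  UT.ofMem (fun N v x => x ⊆ a N v) (fun N o v hv => @zpw _ o.z _ (ha.mem N o v hv))
    (fun _ _ _ _ _ hx => by simp [hx]) inferInstance

instance ut_img {F : Set ZF → Env → ZF → ZF}
    [h : UT A (fun N v => F N (fun n => v (n + 1)) (v 0))] :
    UT A (fun N v => img (F N v) (a N v)) := by
  have h2 : UT A (fun N v => F N (fun n => v (n + 2)) (v 0)) :=
    @UT.ren _ _ h (cns 0 fun n => n + 2)
  have h3 : UT A (fun N v => F N (fun n => v (n + 2)) (v 1)) :=
    @UT.ren _ _ h (fun n => n + 1)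
  refine UT.ofMem (fun N v x => ∃ z ∈ a N v, F N v z = x) (fun N o v hv => ?_)
    (fun _ _ _ _ _ _ => mem_img) inferInstance
  have hA := ha.mem N o v hv
  have hF : ∀ x ∈ N, F N v x ∈ N := fun x hx => h.mem N o (cons x v) (hv.cons hx)
  obtain ⟨b, hb, e⟩ := @zrepl _ o.z (fun x y => y = F N v x)
    (UD.fix2 (P := fun N v y x => y = F N v x) inferInstance o hv) _ hA fun x hx =>
      ⟨F N v x, ⟨hF x (o.tr hA hx), rfl⟩, fun y hy => hy.2⟩
  convert hb using 1
  ext y
  rw [e, mem_img]
  exact ⟨fun ⟨x, hx, h⟩ => ⟨h ▸ hF x (o.tr hA hx), x, hx, h.symm⟩,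
    fun ⟨_, x, hx, h⟩ => ⟨x, hx, h.symm⟩⟩

instance ut_prod : UT A (fun N v => prod (a N v) (b N v)) :=
  (inferInstance : UT A (fun N v => ZFSet.sUnion (img (fun x => img (fun y => pair x y) (b N v))
    (a N v)))).congr fun _ _ _ _ => by
      ext z
      simp only [mem_prod, mem_sUnion, mem_img (a := a _ _)]
      constructor
      · rintro ⟨x, hx, y, hy, rfl⟩
        exact ⟨_, ⟨x, hx, rfl⟩, mem_img.2 ⟨y, hy, rfl⟩⟩
      · rintro ⟨_, ⟨x, hx, rfl⟩, h⟩
        obtain ⟨y, hy, rfl⟩ := mem_img.1 h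
        exact ⟨x, hx, y, hy, rfl⟩

open Classical in
instance ut_ite {P : Set ZF → Env → Prop} [h : UD A P] :
    UT A (fun N v => if P N v then a N v else b N v) :=
  UT.ofMem (fun N v x => (P N v ∧ x ∈ a N v) ∨ (¬ P N v ∧ x ∈ b N v))
    (fun N o v hv => by split_ifs; exacts [ha.mem N o v hv, hb.mem N o v hv])
    (fun N _ v _ _ _ => by by_cases h : P N v <;> simp [h]) inferInstance

instance ud_isFunc : UD A (fun N v => IsFunc (a N v) (b N v) (c N v)) := by
  unfold IsFunc; infer_instance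

instance ud_isTransitive : UD A (fun N v => IsTransitive (a N v)) := by
  unfold IsTransitive; infer_instance

instance ud_isOrdinal : UD A (fun N v => IsOrdinal (a N v)) :=
  (inferInstance : UD A (fun N v => IsTransitive (a N v) ∧ ∀ y ∈ a N v, IsTransitive y)).congr
    fun _ _ _ _ => isOrdinal_iff_forall_mem_isTransitive

instance ut_bun {F : Set ZF → Env → ZF → ZF}
    [h : UT A (fun N v => F N (fun n => v (n + 1)) (v 0))] :
    UT A (fun N v => bun (F N v) (a N v)) := by
  unfold bun; infer_instance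

instance ut_fst : UT A (fun N v => fst (a N v)) := by
  unfold fst; infer_instance

instance ut_snd : UT A (fun N v => snd (a N v)) := by
  unfold snd; infer_instance

instance ut_app : UT A (fun N v => app (a N v) (b N v)) := by
  unfold app; infer_instance

instance ut_graph {F : Set ZF → Env → ZF → ZF}
    [h : UT A (fun N v => F N (fun n => v (n + 1)) (v 0))] :
    UT A (fun N v => graph (F N v) (a N v)) := by
  unfold graph; infer_instance

instance ut_res : UT A (fun N v => res (a N v) (b N v)) := by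
  unfold res; infer_instance

instance ut_dom : UT A (fun N v => dom (a N v)) := by
  unfold dom; infer_instance

instance ut_lst {P : Set ZF → Env → ZF → Prop}
    [h : UD A (fun N v => P N (fun n => v (n + 1)) (v 0))] :
    UT A (fun N v => lst (a N v) (P N v)) := by
  have h2 : UD A (fun N v => P N (fun n => v (n + 2)) (v 0)) := h.ren (cns 0 (fun n => n + 2))
  unfold lst; infer_instance

instance ud_cardLE : UD A (fun N v => CardLE N (a N v) (b N v)) := by
  unfold CardLE; infer_instance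

instance ud_Le : UD A (fun N v => Le N (a N v) (b N v)) := by
  unfold Le; infer_instance

instance ud_ctb : UD A (fun N v => Ctb N (a N v)) := by
  unfold Ctb; infer_instance

instance uv_ctb {t : Set ZF → Env → ZF → ZF} [h : UO t] : UV A (fun N v x => Ctb N (t N v x)) :=
  ⟨fun N o v _ x H => h.out N o.z v x H.1⟩

instance ud_club : UD A (fun N v => Club N (a N v : Set ZF) (b N v)) := by
  unfold Club
  simp only [SetLike.mem_coe]
  infer_instance

instance ud_stat {P : Set ZF → Env → ZF → Prop}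
    [h : UD A (fun N v => P N (fun n => v (n + 1)) (v 0))] :
    UD A (fun N v => Stat N (a N v) (P N v)) := by
  have h2 : UD A (fun N v => P N (fun n => v (n + 2)) (v 0)) := h.ren (cns 0 (fun n => n + 2))
  unfold Stat; infer_instance

end inst

instance ui_num (n : ℕ) : UI A (num n) := by
  induction n with
  | zero => exact ui_empty
  | succ n ih => exact ut_insert

end Pool.Agent.P.MP_0b3dfe_lc
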