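import Pool.Agent.P.MP_0b3dfe_lc.U2
import Pool.Agent.P.MP_3ab3de_lc.Force
import Pool.Agent.P.MP_9a7e1f_lc.L

/-! Uniformly definable recursions. -/

set_option linter.unusedSectionVars false
set_option synthInstance.maxSize 100000

namespace Pool.Agent.P.MP_0b3dfe_lc

open ZFSet Pool.Agent.P.MP_3ab3de_lc

variable {A : Set ZF}

theorem UT.subst {t : Set ZF → Env → ZF} (h : UT A t) (s : ℕ → Set ZF → Env → ZF)
    (hs : ∀ k, UT A (s k)) : UT A (fun N v => t N (fun k => s k N v)) :=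
  ⟨fun N o v hv => h.mem N o _ fun k => (hs k).mem N o v hv,
    h.out.subst (cns (fun _ v => v 0) fun k N v => s k N (fun n => v (n + 1))) fun k => by
      cases k with
      | zero => exact UT.var 0
      | succ k => exact @UT.ren _ _ (hs k) _⟩

theorem UT.fix2 {F : Set ZF → Env → ZF → ZF → ZF}
    (h : UT A (fun N v => F N (fun n => v (n + 2)) (v 0) (v 1))) {N : Set ZF} (o : Ov A N) {v : Env}
    (hv : EIn N v) : UT N (fun N w => F N v (w 0) (w 1)) :=
  (h.up o.sub).subst (cns (fun _ w => w 0) (cns (fun _ w => w 1) fun n _ _ => v n)) fun k => by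
    rcases k with _ | _ | k
    exacts [UT.var 0, UT.var 1, UI.mk' (hv k)]

theorem ud_psi {Φ : Set ZF → Env → ZF → ZF → ZF}
    (h : UT A (fun N v => Φ N (fun n => v (n + 2)) (v 0) (v 1))) (a b : Set ZF → Env → ZF)
    [UT A a] [UT A b] : UD A (fun N v => Psi N (Φ N v) (a N v) (b N v)) := by
  have : UT A (fun N v => Φ N (fun n => v (n + 1 + 1)) (fst (v 0)) (res (v 1) (fst (v 0)))) :=
    h.subst (cns (fun _ v => fst (v 0)) (cns (fun _ v => res (v 1) (fst (v 0)))
      fun n _ v => v (n + 2))) fun k => by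
        rcases k with _ | _ | k
        exacts [ut_fst, ut_res, UT.var _]
  unfold Psi Apx
  infer_instance

section loc

variable {M : Set ZF} [hM : ZModel M]

theorem ztr {x y : ZF} (hx : x ∈ M) (hy : y ∈ x) : y ∈ M := hM.trans x hx y hy

theorem df_psi0 {Φ : Set ZF → ZF → ZF → ZF} (h : UT A (fun N v => Φ N (v 0) (v 1)))
    (a b : Set ZF → Env → ZF) [UT A a] [UT A b] :
    UD A (fun N v => Psi N (Φ N) (a N v) (b N v)) :=
  ud_psi (Φ := fun N _ => Φ N) h a b

theorem zrc_aux {Φ : Set ZF → ZF → ZF → ZF} (h : UT M (fun N v => Φ N (v 0) (v 1)))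
    (D : ZF → Prop)
    (hD : ∀ x ∈ M, D x → ∃ t ∈ M, x ⊆ t ∧ IsTransitive t ∧ ∀ y ∈ t, D y ∧ rank y < rank x)
    (x : ZF) : x ∈ M → D x → rc (Φ M) x ∈ M ∧ Psi M (Φ M) x (rc (Φ M) x) := by
  induction x using ForceP.wf_rank.induction with
  | _ x ih =>
    intro hx hd
    obtain ⟨t, ht, h1, h2, h3⟩ := hD x hx hd
    have := fun a b [UT M a] [UT M b] => df_psi0 h a b
    obtain ⟨b, hb, e⟩ := zrepl (N := M) (fun z p => p = pair z (snd p) ∧ Psi M (Φ M) z (snd p))
      (UD.df (P := fun N v => v 0 = pair (v 1) (snd (v 0)) ∧ Psi N (Φ N) (v 1) (snd (v 0)))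
        inferInstance (Ov.self M)) ht fun z hz => by
        obtain ⟨h4, h5⟩ := ih z (h3 z hz).2 (ztr ht hz) (h3 z hz).1
        have := UI.mk' h4
        have := UI.mk' (ztr ht hz)
        refine ⟨pair z (rc (Φ M) z), ⟨UI.mem _, by simp, by simpa using h5⟩, ?_⟩
        rintro p ⟨-, h6, h7⟩
        rw [h6, h7.eq]
    have e2 : b = graph (rc (Φ M)) t := by
      ext p
      rw [e, mem_graph]
      constructor
      · rintro ⟨-, z, hz, h6, h7⟩
        exact ⟨z, hz, by rw [h6, h7.eq]⟩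
      · rintro ⟨z, hz, rfl⟩
        obtain ⟨h4, h5⟩ := ih z (h3 z hz).2 (ztr ht hz) (h3 z hz).1
        have := UI.mk' h4
        have := UI.mk' (ztr ht hz)
        exact ⟨UI.mem _, z, hz, by simp, by simpa using h5⟩
    have := UI.mk' hb
    have := UI.mk' hx
    have h4 : rc (Φ M) x ∈ M := by
      rw [rc_eq, ← res_graph h1, ← e2]
      exact h.mem M (Ov.self M) (cons x fun _ => res b x) (EIn.cons (fun _ => UI.mem _) hx)
    have := UI.mk' h4
    refine ⟨h4, graph (rc (Φ M)) (insert x t), ?_, apx_graph _ ?_,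
      pair_mem_graph.2 ⟨by simp, rfl⟩⟩
    · have : graph (rc (Φ M)) (insert x t) = insert (pair x (rc (Φ M) x)) b := by
        ext p
        simp only [e2, mem_graph, mem_insert_iff]
        constructor
        · rintro ⟨z, rfl | hz, rfl⟩
          exacts [Or.inl rfl, Or.inr ⟨z, hz, rfl⟩]
        · rintro (rfl | ⟨z, hz, rfl⟩)
          exacts [⟨x, Or.inl rfl, rfl⟩, ⟨z, Or.inr hz, rfl⟩]
      rw [this]; exact UI.mem _
    · intro y hy z hz
      rcases mem_insert_iff.1 hy with rfl | hy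
      exacts [mem_insert_of_mem _ (h1 hz), mem_insert_of_mem _ (h2 y hy hz)]

theorem zsubset_VM {o x : ZF} (hx : x ∈ M) : x ⊆ VM M o ↔ rank x ≤ rank o := by
  rw [rank_le_iff]
  exact ⟨fun h y hy => (mem_VM.1 (h hy)).1, fun h y hy => mem_VM.2 ⟨h hy, ztr hx hy⟩⟩

theorem zVM_trans (o : ZF) : IsTransitive (VM M o) := fun _ hx _ hy =>
  mem_VM.2 ⟨(rank_lt_of_mem hy).trans (mem_VM.1 hx).1, ztr (mem_VM.1 hx).2 hy⟩

theorem zVM_eq {o : ZF} (ho : IsOrdinal o) : VM M o = bun (fun o' => pw M (VM M o')) o := by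
  ext x
  simp only [mem_bun, mem_pw, mem_VM]
  constructor
  · rintro ⟨h1, h2⟩
    exact ⟨rk x, (rk_mem_iff ho).2 h1, (zsubset_VM h2).2 (by simp), h2⟩
  · rintro ⟨o', h1, h2, h3⟩
    exact ⟨((zsubset_VM h3).1 h2).trans_lt (rank_lt_of_mem h1), h3⟩

theorem zrc_PhiV (o : ZF) : IsOrdinal o → rc (PhiV M) o = VM M o := by
  induction o using ZFSet.inductionOn with
  | h o ih =>
    intro ho
    rw [rc_eq, zVM_eq ho]
    ext x
    simp only [PhiV, mem_bun, mem_graph]
    constructor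
    · rintro ⟨_, ⟨y, hy, rfl⟩, h⟩
      exact ⟨y, hy, by simpa [ih y hy (ho.mem hy)] using h⟩
    · rintro ⟨y, hy, h⟩
      exact ⟨_, ⟨y, hy, rfl⟩, by simpa [ih y hy (ho.mem hy)] using h⟩

theorem ut_PhiV : UT A (fun N v => PhiV N (v 0) (v 1)) := by unfold PhiV; infer_instance

theorem zVM_aux {o : ZF} (hm : o ∈ M) (ho : IsOrdinal o) :
    VM M o ∈ M ∧ Psi M (PhiV M) o (VM M o) := by
  rw [← zrc_PhiV o ho]
  exact zrc_aux ut_PhiV IsOrdinal (fun x hx hd => ⟨x, hx, fun _ h => h, hd.isTransitive,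
    fun y hy => ⟨hd.mem hy, rank_lt_of_mem hy⟩⟩) o hm ho

theorem ud_RkR : UD A (fun N v => RkR N (v 1) (v 0)) := by
  have := fun a b [UT A a] [UT A b] => df_psi0 (ut_PhiV (A := A)) a b
  unfold RkR
  infer_instance

theorem zrkR_iff {y o : ZF} (hy : y ∈ M) (hm : o ∈ M) : RkR M y o ↔ o = rk y := by
  have key : ∀ o ∈ M, IsOrdinal o → ((∃ W ∈ M, Psi M (PhiV M) o W ∧ y ⊆ W) ↔ rank y ≤ rank o) := by
    intro o hm ho
    rw [← zsubset_VM hy]
    constructor
    · rintro ⟨W, -, h1, h2⟩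
      rwa [h1.eq, zrc_PhiV o ho] at h2
    · exact fun h => ⟨_, (zVM_aux hm ho).1, (zVM_aux hm ho).2, h⟩
  constructor
  · rintro ⟨ho, h1, h2⟩
    rw [key o hm ho] at h1
    rw [← ho.rank_inj (rk_ord y), rank_rk]
    refine le_antisymm (not_lt.1 fun h => ?_) h1
    have h3 := (rk_mem_iff ho).2 h
    exact h2 _ h3 ((key _ (ztr hm h3) (rk_ord y)).2 (by simp))
  · rintro rfl
    refine ⟨rk_ord y, (key _ hm (rk_ord y)).2 (by simp), fun o' ho' h => ?_⟩
    rw [key _ (ztr hm ho') ((rk_ord y).mem ho')] at h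
    have := rank_lt_of_mem ho'
    rw [rank_rk] at this
    exact absurd h (not_le.2 this)

theorem zrk_mem (x : ZF) : x ∈ M → rk x ∈ M := by
  induction x using ZFSet.inductionOn with
  | h x ih =>
    intro hx
    obtain ⟨b, hb, e⟩ := zrepl (RkR M) (ud_RkR.df (Ov.self M)) hx fun y hy =>
      ⟨rk y, ⟨ih y hy (ztr hx hy), (zrkR_iff (ztr hx hy) (ih y hy (ztr hx hy))).2 rfl⟩,
        fun o ho => (zrkR_iff (ztr hx hy) ho.1).1 ho.2⟩
    have := UI.mk' hb
    have e2 : rk x = bun (fun o => insert o o) b := by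
      ext z
      simp only [mem_bun, e]
      constructor
      · intro hz
        have h1 := rank_lt_of_mem hz
        rw [rank_rk, lt_rank_iff] at h1
        obtain ⟨y, hy, h1⟩ := h1
        refine ⟨rk y, ⟨ih y hy (ztr hx hy), y, hy,
          (zrkR_iff (ztr hx hy) (ih y hy (ztr hx hy))).2 rfl⟩, ?_⟩
        rw [mem_succ_iff ((rk_ord x).mem hz) (rk_ord y),
          ← ((rk_ord x).mem hz).rank_le_iff_subset (rk_ord y), rank_rk]
        exact h1
      · rintro ⟨o, ⟨ho, y, hy, h⟩, hz⟩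
        obtain rfl := (zrkR_iff (ztr hx hy) ho).1 h
        have h2 : rk y ∈ rk x := (rk_mem_iff (rk_ord x)).2 (by simpa using rank_lt_of_mem hy)
        rcases mem_insert_iff.1 hz with rfl | hz
        exacts [h2, (rk_ord x).mem_trans hz h2]
    rw [e2]; exact UI.mem _

end loc

/-- recursion with parameters -/
theorem ut_rc {Φ : Set ZF → Env → ZF → ZF → ZF}
    (h : UT A (fun N v => Φ N (fun n => v (n + 2)) (v 0) (v 1))) (a : Set ZF → Env → ZF)
    [ha : UT A a] : UT A (fun N v => rc (Φ N v) (a N v)) := by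
  have key : ∀ N, Ov A N → ∀ v, EIn N v → ∀ x ∈ N,
      rc (Φ N v) x ∈ N ∧ Psi N (Φ N v) x (rc (Φ N v) x) := fun N o v hv x hx => by
    have := o.z
    exact zrc_aux (Φ := fun N => Φ N v) (h.fix2 o hv) (fun _ => True) (fun x hx _ =>
      ⟨VM N (rk x), (zVM_aux (zrk_mem x hx) (rk_ord x)).1, (zsubset_VM hx).2 (by simp),
        zVM_trans _, fun y hy => ⟨trivial, by simpa using (mem_VM.1 hy).1⟩⟩) x hx trivial
  have h2 : UT A (fun N v => Φ N (fun n => v (n + 1 + 2)) (v 0) (v 1)) :=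
    @UT.ren _ _ h (cns 0 (cns 1 fun n => n + 3))
  have h3 : UT A (fun N v => a N (fun n => v (n + 1))) := @UT.ren _ _ ha _
  exact ⟨fun N o v hv => (key N o v hv _ (ha.mem N o v hv)).1,
    (ud_psi (Φ := fun N v => Φ N (fun n => v (n + 1))) h2
      (fun N v => a N (fun n => v (n + 1))) (fun _ v => v 0)).congr fun N o v hv =>
      ⟨fun e => e ▸ (key N o _ (hv.ren _) _ (ha.mem N o _ (hv.ren _))).2, fun e => e.eq⟩⟩

instance ut_rk {a : Set ZF → Env → ZF} [UT A a] : UT A (fun N v => rk (a N v)) :=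
  UT.one (G := fun _ => rk) ⟨fun _ o _ hv => @zrk_mem _ o.z _ (hv 0),
    ud_RkR.congr fun _ o _ hv => (@zrkR_iff _ o.z _ _ (hv 1) (hv 0)).symm⟩ a

instance ut_VM {a : Set ZF → Env → ZF} [UT A a] : UT A (fun N v => VM N (a N v)) :=
  (ut_rc (Φ := fun N _ => PhiV N) ut_PhiV (fun N v => rk (a N v))).congr fun N o v _ => by
    rw [@zrc_PhiV _ o.z _ (rk_ord _), VM, VM, rank_rk]

section L

open MP_9a7e1f_lc

instance ud_psi0 {a b c : Set ZF → Env → ZF} [UT A a] [UT A b] [UT A c] :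
    UD A (fun N v => Psi0 (a N v) (b N v) (c N v)) :=
  UD.three (R := fun _ => Psi0) (UD.d0 (d0_psi (a := 0) (b := 1) (c := 2))) a b c

instance ut_uu {a b c : Set ZF → Env → ZF} [UT A a] [UT A b] [UT A c] :
    UT A (fun N v => uu (a N v) (b N v) (c N v)) := by unfold uu; infer_instance

instance ud_isU {a b c d : Set ZF → Env → ZF} [UT A a] [UT A b] [UT A c] [UT A d] :
    UD A (fun N v => IsU (a N v) (b N v) (c N v) (d N v)) := by unfold IsU; infer_instance

instance ut_SS {a : Set ZF → Env → ZF} [UT A a] : UT A (fun N v => SS (a N v)) := by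
  unfold SS; infer_instance

instance ud_ltF {a b c d : Set ZF → Env → ZF} [UT A a] [UT A b] [UT A c] [UT A d] :
    UD A (fun N v => LtF (a N v) (b N v) (c N v) (d N v)) := by
  unfold LtF LtL; beta_reduce; infer_instance

instance ut_LS {a : Set ZF → Env → ZF} [UT A a] : UT A (fun N v => LS (a N v)) := by
  have : UT A (fun N v => LL (a N v)) :=
    ut_rc (Φ := fun _ _ => PhiL) (show UT A (fun _ v => pair (SS (v 1)) (ZFSet.sep (fun p => ∃ u u',
      p = pair u u' ∧ LtF (v 1) (v 0) u u') (prod (SS (v 1)) (SS (v 1))))) from inferInstance) a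
  unfold LS; infer_instance

end L

section Val

open ForceP

/-- the step of the recursion for values of names below a rank -/
noncomputable def PhiVal (N : Set ZF) (G o g : ZF) : ZF :=
  graph (fun t => img (fun s => app (bun snd g) s)
    (ZFSet.sep (fun s => ∃ p ∈ G, pair s p ∈ t) (dom t))) (VM N (insert o o))

theorem rc_val {N : Set ZF} [ZModel N] (G o : ZF) : IsOrdinal o →
    rc (PhiVal N G) o = graph (val G) (VM N (insert o o)) := by
  induction o using ZFSet.inductionOn with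
  | h o ih =>
    intro ho
    rw [rc_eq, PhiVal]
    refine graph_congr fun t ht => ?_
    have key : ∀ s p, pair s p ∈ t → app (bun snd (graph (rc (PhiVal N G)) o)) s = val G s := by
      intro s p hs
      have h1 : rk s ∈ o := (rk_mem_iff ho).2 (by
        have h2 := (mem_VM.1 ht).1
        have h3 := rank_lt_of_pair hs
        simp only [rank_insert, max_eq_left (Order.le_succ _), Order.lt_succ_iff] at h2
        exact h3.trans_le h2)
      refine app_eq (mem_bun.2 ⟨_, mem_graph.2 ⟨_, h1, rfl⟩, ?_⟩) fun z hz => ?_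
      · rw [snd_pair, ih _ h1 (rk_ord s)]
        exact pair_mem_graph.2 ⟨mem_VM.2 ⟨by simp, MP_9a7e1f_lc.Trn.fst ZModel.trans
          (ztr (mem_VM.1 ht).2 hs)⟩, rfl⟩
      · obtain ⟨_, h2, h3⟩ := mem_bun.1 hz
        obtain ⟨y, hy, rfl⟩ := mem_graph.1 h2
        rw [snd_pair, ih _ hy (ho.mem hy)] at h3
        exact (pair_mem_graph.1 h3).2.symm
    ext y
    rw [mem_img, mem_val]
    constructor
    · rintro ⟨s, hs, rfl⟩
      obtain ⟨-, p, h1, h2⟩ := mem_sep.1 hs
      exact ⟨s, p, h1, h2, (key s p h2).symm⟩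
    · rintro ⟨s, p, h1, h2, rfl⟩
      exact ⟨s, mem_sep.2 ⟨mem_dom_of h2, p, h1, h2⟩, key s p h2⟩

instance ut_val {a b : Set ZF → Env → ZF} [UT A a] [hb : UT A b] :
    UT A (fun N v => val (a N v) (b N v)) := by
  have : UT A (fun N v => rc (PhiVal N (a N v)) (rk (b N v))) :=
    ut_rc (Φ := fun N v => PhiVal N (a N v)) (by unfold PhiVal; infer_instance) _
  refine (inferInstance : UT A (fun N v => app (rc (PhiVal N (a N v)) (rk (b N v))) (b N v))).congr
    fun N o v hv => ?_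
  have := o.z
  rw [rc_val _ _ (rk_ord _), app_graph (mem_VM.2 ⟨by simp, hb.mem N o v hv⟩)]

instance tm_val {M : Set ZF} [TModel M] {a b : Env → ZF} [Tm M a] [Tm M b] :
    Tm M (fun v => val (a v) (b v)) :=
  Tm.two ((ut_val (A := ∅) (a := fun _ v => v 0) (b := fun _ v => v 1)).tm (Ov.empty M)) a b

end Val

end Pool.Agent.P.MP_0b3dfe_lc
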